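import Pool.Agent.H3.NA9.Prt

/-!
# The data of a law of configurations in real form
-/

set_option autoImplicit false

namespace Pool.NA3

open Finset Real
open Pool.Agent.H49.Ent Pool.Agent.H32.Dense Pool.STK
open Pool.BFL (Pb)
open Pool.K2S (cpn)
open Pool.CLU (cpn_law cpn_pos)
open Pool.NDD66 (mu Lam mu_le)
open Pool.CLO80 (hd)

variable {Ω Λ Pt Y X Z C V T S : Type} [Fintype Ω]

/-- **The data of a law of configurations in real form.** `L` the line with its window, `P` the point, `y` the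
common datum of the copies, `x` the near data of the line, `Qc` the near position and the closed record, `ct`
the closed record, `ell` the data of the line, `Tm` the time, `τ` its digits, `σt` the relative time, `Uf` the
far digits of the point, `U` the height, `φ` the slope, `uL c ω`, `cL c ω` the height and the slope of the line
of `ω` relative to the closed record `c`. -/
structure RlH (q : Ω → ℝ) (L : Ω → Λ) (P : Ω → Pt) (y : Ω → Y) (x : Ω → X) (Qc : Ω → Z)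
    (ct : Ω → C) (ell : Ω → V) (Tm : Ω → T) (Uf : Ω → S) (τ U φc : Ω → ℤ) (σt φ : Ω → ℝ)
    (uL cL : C → Ω → Polynomial ℝ) {K n : ℕ} (D M : ℕ) (jj : Fin (K + 1) → Fin n)
    (Θ ε cT cU e c : ℝ) : Prop where
  law : IsLaw q
  yx : Det q y x
  yc : Det q y ct
  yT : Det q y Tm
  ex : Det q ell x
  Ll : Det q L ell
  Lc : Det q L ct
  Qt : Det q Qc ct
  Tτ : Det q (fun ω => (Tm ω, ct ω)) τ
  PU : Det q P U
  Pp : Det q P φ
  PQ : Det q P Qc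
  Ub : ∀ ω, 0 < q ω → |U ω| ≤ (M : ℤ)
  tb : ∀ ω, 0 < q ω → |τ ω| ≤ (M : ℤ)
  pc : ∀ ω, 0 < q ω → |(M : ℝ) * φ ω - φc ω| ≤ 1
  st : ∀ ω, 0 < q ω → |σt ω| ≤ 1 ∧ |σt ω - (τ ω : ℝ) / M| ≤ 1 / M
  deg : ∀ a ω, (uL a ω).natDegree ≤ D ∧ (cL a ω).natDegree ≤ D
  bd : ∀ ω, 0 < q ω → ∀ s : ℝ, |s| ≤ 2 →
    |(uL (ct ω) ω).eval s| ≤ Θ ∧ |(cL (ct ω) ω).eval s| ≤ Θ
  own : Pb q (fun ω => ¬ (|(uL (ct ω) ω).eval (σt ω) - (U ω : ℝ) / M| ≤ ε ∧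
    |(cL (ct ω) ω).eval (σt ω) - φ ω| ≤ ε)) ≤ c
  cls : ∀ ω ω', 0 < q ω → 0 < q ω' → ell ω = ell ω' → ct ω = ct ω' → ∀ s : ℝ, |s| ≤ 2 →
    |(uL (ct ω) ω').eval s - (uL (ct ω) ω).eval s| ≤ ε ∧
    |(cL (ct ω) ω').eval s - (cL (ct ω) ω).eval s| ≤ ε
  par : ∀ ω ω', 0 < q ω → 0 < q ω' → y ω = y ω' → ∀ s : ℝ, |s| ≤ 2 →
    |(uL (ct ω) ω').eval s - (uL (ct ω) ω).eval s -
      ((uL (ct ω) ω').eval 0 - (uL (ct ω) ω).eval 0)| ≤ ε
  dd : Pb (cpn q y n) (fun w => ¬ (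
    (∀ i k, i ≠ k → 1 / Θ ≤ |(uL (ct (w 0)) (hd jj w i)).eval (σt (w 0)) -
      (uL (ct (w 0)) (hd jj w k)).eval (σt (w 0))|) ∧
    |∑ i, mu (fun i => (uL (ct (w 0)) (hd jj w i)).eval (σt (w 0))) i *
      (cL (ct (w 0)) (hd jj w i)).eval (σt (w 0))| ≤ ε)) ≤ c
  ef : CH q ell x ≤ cU + e
  eo : CH q Uf (fun ω => (ell ω, y ω)) ≤ e
  eU : cU - e ≤ CH q Uf y
  T1 : CH q Tm (fun ω => (x ω, ct ω)) ≤ cT + e
  T2 : cT - e ≤ CH q Tm L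
  T3 : CH q Tm (fun ω => (τ ω, L ω)) ≤ cT - Real.log (2 * M + 1) + e
  U1 : CH q Qc y ≤ e
  U2 : CH q Uf (fun ω => (U ω, Qc ω)) ≤ cU - Real.log (2 * M + 1) + e
  few : CH q φc (fun ω => (Uf ω, (U ω, Qc ω))) ≤ e

end Pool.NA3
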