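import Pool.Agent.H3.NA9.Chg
import Pool.Agent.H3.NA9.Rlh
import Pool.Agent.H4.T4.Frd

/-!
# The data in real form, from the letters of one sample

`rpt`: a sample with the same exact point, a function of the exact point. `rlh_asm`: the structure `RlH` for a
law of configurations whose head is a sample of an event, from the paths over the charts of a window `t`
(`uS`, `cS`), the entropies of one sample and the divided difference.
-/

set_option autoImplicit false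

namespace Pool.NA3

open Finset Real MvPolynomial
open Pool.Agent.H49.Ent Pool.Agent.H32.Dense Pool.STK Pool.KA Pool.KSAT Pool.K2S Pool.PB Pool.S6C
open Pool.GEN hiding Det
open Pool.CHT Pool.D2R
open Pool.BFL (Pb)
open Pool.PB.Trl (rt rt_mem t_rt)
open Pool.CLO80 (hd)
open Pool.T4J (ch_one)

variable {m J : ℕ}

/-! ### Representatives -/

open Classical in
/-- A sample of `A` with the same exact point. -/
noncomputable def rpt (F : Fam m J) (A : F.Ω → Prop) (ω : F.Ω) : F.Ω :=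
  if h : ∃ ω', A ω' ∧ ptr F J ω' = ptr F J ω then h.choose else ω

theorem rpt_of {F : Fam m J} {A : F.Ω → Prop} {ω : F.Ω} (h : A ω) :
    A (rpt F A ω) ∧ ptr F J (rpt F A ω) = ptr F J ω := by
  classical
  have hex : ∃ ω', A ω' ∧ ptr F J ω' = ptr F J ω := ⟨ω, h, rfl⟩
  unfold rpt
  rw [dif_pos hex]
  exact hex.choose_spec

theorem rpt_eq {F : Fam m J} {A : F.Ω → Prop} {ω ω' : F.Ω} (h : A ω) (h' : A ω')
    (e : ptr F J ω = ptr F J ω') : rpt F A ω = rpt F A ω' := by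
  classical
  have hex : ∃ ω₁, A ω₁ ∧ ptr F J ω₁ = ptr F J ω := ⟨ω, h, rfl⟩
  have hex' : ∃ ω₁, A ω₁ ∧ ptr F J ω₁ = ptr F J ω' := ⟨ω', h', rfl⟩
  unfold rpt
  rw [dif_pos hex, dif_pos hex']
  simp only [e]

/-! ### Counting -/

section

variable {Ω T : Type} [Fintype Ω]

/-- Near integers. -/
theorem ch_by {p : Ω → ℝ} (hp : IsLaw p) (a b : Ω → ℤ) {N : ℕ}
    (h : ∀ ω, 0 < p ω → |(a ω : ℝ) - b ω| ≤ N) (Z : Ω → T) :
    CH p a (fun ω => (b ω, Z ω)) ≤ Real.log (4 * N + 1) := by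
  have h1 := ch_one (K := 2 * N) hp a (fun ω => (b ω, Z ω)) (fun ω ω' hω hω' e => by
    have e1 : b ω = b ω' := (Prod.ext_iff.1 e).1
    have h1 := h ω hω
    have h2 := h ω' hω'
    rw [e1] at h1
    have e2 : (a ω : ℝ) - a ω' = ((a ω : ℝ) - b ω') - ((a ω' : ℝ) - b ω') := by ring
    rw [e2]
    refine (abs_sub _ _).trans ?_
    push_cast
    linarith)
  push_cast at h1
  refine h1.trans (le_of_eq ?_)
  congr 1
  ring

/-- Change of the condition. -/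
theorem ch_cond {S U V : Type} {p : Ω → ℝ} (hp : IsLaw p) (X : Ω → S) (W : Ω → U) (W' : Ω → V)
    {e e' : ℝ} (h1 : CH p X W ≤ e) (h2 : CH p W W' ≤ e') : CH p X W' ≤ e + e' := by
  have h3 := CH_le_add hp.nonneg X W W'
  have h4 : CH p X (fun ω => (W ω, W' ω)) ≤ CH p X W :=
    CH_mono_cond hp.nonneg fun ω ω' _ _ h => (Prod.ext_iff.1 h).1
  linarith

end

/-- Floors of near numbers. -/
theorem fl_near {x y N : ℝ} (h : |x - y| ≤ N) : |(⌊x⌋ : ℝ) - ⌊y⌋| ≤ N + 1 := by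
  have h1 := Int.floor_le x
  have h2 := Int.lt_floor_add_one x
  have h3 := Int.floor_le y
  have h4 := Int.lt_floor_add_one y
  rw [abs_le] at h ⊢
  constructor <;> linarith

/-- The number of times of a window. -/
theorem ch_time {F : Fam m J} {p : F.Ω → ℝ} (hp : IsLaw p) {t : ℕ} {T' : Type}
    (Z : F.Ω → T') (hZ : ∀ ω ω', 0 < p ω → 0 < p ω' → Z ω = Z ω' →
      (slam F t ω).2.2 = (slam F t ω').2.2) :
    CH p F.T Z ≤ ((J - t : ℕ) : ℝ) * Real.log 2 + Real.log 3 := by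
  have h0 : CH p F.T Z ≤ CH p (fun ω => (F.T ω : ℤ)) Z :=
    CH_mono_left hp.nonneg fun ω ω' _ _ h => by
      have h1 : (F.T ω : ℤ) = (F.T ω' : ℤ) := (Prod.ext_iff.1 h).1
      exact_mod_cast h1
  have h1 := ch_one (K := 2 ^ (J - t)) hp (fun ω => (F.T ω : ℤ)) Z (fun ω ω' hω hω' e => by
    have h1 : F.T ω / 2 ^ (J - t) = F.T ω' / 2 ^ (J - t) := hZ ω ω' hω hω' e
    have h2 := Nat.div_add_mod (F.T ω) (2 ^ (J - t))
    have h3 := Nat.div_add_mod (F.T ω') (2 ^ (J - t))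
    have h4 := Nat.mod_lt (F.T ω) (show 0 < 2 ^ (J - t) by positivity)
    have h5 := Nat.mod_lt (F.T ω') (show 0 < 2 ^ (J - t) by positivity)
    rw [h1] at h2
    rw [abs_le]
    constructor
    · have h6 : F.T ω' ≤ F.T ω + 2 ^ (J - t) := by omega
      have h7 : ((F.T ω' : ℕ) : ℝ) ≤ F.T ω + 2 ^ (J - t) := by exact_mod_cast h6
      push_cast
      linarith
    · have h6 : F.T ω ≤ F.T ω' + 2 ^ (J - t) := by omega
      have h7 : ((F.T ω : ℕ) : ℝ) ≤ F.T ω' + 2 ^ (J - t) := by exact_mod_cast h6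
      push_cast
      linarith)
  refine h0.trans (h1.trans ?_)
  rw [← Real.log_pow, ← Real.log_mul (by positivity) (by norm_num)]
  refine Real.log_le_log (by positivity) ?_
  push_cast
  have : (1 : ℝ) ≤ 2 ^ (J - t) := one_le_pow₀ one_le_two
  linarith

/-- The number of times of a window with given digits of the relative time. -/
theorem ch_timek {F : Fam m J} {p : F.Ω → ℝ} (hp : IsLaw p) {t k : ℕ} (htk : t + k ≤ J)
    {T' : Type} (Z : F.Ω → T') (hZ : ∀ ω ω', 0 < p ω → 0 < p ω' → Z ω = Z ω' →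
      (slam F t ω).2.2 = (slam F t ω').2.2 ∧ ⌊(2 : ℝ) ^ k * rt F t ω⌋ = ⌊(2 : ℝ) ^ k * rt F t ω'⌋) :
    CH p F.T Z ≤ ((J - t : ℕ) : ℝ) * Real.log 2 - k * Real.log 2 + Real.log 3 := by
  have h0 : CH p F.T Z ≤ CH p (fun ω => (F.T ω : ℤ)) Z :=
    CH_mono_left hp.nonneg fun ω ω' _ _ h => by
      have h1 : (F.T ω : ℤ) = (F.T ω' : ℤ) := (Prod.ext_iff.1 h).1
      exact_mod_cast h1
  have h1 := ch_one (K := 2 ^ (J - t - k)) hp (fun ω => (F.T ω : ℤ)) Z (fun ω ω' hω hω' e => by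
    obtain ⟨h1, h2⟩ := hZ ω ω' hω hω' e
    have h3 : |(2 : ℝ) ^ k * rt F t ω - 2 ^ k * rt F t ω'| ≤ 1 := by
      have a1 := Int.floor_le ((2 : ℝ) ^ k * rt F t ω)
      have a2 := Int.lt_floor_add_one ((2 : ℝ) ^ k * rt F t ω)
      have a3 := Int.floor_le ((2 : ℝ) ^ k * rt F t ω')
      have a4 := Int.lt_floor_add_one ((2 : ℝ) ^ k * rt F t ω')
      rw [h2] at a1 a2
      rw [abs_le]
      constructor <;> linarith
    have ht : ∀ ν : F.Ω, (F.T ν : ℝ) = 2 ^ (J - t) * (((slam F t ν).2.2 : ℝ) + rt F t ν) := by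
      intro ν
      have h4 := t_rt F (show t ≤ J by omega) ν
      have h5 : F.t ν = (F.T ν : ℝ) / 2 ^ J := rfl
      have h6 : (2 : ℝ) ^ J = 2 ^ (J - t) * 2 ^ t := by
        rw [← pow_add, Nat.sub_add_cancel (by omega)]
      rw [h5, h6] at h4
      field_simp at h4
      linarith
    have h4 : ((F.T ω : ℤ) : ℝ) - ((F.T ω' : ℤ) : ℝ) =
        2 ^ (J - t - k) * (2 ^ k * rt F t ω - 2 ^ k * rt F t ω') := by
      push_cast
      rw [ht ω, ht ω', h1]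
      have h5 : (2 : ℝ) ^ (J - t) = 2 ^ (J - t - k) * 2 ^ k := by
        rw [← pow_add, Nat.sub_add_cancel (by omega)]
      rw [h5]
      ring
    rw [h4, abs_mul, abs_of_pos (show (0 : ℝ) < 2 ^ (J - t - k) by positivity)]
    push_cast
    exact mul_le_of_le_one_right (by positivity) h3)
  refine h0.trans (h1.trans ?_)
  have e1 : ((J - t : ℕ) : ℝ) * Real.log 2 - k * Real.log 2 =
      ((J - t - k : ℕ) : ℝ) * Real.log 2 := by
    rw [Nat.cast_sub (show k ≤ J - t by omega)]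
    ring
  rw [e1, ← Real.log_pow, ← Real.log_mul (by positivity) (by norm_num)]
  refine Real.log_le_log (by positivity) ?_
  push_cast
  have : (1 : ℝ) ≤ 2 ^ (J - t - k) := one_le_pow₀ one_le_two
  linarith

/-! ### The assembly -/

/-- The own height over the closed chart, in natural units. -/
noncomputable def uo (F : Fam m J) (c : ℕ → Fin m) (t : ℕ) (gt : ℕ → ℕ) (r : ℕ) {Zt : Type}
    (χ : Zt → ℕ → MvPolynomial (Option (Fin m)) ℝ) (zt : F.Ω → Zt) (ω : F.Ω) : ℝ :=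
  (uS F c t gt r (χ (zt ω)) ω).eval (rt F t ω)

/-- The own slope over the closed chart, in natural units. -/
noncomputable def so (F : Fam m J) (c : ℕ → Fin m) (t : ℕ) (gt : ℕ → ℕ) (r : ℕ) {Zt : Type}
    (χ : Zt → ℕ → MvPolynomial (Option (Fin m)) ℝ) (R : F.Ω → MvPolynomial (Option (Fin m)) ℝ)
    (zt : F.Ω → Zt) (ω : F.Ω) : ℝ :=
  (cS F c t gt r (χ (zt ω)) (R ω) ω).eval (rt F t ω)

/-- **The data in real form** from the letters of one sample. -/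
theorem rlh_asm (D r : ℕ) : ∃ C : ℝ, 1 ≤ C ∧ ∀ {m J : ℕ} {F : Fam m J} {A : F.Ω → Prop}
    {c : ℕ → Fin m} {t k : ℕ} {gt : ℕ → ℕ} {Zt X V : Type} {zt : F.Ω → Zt} {xb : F.Ω → X}
    {ell : F.Ω → V} {Uf : F.Ω → ℤ} {hv : F.Ω → Fin 2 → ℤ}
    {χ : Zt → ℕ → MvPolynomial (Option (Fin m)) ℝ} {R : F.Ω → MvPolynomial (Option (Fin m)) ℝ}
    {Ω' Y : Type} [Fintype Ω'] {q : Ω' → ℝ} {pr : Ω' → F.Ω} {y : Ω' → Y} {K n : ℕ}
    {jj : Fin (K + 1) → Fin n} {Θ ε cU e c₁ : ℝ},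
    0 < Pe F.p A → t + k ≤ J → IsLaw q → Marg q (Pool.Agent.H49.Ent.cond F.p A True) pr →
    1 ≤ Θ → 0 ≤ ε → 0 ≤ e →
    (∀ ω ω', A ω → A ω' → ptr F J ω = ptr F J ω' → zt ω = zt ω') →
    (∀ ω ω', A ω → A ω' → slam F t ω = slam F t ω' → zt ω = zt ω' ∧ ell ω = ell ω') →
    (∀ ω ω', A ω → A ω' → ell ω = ell ω' → xb ω = xb ω') →
    (∀ ω ω', A ω → A ω' → xb ω = xb ω' → F.Z ω = F.Z ω') →
    Det q y (fun v => F.T (pr v)) → Det q y (fun v => zt (pr v)) → Det q y (fun v => xb (pr v)) →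
    (∀ z l, (χ z l).totalDegree ≤ D) → (∀ ω, (R ω).totalDegree ≤ D) →
    (∀ ω, A ω → |uo F c t gt r χ zt ω| ≤ 1) →
    (∀ ω, A ω → ∀ s ∈ Set.Icc (0 : ℝ) 1, |(uS F c t gt r (χ (zt ω)) ω).eval s| ≤ Θ ∧
      |(cS F c t gt r (χ (zt ω)) (R ω) ω).eval s| ≤ Θ) →
    (∀ ω ω', A ω → A ω' → ptr F J ω = ptr F J ω' →
      |uo F c t gt r χ zt ω - uo F c t gt r χ zt ω'| ≤ 1 / 2 ^ k ∧
      |so F c t gt r χ R zt ω - so F c t gt r χ R zt ω'| ≤ 1 / 2 ^ k ∧
      ∀ l, |(hv ω l : ℝ) - hv ω' l| ≤ 2) →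
    (∀ ω ω', A ω → A ω' → ell ω = ell ω' → zt ω = zt ω' →
      (slam F t ω).2.2 = (slam F t ω').2.2 → ∀ s : ℝ, |s| ≤ 2 →
      |(uS F c t gt r (χ (zt ω)) ω').eval s - (uS F c t gt r (χ (zt ω)) ω).eval s| ≤ ε ∧
      |(cS F c t gt r (χ (zt ω)) (R ω') ω').eval s -
        (cS F c t gt r (χ (zt ω)) (R ω) ω).eval s| ≤ ε) →
    (∀ ω ω', A ω → A ω' → xb ω = xb ω' → zt ω = zt ω' →
      (slam F t ω).2.2 = (slam F t ω').2.2 → ∀ s : ℝ, |s| ≤ 2 →
      |(uS F c t gt r (χ (zt ω)) ω').eval s - (uS F c t gt r (χ (zt ω)) ω).eval s -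
        ((uS F c t gt r (χ (zt ω)) ω').eval 0 - (uS F c t gt r (χ (zt ω)) ω).eval 0)| ≤ ε) →
    Pb (cpn q y n) (fun w => ¬ (
      (∀ i l, i ≠ l → 1 / Θ ≤
        |(uS F c t gt r (χ (zt (pr (w 0)))) (pr (hd jj w i))).eval (rt F t (pr (w 0))) -
        (uS F c t gt r (χ (zt (pr (w 0)))) (pr (hd jj w l))).eval (rt F t (pr (w 0)))|) ∧
      |∑ i, Pool.NDD66.mu (fun i => (uS F c t gt r (χ (zt (pr (w 0)))) (pr (hd jj w i))).eval
          (rt F t (pr (w 0)))) i *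
        (cS F c t gt r (χ (zt (pr (w 0)))) (R (pr (hd jj w i))) (pr (hd jj w i))).eval
          (rt F t (pr (w 0)))| ≤ ε)) ≤ c₁ →
    CH (Pool.Agent.H49.Ent.cond F.p A True) ell xb ≤ cU + e →
    CH (Pool.Agent.H49.Ent.cond F.p A True) Uf (fun ω => (ell ω, F.T ω)) ≤ e →
    cU - e ≤ CH q (fun v => Uf (pr v)) y →
    ((J - t : ℕ) : ℝ) * Real.log 2 - e ≤
      CH (Pool.Agent.H49.Ent.cond F.p A True) F.T (slam F t) →
    CH (Pool.Agent.H49.Ent.cond F.p A True) hv (fun ω => (F.T ω, xb ω)) ≤ e →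
    CH (Pool.Agent.H49.Ent.cond F.p A True) Uf (fun ω => (⌊(2 : ℝ) ^ k * uo F c t gt r χ zt ω⌋,
      ((zt ω, F.W ω), hv ω))) ≤ cU - k * Real.log 2 + e →
    CH (Pool.Agent.H49.Ent.cond F.p A True) (fun ω => ⌊(2 : ℝ) ^ k * so F c t gt r χ R zt ω⌋)
      (fun ω => (Uf ω, (⌊(2 : ℝ) ^ k * uo F c t gt r χ zt ω⌋, ((zt ω, F.W ω), hv ω)))) ≤ e →
    RlH q (fun v => slam F t (pr v)) (fun v => ptr F J (pr v)) y (fun v => xb (pr v))
      (fun v => ((zt (pr v), F.W (pr v)), hv (rpt F A (pr v))))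
      (fun v => (zt (pr v), (slam F t (pr v)).2.2)) (fun v => ell (pr v)) (fun v => F.T (pr v))
      (fun v => Uf (pr v)) (fun v => ⌊(2 : ℝ) ^ k * rt F t (pr v)⌋)
      (fun v => ⌊(2 : ℝ) ^ k * uo F c t gt r χ zt (rpt F A (pr v))⌋)
      (fun v => ⌊(2 : ℝ) ^ k * so F c t gt r χ R zt (rpt F A (pr v))⌋)
      (fun v => rt F t (pr v)) (fun v => so F c t gt r χ R zt (rpt F A (pr v)))
      (fun a v => uS F c t gt r (χ a.1) (pr v)) (fun a v => cS F c t gt r (χ a.1) (R (pr v)) (pr v))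
      (D + 1) (2 ^ k) jj (C * Θ) (ε + 2 / 2 ^ k) (((J - t : ℕ) : ℝ) * Real.log 2) cU (e + C) c₁ := by
  classical
  obtain ⟨C₃, hC₃, hext⟩ := ext16 (D + 1)
  refine ⟨C₃ + 20, by linarith, ?_⟩
  intro m J F A c t k gt Zt X V zt xb ell Uf hv χ R Ω' Y _ q pr y K n jj Θ ε cU e c₁ hA htk hq hm
    hΘ hε he hPz hLz hex hxZ hyT hyz hyx hχ hR hu1 hbd hNP hcls hpar hdd kef keo keU kT2 kU1 kU2
    kfew
  have q0 := hq.nonneg
  obtain ⟨p, hp⟩ : ∃ p, p = Pool.Agent.H49.Ent.cond F.p A True := ⟨_, rfl⟩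
  rw [← hp] at hm kef keo kT2 kU1 kU2 kfew
  have hpl : IsLaw p := by rw [hp]; exact isLaw_cond F.isLaw hA
  have p0 := hpl.nonneg
  have hAp : ∀ ω, 0 < p ω → A ω := fun ω hω => by
    rw [hp] at hω
    exact of_eq_true ((cond_pos_iff F.isLaw.nonneg A True ω).1 hω).2
  have hpp : ∀ v, 0 < q v → 0 < p (pr v) := fun v hv => hm.pos q0 hv
  have hAv : ∀ v, 0 < q v → A (pr v) := fun v hv => hAp _ (hpp v hv)
  have htJ : t ≤ J := by omega
  have hdist : ∀ ω ω' : F.Ω, F.T ω = F.T ω' → (slam F t ω).2.2 = (slam F t ω').2.2 :=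
    fun ω ω' e => by
      show F.T ω / 2 ^ (J - t) = F.T ω' / 2 ^ (J - t)
      rw [e]
  have hrtT : ∀ ω ω' : F.Ω, F.T ω = F.T ω' → rt F t ω = rt F t ω' := fun ω ω' e => by
    unfold rt
    rw [e]
  have hWT : ∀ ω ω' : F.Ω, F.W ω = F.W ω' → F.T ω = F.T ω' ∧ F.Z ω = F.Z ω' := fun ω ω' e =>
    ⟨(Prod.ext_iff.1 e).1, (Prod.ext_iff.1 e).2⟩
  have hk0 : (0 : ℝ) < 2 ^ k := by positivity
  have hcast : ((2 ^ k : ℕ) : ℝ) = 2 ^ k := by push_cast; rfl
  -- logarithms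
  have l2 : Real.log 2 ≤ 1 := by
    have := Real.log_two_lt_d9
    linarith
  have l20 : 0 ≤ Real.log 2 := Real.log_nonneg (by norm_num)
  have l3 : Real.log 3 ≤ 2 := by
    have h1 : Real.log 3 ≤ Real.log 4 := Real.log_le_log (by norm_num) (by norm_num)
    have h2 : Real.log 4 = 2 * Real.log 2 := by
      rw [show (4 : ℝ) = 2 ^ 2 by norm_num, Real.log_pow]
      push_cast
      ring
    linarith
  have l9 : Real.log 9 ≤ 4 := by
    have h1 : Real.log 9 = 2 * Real.log 3 := by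
      rw [show (9 : ℝ) = 3 ^ 2 by norm_num, Real.log_pow]
      push_cast
      ring
    linarith
  have hlM : Real.log (2 * ((2 ^ k : ℕ) : ℝ) + 1) ≤ k * Real.log 2 + Real.log 3 := by
    rw [← Real.log_pow, ← Real.log_mul (by positivity) (by norm_num)]
    refine Real.log_le_log (by positivity) ?_
    push_cast
    have : (1 : ℝ) ≤ 2 ^ k := one_le_pow₀ one_le_two
    linarith
  -- the letters at the representative
  obtain ⟨U₀, hU₀⟩ : ∃ U₀ : F.Ω → ℤ, U₀ = fun ω => ⌊(2 : ℝ) ^ k * uo F c t gt r χ zt ω⌋ := ⟨_, rfl⟩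
  obtain ⟨S₀, hS₀⟩ : ∃ S₀ : F.Ω → ℤ, S₀ = fun ω => ⌊(2 : ℝ) ^ k * so F c t gt r χ R zt ω⌋ :=
    ⟨_, rfl⟩
  have hN1 : ∀ x z : ℝ, |x - z| ≤ 1 / 2 ^ k → |(⌊(2 : ℝ) ^ k * x⌋ : ℝ) - ⌊(2 : ℝ) ^ k * z⌋| ≤ 2 := by
    intro x z h
    have h1 : |(2 : ℝ) ^ k * x - 2 ^ k * z| ≤ 1 := by
      rw [← mul_sub, abs_mul, abs_of_pos hk0]
      calc (2 : ℝ) ^ k * |x - z| ≤ 2 ^ k * (1 / 2 ^ k) := mul_le_mul_of_nonneg_left h hk0.le
        _ = 1 := by field_simp
    refine (fl_near h1).trans (by norm_num)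
  have hrU : ∀ ω, A ω → |(U₀ ω : ℝ) - U₀ (rpt F A ω)| ≤ 2 := fun ω hω => by
    have h1 := rpt_of hω
    rw [hU₀]
    exact hN1 _ _ (hNP ω _ hω h1.1 h1.2.symm).1
  have hrS : ∀ ω, A ω → |(S₀ ω : ℝ) - S₀ (rpt F A ω)| ≤ 2 := fun ω hω => by
    have h1 := rpt_of hω
    rw [hS₀]
    exact hN1 _ _ (hNP ω _ hω h1.1 h1.2.symm).2.1
  have hrh : ∀ ω, A ω → ∀ l, |(hv ω l : ℝ) - hv (rpt F A ω) l| ≤ 2 := fun ω hω l => by
    have h1 := rpt_of hω
    exact (hNP ω _ hω h1.1 h1.2.symm).2.2 l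
  have cU0 : ∀ {T' : Type} (Z : F.Ω → T'), CH p U₀ (fun ω => (U₀ (rpt F A ω), Z ω)) ≤ 4 :=
    fun Z => by
      have h1 := ch_by (N := 2) hpl U₀ (fun ω => U₀ (rpt F A ω)) (fun ω hω => by
        push_cast
        exact hrU ω (hAp ω hω)) Z
      refine h1.trans ?_
      norm_num
      exact l9
  have cS1 : ∀ {T' : Type} (Z : F.Ω → T'), CH p (fun ω => S₀ (rpt F A ω))
      (fun ω => (S₀ ω, Z ω)) ≤ 4 := fun Z => by
    have h1 := ch_by (N := 2) hpl (fun ω => S₀ (rpt F A ω)) S₀ (fun ω hω => by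
      rw [abs_sub_comm]
      push_cast
      exact hrS ω (hAp ω hω)) Z
    refine h1.trans ?_
    norm_num
    exact l9
  have c2h : ∀ (a b : F.Ω → Fin 2 → ℤ), (∀ ω, A ω → ∀ l, |(a ω l : ℝ) - b ω l| ≤ 2) →
      ∀ {T' : Type} (Z : F.Ω → T'), CH p a (fun ω => (b ω, Z ω)) ≤ 8 := by
    intro a b hab T' Z
    have h1 := Pool.T4J.ch_near (d := 2) (K := 4) hpl a (fun ω => (b ω, Z ω))
      (fun ω ω' hω hω' e l => by
        have e1 : b ω = b ω' := (Prod.ext_iff.1 e).1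
        have k1 := hab ω (hAp ω hω) l
        have k2 := hab ω' (hAp ω' hω') l
        rw [e1] at k1
        have e2 : (a ω l : ℝ) - a ω' l = ((a ω l : ℝ) - b ω' l) - ((a ω' l : ℝ) - b ω' l) := by ring
        rw [e2]
        refine (abs_sub _ _).trans ?_
        push_cast
        linarith)
    refine h1.trans ?_
    push_cast
    norm_num
    linarith
  have hQ0 : ∀ {S : Type} (a : F.Ω → S) (Z : F.Ω → Fin 2 → ℤ) , CH p (fun ω => (a ω, (U₀ ω,
      ((zt ω, F.W ω), hv ω)))) (fun ω => (a ω, (U₀ (rpt F A ω), ((zt ω, F.W ω),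
        hv (rpt F A ω))))) ≤ 12 := by
    intro S a _
    have h1 := cU0 (fun ω => (a ω, ((zt ω, F.W ω), hv (rpt F A ω))))
    have h2 := c2h hv (fun ω => hv (rpt F A ω)) hrh (fun ω => (U₀ ω, (U₀ (rpt F A ω), (a ω,
      (zt ω, F.W ω)))))
    have h3 := CH_chain p0 hv U₀ (fun ω => (U₀ (rpt F A ω), (a ω, ((zt ω, F.W ω),
      hv (rpt F A ω)))))
    have h4 : CH p hv (fun ω => (U₀ ω, (U₀ (rpt F A ω), (a ω, ((zt ω, F.W ω),
        hv (rpt F A ω)))))) ≤ 8 := by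
      refine le_trans (CH_mono_cond p0 fun ω ω' _ _ h => ?_) h2
      simp only [Prod.mk.injEq] at h ⊢
      tauto
    have h5 : CH p (fun ω => (a ω, (U₀ ω, ((zt ω, F.W ω), hv ω)))) (fun ω => (a ω,
        (U₀ (rpt F A ω), ((zt ω, F.W ω), hv (rpt F A ω))))) ≤
        CH p (fun ω => (hv ω, U₀ ω)) (fun ω => (U₀ (rpt F A ω), (a ω, ((zt ω, F.W ω),
          hv (rpt F A ω))))) := by
      refine le_trans (CH_mono_left p0 (X' := fun ω => (hv ω, U₀ ω)) fun ω ω' _ _ h => ?_)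
        (CH_mono_cond p0 fun ω ω' _ _ h => ?_)
      · simp only [Prod.mk.injEq] at h ⊢
        tauto
      · simp only [Prod.mk.injEq] at h ⊢
        tauto
    linarith
  have hPUd : ∀ {S : Type} (g : F.Ω → S), Det q (fun v => ptr F J (pr v))
      (fun v => g (rpt F A (pr v))) := fun g v v' a b e => by
    have e' : ptr F J (pr v) = ptr F J (pr v') := e
    show g (rpt F A (pr v)) = g (rpt F A (pr v'))
    rw [rpt_eq (hAv v a) (hAv v' b) e']
  have hext' : ∀ (g : Polynomial ℝ), g.natDegree ≤ D + 1 → (∀ s ∈ Set.Icc (0 : ℝ) 1,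
      |g.eval s| ≤ Θ) → ∀ s : ℝ, |s| ≤ 2 → |g.eval s| ≤ (C₃ + 20) * Θ := fun g hg hb s hs => by
    have h1 := hext g Θ hg hb s (hs.trans (by norm_num))
    nlinarith
  have hc₁ : 0 ≤ c₁ := le_trans (Pool.BFL.Pb_nonneg (Pool.CLU.cpn_law hq y n) _) hdd
  have hΘ0 : 0 < Θ := by linarith
  have h2k : 0 ≤ 2 / (2 : ℝ) ^ k := by positivity
  refine ⟨hq, hyx, fun v v' a b e => Prod.ext (hyz v v' a b e) (hdist _ _ (hyT v v' a b e)), hyT,
    fun v v' a b e => hex _ _ (hAv v a) (hAv v' b) e,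
    fun v v' a b e => (hLz _ _ (hAv v a) (hAv v' b) e).2, fun v v' a b e => ?_,
    fun v v' _ _ e => ?_, fun v v' _ _ e => ?_, hPUd (fun ω => ⌊(2 : ℝ) ^ k *
      uo F c t gt r χ zt ω⌋), hPUd (so F c t gt r χ R zt), fun v v' a b e => ?_,
    fun v hv' => ?_, fun v _ => ?_, fun v _ => ?_, fun v _ => ?_, fun a v => ?_, fun v hv' s hs => ?_,
    ?_, fun v v' a b e1 e2 s hs => ?_, fun v v' a b e s hs => ?_, ?_, ?_, ?_, ?_, ?_, ?_, ?_, ?_,
    ?_, ?_⟩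
  · -- Lc
    have e' : slam F t (pr v) = slam F t (pr v') := e
    exact Prod.ext (hLz _ _ (hAv v a) (hAv v' b) e').1 (by rw [e'])
  · -- Qt
    have h1 := Prod.ext_iff.1 (Prod.ext_iff.1 e).1
    exact Prod.ext h1.1 (hdist _ _ (hWT _ _ h1.2).1)
  · -- Tτ
    have h1 : F.T (pr v) = F.T (pr v') := (Prod.ext_iff.1 e).1
    show ⌊(2 : ℝ) ^ k * rt F t (pr v)⌋ = ⌊(2 : ℝ) ^ k * rt F t (pr v')⌋
    rw [hrtT _ _ h1]
  · -- PQ
    have e' : ptr F J (pr v) = ptr F J (pr v') := e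
    refine Prod.ext (Prod.ext (hPz _ _ (hAv v a) (hAv v' b) e') (Prod.ext_iff.1 e').2) ?_
    exact hPUd hv v v' a b e
  · -- Ub
    have h1 := hu1 _ (rpt_of (hAv v hv')).1
    show |⌊(2 : ℝ) ^ k * uo F c t gt r χ zt (rpt F A (pr v))⌋| ≤ ((2 ^ k : ℕ) : ℤ)
    rw [abs_le] at h1 ⊢
    constructor
    · rw [Int.le_floor]
      push_cast
      nlinarith
    · have h2 : (⌊(2 : ℝ) ^ k * uo F c t gt r χ zt (rpt F A (pr v))⌋ : ℝ) ≤ 2 ^ k :=
        (Int.floor_le _).trans (by nlinarith)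
      exact_mod_cast h2
  · -- tb
    have h1 := rt_mem F t (pr v)
    show |⌊(2 : ℝ) ^ k * rt F t (pr v)⌋| ≤ ((2 ^ k : ℕ) : ℤ)
    rw [abs_le]
    constructor
    · rw [Int.le_floor]
      push_cast
      nlinarith [h1.1, h1.2]
    · have h2 : (⌊(2 : ℝ) ^ k * rt F t (pr v)⌋ : ℝ) ≤ 2 ^ k :=
        (Int.floor_le _).trans (by nlinarith [h1.1, h1.2])
      exact_mod_cast h2
  · -- pc
    rw [hcast]
    have h1 := Int.floor_le ((2 : ℝ) ^ k * so F c t gt r χ R zt (rpt F A (pr v)))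
    have h2 := Int.lt_floor_add_one ((2 : ℝ) ^ k * so F c t gt r χ R zt (rpt F A (pr v)))
    rw [abs_le]
    constructor <;> linarith
  · -- st
    have h1 := rt_mem F t (pr v)
    refine ⟨by rw [abs_of_nonneg h1.1]; exact h1.2, ?_⟩
    rw [hcast]
    have h2 := Int.floor_le ((2 : ℝ) ^ k * rt F t (pr v))
    have h3 := Int.lt_floor_add_one ((2 : ℝ) ^ k * rt F t (pr v))
    have e1 : rt F t (pr v) - (⌊(2 : ℝ) ^ k * rt F t (pr v)⌋ : ℝ) / 2 ^ k =
        (2 ^ k * rt F t (pr v) - ⌊(2 : ℝ) ^ k * rt F t (pr v)⌋) / 2 ^ k := by field_simp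
    rw [e1, abs_div, abs_of_pos hk0]
    refine div_le_div_of_nonneg_right ?_ hk0.le
    rw [abs_le]
    constructor <;> linarith
  · -- deg
    exact ⟨uS_deg F c t gt r (hχ _) _, cS_deg F c t gt r (hχ _) (hR _) _⟩
  · -- bd
    have h1 := hbd _ (hAv v hv')
    exact ⟨hext' _ (uS_deg F c t gt r (hχ _) _) (fun s hs => (h1 s hs).1) s hs,
      hext' _ (cS_deg F c t gt r (hχ _) (hR _) _) (fun s hs => (h1 s hs).2) s hs⟩
  · -- own
    have hz : Pb q (fun v => ¬ (|(uS F c t gt r (χ (zt (pr v))) (pr v)).eval (rt F t (pr v)) -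
        (⌊(2 : ℝ) ^ k * uo F c t gt r χ zt (rpt F A (pr v))⌋ : ℝ) / ((2 ^ k : ℕ) : ℝ)| ≤
          ε + 2 / 2 ^ k ∧ |(cS F c t gt r (χ (zt (pr v))) (R (pr v)) (pr v)).eval
            (rt F t (pr v)) - so F c t gt r χ R zt (rpt F A (pr v))| ≤ ε + 2 / 2 ^ k)) ≤
        Pb q (fun _ => False) := by
      refine Pool.STB.Pb_mono q0 ?_
      intro v hv' hn
      apply hn
      have hr := rpt_of (hAv v hv')
      have h1 := hNP _ _ (hAv v hv') hr.1 hr.2.symm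
      have h2k' : 2 / (2 : ℝ) ^ k = 1 / 2 ^ k + 1 / 2 ^ k := by ring
      constructor
      · rw [hcast]
        have h2 := Int.floor_le ((2 : ℝ) ^ k * uo F c t gt r χ zt (rpt F A (pr v)))
        have h3 := Int.lt_floor_add_one ((2 : ℝ) ^ k * uo F c t gt r χ zt (rpt F A (pr v)))
        have h4 : |uo F c t gt r χ zt (rpt F A (pr v)) -
            (⌊(2 : ℝ) ^ k * uo F c t gt r χ zt (rpt F A (pr v))⌋ : ℝ) / 2 ^ k| ≤ 1 / 2 ^ k := by
          have e1 : uo F c t gt r χ zt (rpt F A (pr v)) -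
              (⌊(2 : ℝ) ^ k * uo F c t gt r χ zt (rpt F A (pr v))⌋ : ℝ) / 2 ^ k =
              (2 ^ k * uo F c t gt r χ zt (rpt F A (pr v)) -
                ⌊(2 : ℝ) ^ k * uo F c t gt r χ zt (rpt F A (pr v))⌋) / 2 ^ k := by field_simp
          rw [e1, abs_div, abs_of_pos hk0]
          refine div_le_div_of_nonneg_right ?_ hk0.le
          rw [abs_le]
          constructor <;> linarith
        have h5 := h1.1
        show |uo F c t gt r χ zt (pr v) -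
          (⌊(2 : ℝ) ^ k * uo F c t gt r χ zt (rpt F A (pr v))⌋ : ℝ) / 2 ^ k| ≤ _
        rw [abs_le] at h4 h5 ⊢
        constructor <;> linarith
      · have h5 := h1.2.1
        show |so F c t gt r χ R zt (pr v) - so F c t gt r χ R zt (rpt F A (pr v))| ≤ _
        have h6 : 0 < 1 / (2 : ℝ) ^ k := by positivity
        linarith
    refine hz.trans (le_trans (le_of_eq ?_) hc₁)
    unfold Pb
    simp
  · -- cls
    have h1 := hcls _ _ (hAv v a) (hAv v' b) e1 (Prod.ext_iff.1 e2).1 (Prod.ext_iff.1 e2).2 s hs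
    exact ⟨h1.1.trans (by linarith), h1.2.trans (by linarith)⟩
  · -- par
    have h1 := hpar _ _ (hAv v a) (hAv v' b) (hyx v v' a b e) (hyz v v' a b e)
      (hdist _ _ (hyT v v' a b e)) s hs
    exact h1.trans (by linarith)
  · -- dd
    refine le_trans (Pool.STB.Pb_mono (Pool.CLU.cpn_law hq y n).nonneg ?_) hdd
    intro w _ hn h
    apply hn
    refine ⟨fun i l hil => le_trans ?_ (h.1 i l hil), h.2.trans (by linarith)⟩
    exact one_div_le_one_div_of_le hΘ0 (by nlinarith)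
  · -- ef
    have h1 := hm.CH ell xb
    rw [h1]
    linarith
  · -- eo
    have h1 : CH q (fun v => Uf (pr v)) (fun v => (ell (pr v), y v)) ≤
        CH q (fun v => Uf (pr v)) (fun v => (ell (pr v), F.T (pr v))) :=
      CH_mono_cond q0 fun v v' a b h => Prod.ext (Prod.ext_iff.1 h).1
        (hyT v v' a b (Prod.ext_iff.1 h).2)
    have h2 := hm.CH Uf (fun ω => (ell ω, F.T ω))
    rw [h2] at h1
    linarith
  · -- eU
    linarith
  · -- T1
    have h1 := hm.CH F.T (fun ω => (xb ω, (zt ω, (slam F t ω).2.2)))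
    rw [h1]
    have h2 := ch_time hpl (t := t) (fun ω => (xb ω, (zt ω, (slam F t ω).2.2)))
      (fun ω ω' _ _ h => (Prod.ext_iff.1 (Prod.ext_iff.1 h).2).2)
    linarith
  · -- T2
    have h1 := hm.CH F.T (slam F t)
    rw [h1]
    linarith
  · -- T3
    have h1 := hm.CH F.T (fun ω => (⌊(2 : ℝ) ^ k * rt F t ω⌋, slam F t ω))
    rw [h1]
    have h2 := ch_timek hpl htk (fun ω => (⌊(2 : ℝ) ^ k * rt F t ω⌋, slam F t ω))
      (fun ω ω' _ _ h => ⟨congrArg (fun s => s.2.2) (Prod.ext_iff.1 h).2, (Prod.ext_iff.1 h).1⟩)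
    linarith
  · -- U1
    have h1 : CH q (fun v => ((zt (pr v), F.W (pr v)), hv (rpt F A (pr v)))) y ≤
        CH q (fun v => ((zt (pr v), F.W (pr v)), hv (rpt F A (pr v))))
          (fun v => (zt (pr v), (F.T (pr v), xb (pr v)))) :=
      CH_mono_cond q0 fun v v' a b h => Prod.ext (hyz v v' a b h) (Prod.ext (hyT v v' a b h)
        (hyx v v' a b h))
    have h2 := hm.CH (fun ω => ((zt ω, F.W ω), hv (rpt F A ω))) (fun ω => (zt ω, (F.T ω, xb ω)))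
    rw [h2] at h1
    have h3 : CH p (fun ω => ((zt ω, F.W ω), hv (rpt F A ω))) (fun ω => (zt ω, (F.T ω, xb ω))) ≤
        CH p (fun ω => hv (rpt F A ω)) (fun ω => (zt ω, (F.T ω, xb ω))) :=
      CH_mono_left p0 fun ω ω' a b h => by
        have k1 := Prod.ext_iff.1 h
        have k2 := Prod.ext_iff.1 k1.2
        have k3 := Prod.ext_iff.1 k2.2
        exact Prod.ext (Prod.ext k2.1 (Prod.ext k3.1 (hxZ _ _ (hAp ω a) (hAp ω' b) k3.2))) k1.1
    have h4 : CH p hv (fun ω => (zt ω, (F.T ω, xb ω))) ≤ e :=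
      le_trans (CH_mono_cond p0 fun ω ω' _ _ h => (Prod.ext_iff.1 h).2) kU1
    have h5 := CH_le_add p0 (fun ω => hv (rpt F A ω)) hv (fun ω => (zt ω, (F.T ω, xb ω)))
    have h6 := c2h (fun ω => hv (rpt F A ω)) hv (fun ω hω l => by
      rw [abs_sub_comm]
      exact hrh ω hω l) (fun ω => (zt ω, (F.T ω, xb ω)))
    linarith
  · -- U2
    have h1 := hm.CH Uf (fun ω => (U₀ (rpt F A ω), ((zt ω, F.W ω), hv (rpt F A ω))))
    have h2 := hQ0 (fun _ => ()) hv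
    have h3 : CH p Uf (fun ω => ((), (U₀ ω, ((zt ω, F.W ω), hv ω)))) ≤
        cU - k * Real.log 2 + e := by
      refine le_trans (CH_mono_cond p0 fun ω ω' _ _ h => (Prod.ext_iff.1 h).2) ?_
      rw [hU₀]
      exact kU2
    have h4 := ch_cond hpl Uf _ _ h3 h2
    have h5 : CH p Uf (fun ω => (U₀ (rpt F A ω), ((zt ω, F.W ω), hv (rpt F A ω)))) ≤
        CH p Uf (fun ω => ((), (U₀ (rpt F A ω), ((zt ω, F.W ω), hv (rpt F A ω))))) :=
      CH_mono_cond p0 fun ω ω' _ _ h => Prod.ext rfl h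
    rw [hU₀] at h1
    refine h1.le.trans ?_
    rw [hU₀] at h4 h5
    linarith
  · -- few
    have h1 := hm.CH (fun ω => S₀ (rpt F A ω)) (fun ω => (Uf ω, (U₀ (rpt F A ω),
      ((zt ω, F.W ω), hv (rpt F A ω)))))
    have h2 := hQ0 Uf hv
    have h3 : CH p S₀ (fun ω => (Uf ω, (U₀ ω, ((zt ω, F.W ω), hv ω)))) ≤ e := by
      rw [hU₀, hS₀]
      exact kfew
    have h4 := ch_cond hpl S₀ _ _ h3 h2
    have h5 := CH_le_add p0 (fun ω => S₀ (rpt F A ω)) S₀ (fun ω => (Uf ω, (U₀ (rpt F A ω),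
      ((zt ω, F.W ω), hv (rpt F A ω)))))
    have h6 := cS1 (fun ω => (Uf ω, (U₀ (rpt F A ω), ((zt ω, F.W ω), hv (rpt F A ω)))))
    rw [hU₀, hS₀] at h1
    refine h1.le.trans ?_
    rw [hU₀, hS₀] at h4 h5 h6
    linarith

end Pool.NA3
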