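import Pool.Agent.H80.CLO.Nds
import Pool.Agent.H23.D2.Nat

/-!
# The divided difference with perturbed heights

`dd_pert`: the divided difference with perturbed heights and values. `pol_lip`: a polynomial of one variable on
the unit ball. `num_of`: the numbers of the passage to the data in real form.
-/

set_option autoImplicit false

namespace Pool.NA3

open Finset Real
open Pool.Agent.H49.Ent Pool.Agent.H32.Dense Pool.STK
open Pool.BFL (Pb)
open Pool.K2S (cpn)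
open Pool.CLU (cpn_law cpn_pos)
open Pool.NDD66 (mu Lam mu_le)
open Pool.CLO80 (newton prod_near hd)

/-! ### The divided difference -/

/-- **The divided difference with perturbed heights and values.** -/
theorem dd_pert {K : ℕ} {h h' y y' : Fin (K + 2) → ℝ} {σ H B ε ε' : ℝ} (hσ : 0 < σ) (hσH : σ ≤ H)
    (hB : 0 ≤ B) (hε : 0 ≤ ε) (hs : ∀ i j, i ≠ j → σ ≤ |h i - h j|)
    (hs' : ∀ i j, i ≠ j → σ ≤ |h' i - h' j|) (hH : ∀ i j, |h i - h j| ≤ H)
    (hH' : ∀ i j, |h' i - h' j| ≤ H) (hh : ∀ i j, |(h i - h j) - (h' i - h' j)| ≤ ε)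
    (hy : ∀ i, |y i| ≤ B) (hyy : ∀ i, |y i - y' i| ≤ ε') :
    |∑ i, mu h' i * y' i| ≤ |∑ i, mu h i * y i| +
      ((K + 2) * ((H / σ) ^ (K + 1) * ε') +
        (K + 1) * (B * (K * (2 * H * ε / σ ^ 2) * (H / σ) ^ K))) := by
  classical
  have hH0 : 0 < H := lt_of_lt_of_le hσ hσH
  have inj : ∀ g : Fin (K + 2) → ℝ, (∀ i j, i ≠ j → σ ≤ |g i - g j|) → Function.Injective g := by
    intro g hg i j e
    by_contra hij
    have := hg i j hij
    rw [e, sub_self, abs_zero] at this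
    linarith
  -- the values
  have h1 : |∑ i, mu h' i * y' i - ∑ i, mu h' i * y i| ≤ (K + 2) * ((H / σ) ^ (K + 1) * ε') := by
    rw [← Finset.sum_sub_distrib]
    refine (Finset.abs_sum_le_sum_abs _ _).trans ?_
    refine (Finset.sum_le_card_nsmul _ _ ((H / σ) ^ (K + 1) * ε') fun i _ => ?_).trans
      (le_of_eq ?_)
    · rw [← mul_sub, abs_mul]
      refine mul_le_mul (mu_le hσ hs' hH' i) ?_ (abs_nonneg _) (by positivity)
      rw [abs_sub_comm]
      exact hyy i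
    · rw [Finset.card_univ, Fintype.card_fin, nsmul_eq_mul]
      push_cast
      ring
  -- the weights
  have h2 : |∑ i, mu h' i * y i - ∑ i, mu h i * y i| ≤
      (K + 1) * (B * (K * (2 * H * ε / σ ^ 2) * (H / σ) ^ K)) := by
    rw [newton (inj h hs), newton (inj h' hs')]
    have e1 : y 0 - ∑ i : Fin (K + 1), y i.succ * ∏ j ∈ univ.erase i,
          ((h' i.succ - h' j.succ)⁻¹ * (h' 0 - h' j.succ)) -
        (y 0 - ∑ i : Fin (K + 1), y i.succ * ∏ j ∈ univ.erase i,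
          ((h i.succ - h j.succ)⁻¹ * (h 0 - h j.succ))) =
        ∑ i : Fin (K + 1), y i.succ * (∏ j ∈ univ.erase i,
          ((h i.succ - h j.succ)⁻¹ * (h 0 - h j.succ)) - ∏ j ∈ univ.erase i,
          ((h' i.succ - h' j.succ)⁻¹ * (h' 0 - h' j.succ))) := by
      simp only [mul_sub, Finset.sum_sub_distrib]
      ring
    rw [e1]
    refine (Finset.abs_sum_le_sum_abs _ _).trans ?_
    refine (Finset.sum_le_card_nsmul _ _ (B * (K * (2 * H * ε / σ ^ 2) * (H / σ) ^ K))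
      fun i _ => ?_).trans (le_of_eq ?_)
    · rw [abs_mul]
      refine mul_le_mul (hy _) ?_ (abs_nonneg _) hB
      have hfac : ∀ g : Fin (K + 2) → ℝ, (∀ i j, i ≠ j → σ ≤ |g i - g j|) →
          (∀ i j, |g i - g j| ≤ H) → ∀ j ∈ univ.erase i,
          |(g i.succ - g j.succ)⁻¹ * (g 0 - g j.succ)| ≤ H / σ := by
        intro g hg hgH j hj
        have h3 := hg i.succ j.succ
          fun e => (Finset.ne_of_mem_erase hj) (Fin.succ_injective _ e).symm
        rw [abs_mul, abs_inv, inv_mul_eq_div]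
        exact div_le_div₀ hH0.le (hgH _ _) hσ h3
      have h3 := prod_near (univ.erase i)
        (f := fun j => (h i.succ - h j.succ)⁻¹ * (h 0 - h j.succ))
        (g := fun j => (h' i.succ - h' j.succ)⁻¹ * (h' 0 - h' j.succ))
        (H := H / σ) (ε := 2 * H * ε / σ ^ 2) (by rw [le_div_iff₀ hσ]; linarith) (by positivity)
        (hfac h hs hH) (hfac h' hs' hH') (fun j hj => ?_)
      · rw [Finset.card_erase_of_mem (Finset.mem_univ _), Finset.card_univ, Fintype.card_fin,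
          Nat.add_sub_cancel] at h3
        exact h3
      · have hij : i.succ ≠ j.succ := fun e =>
          (Finset.ne_of_mem_erase hj) (Fin.succ_injective _ e).symm
        have a1 := hs i.succ j.succ hij
        have a2 := hs' i.succ j.succ hij
        obtain ⟨a, ha⟩ : ∃ a, a = h i.succ - h j.succ := ⟨_, rfl⟩
        obtain ⟨a', ha'⟩ : ∃ a', a' = h' i.succ - h' j.succ := ⟨_, rfl⟩
        obtain ⟨b, hb⟩ : ∃ b, b = h 0 - h j.succ := ⟨_, rfl⟩
        obtain ⟨b', hb'⟩ : ∃ b', b' = h' 0 - h' j.succ := ⟨_, rfl⟩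
        have k1 : |a - a'| ≤ ε := by rw [ha, ha']; exact hh _ _
        have k2 : |b - b'| ≤ ε := by rw [hb, hb']; exact hh _ _
        have k3 : |b'| ≤ H := by rw [hb']; exact hH' _ _
        have k4 : |a'| ≤ H := by rw [ha']; exact hH' _ _
        show |(h i.succ - h j.succ)⁻¹ * (h 0 - h j.succ) -
          (h' i.succ - h' j.succ)⁻¹ * (h' 0 - h' j.succ)| ≤ _
        rw [← ha] at a1
        rw [← ha'] at a2
        rw [← ha, ← ha', ← hb, ← hb']
        have p1 : 0 < |a| := lt_of_lt_of_le hσ a1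
        have p2 : 0 < |a'| := lt_of_lt_of_le hσ a2
        have n1 : a ≠ 0 := abs_pos.1 p1
        have n2 : a' ≠ 0 := abs_pos.1 p2
        have e2 : a⁻¹ * b - a'⁻¹ * b' = ((b - b') * a' - b' * (a - a')) / (a * a') := by
          field_simp
          ring
        rw [e2, abs_div, abs_mul a a']
        refine div_le_div₀ (by positivity) ?_ (by positivity) ?_
        · refine (abs_sub _ _).trans ?_
          rw [abs_mul, abs_mul]
          have q1 : |b - b'| * |a'| ≤ ε * H := mul_le_mul k2 k4 (abs_nonneg _) hε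
          have q2 : |b'| * |a - a'| ≤ H * ε := mul_le_mul k3 k1 (abs_nonneg _) hH0.le
          linarith
        · rw [sq]
          exact mul_le_mul a1 a2 hσ.le p1.le
    · rw [Finset.card_univ, Fintype.card_fin, nsmul_eq_mul]
      push_cast
      ring
  have e3 : ∑ i, mu h' i * y' i = (∑ i, mu h' i * y' i - ∑ i, mu h' i * y i) +
      ((∑ i, mu h' i * y i - ∑ i, mu h i * y i) + ∑ i, mu h i * y i) := by ring
  rw [e3]
  have h4 := abs_add_le (∑ i, mu h' i * y' i - ∑ i, mu h' i * y i)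
    ((∑ i, mu h' i * y i - ∑ i, mu h i * y i) + ∑ i, mu h i * y i)
  have h5 := abs_add_le (∑ i, mu h' i * y i - ∑ i, mu h i * y i) (∑ i, mu h i * y i)
  linarith

/-- A polynomial of one variable on the unit ball. -/
theorem pol_lip (D : ℕ) : ∃ C : ℝ, 1 ≤ C ∧ ∀ (q : Polynomial ℝ) (S : ℝ), q.natDegree ≤ D →
    (∀ s : ℝ, |s| ≤ 2 → |q.eval s| ≤ S) → ∀ x y : ℝ, |x| ≤ 1 → |y| ≤ 1 →
      |q.eval x - q.eval y| ≤ C * S * |x - y| := by
  obtain ⟨C, hC, h⟩ := Pool.D2R.der_one D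
  refine ⟨C, hC, ?_⟩
  intro q S hq hS x y hx hy
  have h1 := Convex.norm_image_sub_le_of_norm_hasDerivWithin_le (f := fun s => q.eval s)
    (f' := fun s => q.derivative.eval s) (C := C * S) (s := Set.Icc (-1 : ℝ) 1) (x := y) (y := x)
    (fun s _ => (q.hasDerivAt s).hasDerivWithinAt) (fun s hs => by
      rw [Real.norm_eq_abs]
      exact h q S hq (fun t ht => hS t (abs_le.2 ⟨by linarith [ht.1], by linarith [ht.2]⟩)) s
        (abs_le.2 hs)) (convex_Icc _ _) (abs_le.1 hy) (abs_le.1 hx)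
  rw [Real.norm_eq_abs, Real.norm_eq_abs] at h1
  exact h1

theorem hd_at {α : Type} {K n : ℕ} (jj : Fin (K + 1) → Fin n) (f : Fin (n + 1) → α)
    (i : Fin (K + 2)) : hd jj f i = f (hd jj id i) := by
  unfold hd
  refine Fin.cases ?_ (fun k => ?_) i
  · rw [Fin.cons_zero, Fin.cons_zero]
    rfl
  · rw [Fin.cons_succ, Fin.cons_succ]
    rfl

/-- **The numbers** of the passage. -/
theorem num_of {K : ℕ} {C₁ Θ ε M' : ℝ} (hC₁ : 1 ≤ C₁) (hΘ : 1 ≤ Θ) (hε : 0 ≤ ε) (hM : 0 ≤ M') :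
    ε + ((K + 2) * ((4 * Θ / (1 / (2 * Θ))) ^ (K + 1) * (ε + C₁ * Θ * M')) +
      (K + 1) * (Θ * (K * (2 * (4 * Θ) * (4 * ε) / (1 / (2 * Θ)) ^ 2) *
        (4 * Θ / (1 / (2 * Θ))) ^ K))) ≤
      (1 + (K + 2) * 8 ^ (K + 1) * (1 + C₁) + (K + 1) * K * 128 * 8 ^ K) * Θ ^ (2 * K + 4) *
        (ε + M') := by
  have hΘ0 : 0 < Θ := by linarith
  have e1 : 4 * Θ / (1 / (2 * Θ)) = 8 * Θ ^ 2 := by field_simp; ring
  have e2 : 2 * (4 * Θ) * (4 * ε) / (1 / (2 * Θ)) ^ 2 = 128 * Θ ^ 3 * ε := by field_simp; ring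
  rw [e1, e2]
  have p1 : (1 : ℝ) ≤ Θ ^ (2 * K + 4) := one_le_pow₀ hΘ
  have a1 : ε ≤ 1 * Θ ^ (2 * K + 4) * (ε + M') := by
    have : ε ≤ Θ ^ (2 * K + 4) * ε := le_mul_of_one_le_left hε p1
    nlinarith [mul_nonneg (by linarith : (0 : ℝ) ≤ Θ ^ (2 * K + 4)) hM]
  have a2 : (K + 2 : ℝ) * ((8 * Θ ^ 2) ^ (K + 1) * (ε + C₁ * Θ * M')) ≤
      (K + 2) * 8 ^ (K + 1) * (1 + C₁) * Θ ^ (2 * K + 4) * (ε + M') := by
    have b1 : ε + C₁ * Θ * M' ≤ (1 + C₁) * (Θ * (ε + M')) := by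
      have c1 : ε ≤ Θ * ε := le_mul_of_one_le_left hε hΘ
      have c2 : 0 ≤ C₁ * (Θ * ε) := by positivity
      have c3 : 0 ≤ Θ * M' := by positivity
      nlinarith
    have b2 : (8 * Θ ^ 2) ^ (K + 1) = 8 ^ (K + 1) * Θ ^ (2 * K + 2) := by
      rw [mul_pow, ← pow_mul]
      ring_nf
    have b3 : Θ ^ (2 * K + 2) * Θ ≤ Θ ^ (2 * K + 4) := by
      rw [← pow_succ]
      exact pow_le_pow_right₀ hΘ (by omega)
    have b4 : 0 ≤ ε + M' := by linarith
    calc (K + 2 : ℝ) * ((8 * Θ ^ 2) ^ (K + 1) * (ε + C₁ * Θ * M')) ≤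
        (K + 2) * ((8 ^ (K + 1) * Θ ^ (2 * K + 2)) * ((1 + C₁) * (Θ * (ε + M')))) := by
          rw [b2]
          gcongr
      _ = (K + 2) * 8 ^ (K + 1) * (1 + C₁) * (Θ ^ (2 * K + 2) * Θ) * (ε + M') := by ring
      _ ≤ _ := by gcongr
  have a3 : (K + 1 : ℝ) * (Θ * (K * (128 * Θ ^ 3 * ε) * (8 * Θ ^ 2) ^ K)) ≤
      (K + 1) * K * 128 * 8 ^ K * Θ ^ (2 * K + 4) * (ε + M') := by
    have b2 : (8 * Θ ^ 2) ^ K = 8 ^ K * Θ ^ (2 * K) := by
      rw [mul_pow, ← pow_mul]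
    rw [b2]
    have b4 : ε ≤ ε + M' := by linarith
    calc (K + 1 : ℝ) * (Θ * (K * (128 * Θ ^ 3 * ε) * (8 ^ K * Θ ^ (2 * K)))) =
        (K + 1) * K * 128 * 8 ^ K * Θ ^ (2 * K + 4) * ε := by ring
      _ ≤ _ := by gcongr
  nlinarith

end Pool.NA3
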