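import Pool.Agent.H3.NA9.Geo
import Pool.Agent.H3.NA9.Prt
import Pool.Agent.H64.AO.Pol

/-!
# The divided difference over the charts of a shorter window

`pt_box`: a polynomial on a natural box at two near points. `mu_smul`: the weights do not depend on the unit.
`dd_chg`: samples of near lines at one time, the divided difference of the slopes of their labels over the charts
`ψ` gives the one over the charts `χ`.
-/

set_option autoImplicit false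

namespace Pool.NA3

open Finset Real MvPolynomial
open Pool.Agent.H49.Ent Pool.Agent.H32.Dense Pool.STK Pool.KA Pool.KSAT Pool.K2S Pool.PB Pool.S6C
open Pool.GEN Pool.CHT Pool.D2R
open Pool.NDD66 (nbx_lipt nbx_der hgt_chg ul ul_deg ul_eval)
open Pool.PB.Trl (rt rt_mem t_rt)
open Pool.TT37 (pj pj_scale)

variable {m J : ℕ}

/-- **A polynomial on the natural box at two near points** with the same time. -/
theorem pt_box (D r : ℕ) : ∃ C : ℕ, 1 ≤ C ∧ ∀ {m : ℕ} {c : ℕ → Fin m}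
    {t k q B : ℕ} {gw gt : ℕ → ℕ} {χ ψ : ℕ → MvPolynomial (Option (Fin m)) ℝ}
    {Q : MvPolynomial (Option (Fin m)) ℝ} {M t₀ : ℝ} {b b' : Option (Fin m) → ℝ},
    Set.InjOn c (Set.Iio (r + 1)) → (∀ l ≤ r, gt l ≤ gw l + q) →
    (∀ l, (χ l).totalDegree ≤ D) → (∀ l, DepC c l (χ l)) →
    (∀ l, (ψ l).totalDegree ≤ D) → (∀ l, DepC c l (ψ l)) →
    Q.totalDegree ≤ D → DepC c (r + 1) Q → 0 ≤ M →
    (∀ l ≤ r, ∃ κ : ℝ, ∀ b, NBx c χ gt t t₀ l b →
      |eval b (χ l) - eval b (ψ l) - κ| ≤ 2 ^ k / 2 ^ gw l) →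
    (∀ b, NBx c χ gt t t₀ (r + 1) b → |eval b Q| ≤ M) →
    b none = t₀ → b' none = t₀ →
    (∀ l ≤ r, |b (some (c l)) - eval b (χ l)| ≤ 2 ^ k / 2 ^ gt l) →
    (∀ l ≤ r, |(b' (some (c l)) - eval b' (ψ l)) - (b (some (c l)) - eval b (ψ l))| ≤
      1 / 2 ^ (gw l + B)) →
    (r + 1) * (q + C * (k + 1)) ≤ B →
    |eval b' Q - eval b Q| ≤ 2 ^ (C * (k + 1) + (r + 1) * (q + C * (k + 1))) * M / 2 ^ B := by
  obtain ⟨C₁, hC₁, hchg⟩ := hgt_chg D r
  obtain ⟨c₀, D₁, hD₁, hlip⟩ := nbx_lipt (r + 2) (fun _ => D)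
  refine ⟨C₁ + c₀ + D₁, by omega, ?_⟩
  obtain ⟨C, hC⟩ : ∃ C : ℕ, C = C₁ + c₀ + D₁ := ⟨_, rfl⟩
  rw [← hC]
  intro m c t k q B gw gt χ ψ Q M t₀ b b' hc hg hχ hχd hψ hψd hQ hQd hM hcmp hbox hb hb' hown
    hnear hB
  have hk1 : ∀ n : ℕ, n ≤ n * (k + 1) := fun n => Nat.le_mul_of_pos_right _ (Nat.succ_pos k)
  have hC₁C : C₁ * (k + 1) ≤ C * (k + 1) := Nat.mul_le_mul_right _ (by omega)
  obtain ⟨ρ, hρ⟩ : ∃ ρ : ℝ, ρ = 1 / 2 ^ B := ⟨_, rfl⟩
  have hρ0 : 0 < ρ := by rw [hρ]; positivity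
  have hρ1 : 2 ^ ((r + 1) * (q + C₁ * (k + 1))) * ρ ≤ 1 := by
    rw [hρ, mul_one_div, div_le_one (by positivity)]
    refine pow_le_pow_right₀ (by norm_num) (le_trans (Nat.mul_le_mul_left _ ?_) hB)
    omega
  have hzero : |b' none - t₀| ≤ ρ / 2 ^ t := by
    rw [hb', sub_self, abs_zero]
    positivity
  have k1 := hchg (c := c) (t := t) (k := k) (q := q) (gw := gw) (gt := gt) (χ := χ) (ψ := ψ)
    (t₀ := t₀) (ρ := ρ) (b := b) (b' := b') hc hg hχ hχd hψ hψd hcmp hb hzero hown hρ0 hρ1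
    (fun l hl => by
      refine (hnear l hl).trans (le_of_eq ?_)
      rw [hρ, pow_add]
      field_simp)
  obtain ⟨ρ', hρ'⟩ : ∃ ρ' : ℝ, ρ' = 2 ^ ((r + 1) * (q + C₁ * (k + 1))) * ρ := ⟨_, rfl⟩
  have hρ'0 : 0 < ρ' := by rw [hρ']; positivity
  have hρρ : ρ ≤ ρ' := by
    rw [hρ']
    exact le_mul_of_one_le_left hρ0.le (one_le_pow₀ (by norm_num))
  rw [← hρ'] at hρ1
  have k2 := hlip (c := c) (i := r + 1) (G := χ) (Q := Q) (g := gt) (a := t) (t := t₀)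
    (M := M) (ρ := ρ') k (by omega) hc hχ hχd hQd hQ hM hρ'0 hρ1 hbox b b' hb
    (hzero.trans (div_le_div_of_nonneg_right hρρ (by positivity)))
    (fun l hl => hown l (by omega)) (fun l hl => (k1 l (by omega)).trans
      (div_le_div_of_nonneg_right (by
        rw [hρ']
        exact mul_le_mul_of_nonneg_right (pow_le_pow_right₀ (by norm_num)
          (Nat.mul_le_mul_right _ (by omega))) hρ0.le) (by positivity)))
  refine k2.trans ?_
  have e1 : (2 : ℝ) ^ (C * (k + 1) + (r + 1) * (q + C * (k + 1))) * M / 2 ^ B =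
      2 ^ (C * (k + 1) + (r + 1) * (q + C * (k + 1))) * (M * ρ) := by
    rw [hρ]
    ring
  have e2 : (2 : ℝ) ^ (c₀ + k * D₁) * M * ρ' =
      2 ^ (c₀ + k * D₁) * 2 ^ ((r + 1) * (q + C₁ * (k + 1))) * (M * ρ) := by
    rw [hρ']
    ring
  rw [e1, e2, ← pow_add]
  refine mul_le_mul_of_nonneg_right ?_ (mul_nonneg hM hρ0.le)
  refine pow_le_pow_right₀ (by norm_num) (Nat.add_le_add ?_ ?_)
  · rw [hC]
    nlinarith [Nat.zero_le (C₁ * k), Nat.zero_le (c₀ * k), Nat.zero_le (D₁ * k)]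
  · exact Nat.mul_le_mul_left _ (by omega)

/-- The weights do not depend on the unit. -/
theorem mu_smul {K : ℕ} {a : ℝ} (ha : a ≠ 0) (h : Fin (K + 2) → ℝ) (i : Fin (K + 2)) :
    Pool.NDD66.mu (fun i => a * h i) i = Pool.NDD66.mu h i := by
  unfold Pool.NDD66.mu
  have h1 : ∀ j, pj (fun i => a * h i) j = a ^ (Fintype.card (Fin (K + 2)) - 1) * pj h j := by
    intro j
    rw [pj_scale (fun i => a * h i) j ha]
    congr 2
    funext k
    field_simp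
  rw [h1, h1, mul_div_mul_left _ _ (pow_ne_zero _ ha)]

/-- **The divided difference over the charts of a shorter window.** -/
theorem dd_chg (K D r : ℕ) (hDK : D ≤ K) : ∃ C : ℕ, 1 ≤ C ∧ ∀ {m J : ℕ} {F : Fam m J}
    {c : ℕ → Fin m} {t k q B : ℕ} {gw gt : ℕ → ℕ} {χ ψ : ℕ → MvPolynomial (Option (Fin m)) ℝ}
    {R : Fin (K + 2) → MvPolynomial (Option (Fin m)) ℝ} {ν : Fin (K + 2) → F.Ω}
    {h : Fin (K + 2) → ℝ} {Θ ε E : ℝ},
    Set.InjOn c (Set.Iio (r + 2)) → (∀ l ≤ r + 2, gt l ≤ gw l + q) →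
    (∀ l, (χ l).totalDegree ≤ D) → (∀ l, DepC c l (χ l)) →
    (∀ l, (ψ l).totalDegree ≤ D) → (∀ l, DepC c l (ψ l)) →
    (∀ l ≤ r + 2, ∃ κ : ℝ, ∀ b, NBx c χ gt t (F.t (ν 0)) l b →
      |eval b (χ l) - eval b (ψ l) - κ| ≤ 2 ^ k / 2 ^ gw l) →
    (∀ i, ∀ l ≤ r + 1, |F.x (ν i) (c l) - eval (bt F (ν i)) (χ l)| ≤ 2 ^ k / 2 ^ gt l) →
    (∀ i, F.T (ν i) = F.T (ν 0)) →
    (∀ i, ∀ l ≤ r, |(F.x (ν i) (c l) - eval (bt F (ν i)) (ψ l)) -
      (F.x (ν 0) (c l) - eval (bt F (ν 0)) (ψ l))| ≤ 1 / 2 ^ (gw l + B)) →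
    (∀ i, |(F.x (ν i) (c (r + 1)) - eval (bt F (ν i)) (ψ (r + 1))) -
      (F.x (ν 0) (c (r + 1)) - eval (bt F (ν 0)) (ψ (r + 1))) - (h i - h 0)| ≤
        1 / 2 ^ (gw (r + 1) + B)) →
    (r + 2) * (q + C * (k + 1)) ≤ B → 1 ≤ Θ →
    (∀ i j, i ≠ j → 1 / Θ ≤ 2 ^ gt (r + 1) * |h i - h j|) →
    (∀ i j, 2 ^ gt (r + 1) * |h i - h j| ≤ Θ) →
    (∀ i, 2 ^ gt (r + 2) / 2 ^ gt (r + 1) * |eval (bt F (ν i))
      (pderiv (some (c (r + 1))) (R i - χ (r + 2)))| ≤ Θ) →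
    |∑ i, Pool.NDD66.mu h i * eval (bt F (ν i)) (pderiv (some (c (r + 1))) (R i - ψ (r + 2)))| ≤
      ε →
    E = 2 ^ (C * (k + 1) + (r + 3) * (q + C * (k + 1))) / 2 ^ B → C * Θ ^ C * E ≤ 1 →
    (∀ i j, i ≠ j → 1 / (2 * Θ) ≤
      |2 ^ gt (r + 1) * (F.x (ν i) (c (r + 1)) - eval (bt F (ν i)) (χ (r + 1))) -
        2 ^ gt (r + 1) * (F.x (ν j) (c (r + 1)) - eval (bt F (ν j)) (χ (r + 1)))|) ∧
    |∑ i, Pool.NDD66.mu (fun i => 2 ^ gt (r + 1) *
        (F.x (ν i) (c (r + 1)) - eval (bt F (ν i)) (χ (r + 1)))) i *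
      (2 ^ gt (r + 2) / 2 ^ gt (r + 1) * eval (bt F (ν i))
        (pderiv (some (c (r + 1))) (R i - χ (r + 2))))| ≤
      2 ^ gt (r + 2) / 2 ^ gt (r + 1) * ε + C * Θ ^ C * E := by
  classical
  obtain ⟨C₁, hC₁, hbx1⟩ := pt_box D r
  obtain ⟨C₂, hC₂, hbx2⟩ := pt_box D (r + 1)
  obtain ⟨C₄, hder⟩ := nbx_der D (r + 1)
  obtain ⟨Cn, hCn⟩ : ∃ Cn : ℕ, Cn = (K + 2) * 4 ^ (K + 1) + (K + 1) * K * 64 * 4 ^ K + 4 :=
    ⟨_, rfl⟩
  obtain ⟨C, hC⟩ : ∃ C : ℕ, C = C₁ + C₂ + C₄ + Cn + 2 * K + 8 := ⟨_, rfl⟩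
  refine ⟨C, by omega, ?_⟩
  intro m J F c t k q B gw gt χ ψ R ν h Θ ε E hc hg hχ hχd hψ hψd hcmp hpos hT hnV hnu hB hΘ hsep
    hH hcb hdd hE hEs
  have hk1 : ∀ n : ℕ, n ≤ n * (k + 1) := fun n => Nat.le_mul_of_pos_right _ (Nat.succ_pos k)
  have hCk : C * (k + 1) = C₁ * (k + 1) + C₂ * (k + 1) + C₄ * (k + 1) + Cn * (k + 1) +
      2 * K * (k + 1) + 8 * (k + 1) := by
    rw [hC]
    ring
  have h4k := hk1 C₄
  obtain ⟨En, hEn⟩ : ∃ En : ℕ, En = C * (k + 1) + (r + 3) * (q + C * (k + 1)) := ⟨_, rfl⟩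
  rw [← hEn] at hE
  have hEc : (r + 3) * (q + C * (k + 1)) = (r + 1) * (q + C * (k + 1)) +
      (q + C * (k + 1)) + (q + C * (k + 1)) := by ring
  have hE2c : (r + 2) * (q + C * (k + 1)) = (r + 1) * (q + C * (k + 1)) +
      (q + C * (k + 1)) := by ring
  have hm1 : (r + 1) * (q + C₁ * (k + 1)) ≤ (r + 1) * (q + C * (k + 1)) :=
    Nat.mul_le_mul_left _ (by omega)
  have hm2 : (r + 1 + 1) * (q + C₂ * (k + 1)) ≤ (r + 2) * (q + C * (k + 1)) :=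
    Nat.mul_le_mul_left _ (by omega)
  have hΘ0 : 0 < Θ := by linarith
  have hE0 : 0 < E := by rw [hE]; positivity
  have pw1 : (1 : ℝ) ≤ Θ ^ C := one_le_pow₀ hΘ
  have pwΘ : Θ ≤ Θ ^ C := by
    calc Θ = Θ ^ 1 := (pow_one _).symm
      _ ≤ Θ ^ C := pow_le_pow_right₀ hΘ (by omega)
  have hCr : (8 : ℝ) ≤ C := by
    have : (8 : ℕ) ≤ C := by omega
    exact_mod_cast this
  have hsm : 8 * (Θ * E) ≤ 1 := by
    refine le_trans ?_ hEs
    rw [← mul_assoc]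
    exact mul_le_mul_of_nonneg_right (mul_le_mul hCr pwΘ hΘ0.le (by positivity)) hE0.le
  have hE8 : 8 * E ≤ 1 := by nlinarith
  have hgq : ∀ l ≤ r + 2, (2 : ℝ) ^ gt l / 2 ^ gw l ≤ 2 ^ q := fun l hl => by
    rw [div_le_iff₀ (by positivity), ← pow_add]
    exact pow_le_pow_right₀ (by norm_num) (by have := hg l hl; omega)
  have ht : ∀ i, F.t (ν i) = F.t (ν 0) := fun i => by
    unfold Fam.t
    rw [hT i]
  have hbn : ∀ i, bt F (ν i) none = F.t (ν 0) := fun i => by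
    show F.t (ν i) = _
    exact ht i
  have hsubN : ∀ (l : ℕ) (b₁ : Option (Fin m) → ℝ), NBx c χ gt (t + 1) (F.t (ν 0)) l b₁ →
      NBx c χ gt t (F.t (ν 0)) l b₁ := fun l b₁ h1 =>
    ⟨h1.1.trans (one_div_le_one_div_of_le (by positivity)
      (pow_le_pow_right₀ (by norm_num) (by omega))), h1.2⟩
  -- the heights over `χ`
  obtain ⟨κ₁, hκ₁⟩ := hcmp (r + 1) (by omega)
  obtain ⟨X, hX⟩ : ∃ X : Fin (K + 2) → ℝ, X = fun i => 2 ^ gt (r + 1) *
    (F.x (ν i) (c (r + 1)) - eval (bt F (ν i)) (χ (r + 1))) := ⟨_, rfl⟩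
  have hX0 : ∀ i, |(X i - X 0) - 2 ^ gt (r + 1) * (h i - h 0)| ≤ E := by
    intro i
    have h1 := hbx1 (c := c) (t := t) (k := k) (q := q) (B := B) (gw := gw) (gt := gt)
      (χ := χ) (ψ := ψ) (Q := χ (r + 1) - ψ (r + 1) - MvPolynomial.C κ₁)
      (M := 2 ^ k / 2 ^ gw (r + 1)) (t₀ := F.t (ν 0)) (b := bt F (ν 0)) (b' := bt F (ν i))
      (hc.mono fun x hx => by rw [Set.mem_Iio] at hx ⊢; omega)
      (fun l hl => hg l (by omega)) hχ hχd hψ hψd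
      ((totalDegree_sub _ _).trans (max_le ((totalDegree_sub _ _).trans (max_le (hχ _) (hψ _)))
        (by rw [totalDegree_C]; exact Nat.zero_le _)))
      (fun y y' h1 h2 => by
        rw [map_sub, map_sub, map_sub, map_sub, hχd _ y y' h1 h2, hψd _ y y' h1 h2, eval_C,
          eval_C]) (by positivity) (fun l hl => hcmp l (by omega))
      (fun b hb => by
        rw [map_sub, map_sub, eval_C]
        exact hκ₁ b hb) (hbn 0) (hbn i) (fun l hl => hpos 0 l (by omega)) (hnV i) (by omega)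
    rw [map_sub, map_sub, map_sub, map_sub, eval_C, eval_C] at h1
    have h2 := hnu i
    rw [hX]
    obtain ⟨x', hx'⟩ : ∃ x', x' = F.x (ν i) (c (r + 1)) := ⟨_, rfl⟩
    obtain ⟨x, hx⟩ : ∃ x, x = F.x (ν 0) (c (r + 1)) := ⟨_, rfl⟩
    obtain ⟨a', ha'⟩ : ∃ a', a' = eval (bt F (ν i)) (χ (r + 1)) := ⟨_, rfl⟩
    obtain ⟨a, ha⟩ : ∃ a, a = eval (bt F (ν 0)) (χ (r + 1)) := ⟨_, rfl⟩
    obtain ⟨b', hb'⟩ : ∃ b', b' = eval (bt F (ν i)) (ψ (r + 1)) := ⟨_, rfl⟩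
    obtain ⟨b, hb⟩ : ∃ b, b = eval (bt F (ν 0)) (ψ (r + 1)) := ⟨_, rfl⟩
    show |(2 ^ gt (r + 1) * (F.x (ν i) (c (r + 1)) - eval (bt F (ν i)) (χ (r + 1))) -
      2 ^ gt (r + 1) * (F.x (ν 0) (c (r + 1)) - eval (bt F (ν 0)) (χ (r + 1)))) -
        2 ^ gt (r + 1) * (h i - h 0)| ≤ E
    rw [← ha', ← ha, ← hb', ← hb] at h1
    rw [← hx', ← hx, ← hb', ← hb] at h2
    rw [← hx', ← hx, ← ha', ← ha]
    have e1 : (2 ^ gt (r + 1) * (x' - a') - 2 ^ gt (r + 1) * (x - a)) -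
        2 ^ gt (r + 1) * (h i - h 0) = 2 ^ gt (r + 1) * ((x' - b' - (x - b) - (h i - h 0)) -
        (a' - b' - κ₁ - (a - b - κ₁))) := by ring
    rw [e1, abs_mul, abs_of_pos (show (0 : ℝ) < 2 ^ gt (r + 1) by positivity)]
    have h3 := (abs_sub (x' - b' - (x - b) - (h i - h 0)) (a' - b' - κ₁ - (a - b - κ₁))).trans
      (add_le_add h2 h1)
    refine (mul_le_mul_of_nonneg_left h3 (by positivity)).trans ?_
    obtain ⟨n₁, hn₁⟩ : ∃ n₁ : ℕ, n₁ = C₁ * (k + 1) + (r + 1) * (q + C₁ * (k + 1)) := ⟨_, rfl⟩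
    rw [← hn₁]
    have hq1 := hgq (r + 1) (by omega)
    have e2 : (2 : ℝ) ^ gt (r + 1) * (1 / 2 ^ (gw (r + 1) + B) +
        2 ^ n₁ * (2 ^ k / 2 ^ gw (r + 1)) / 2 ^ B) =
        (2 ^ gt (r + 1) / 2 ^ gw (r + 1)) * (1 + 2 ^ n₁ * 2 ^ k) / 2 ^ B := by
      rw [pow_add]
      field_simp
    rw [e2, hE]
    refine div_le_div_of_nonneg_right ?_ (by positivity)
    have h4 : (1 : ℝ) ≤ 2 ^ (n₁ + k) := one_le_pow₀ (by norm_num)
    calc (2 : ℝ) ^ gt (r + 1) / 2 ^ gw (r + 1) * (1 + 2 ^ n₁ * 2 ^ k) ≤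
        2 ^ q * (2 ^ (n₁ + k) + 2 ^ (n₁ + k)) := by
          rw [← pow_add]
          gcongr
      _ = 2 ^ (q + (n₁ + k) + 1) := by
          rw [pow_succ, pow_add]
          ring
      _ ≤ 2 ^ En := pow_le_pow_right₀ (by norm_num) (by omega)
  have hXX : ∀ i j, |(X i - X j) - 2 ^ gt (r + 1) * (h i - h j)| ≤ 2 * E := by
    intro i j
    have h1 := hX0 i
    have h2 := hX0 j
    have e1 : (X i - X j) - 2 ^ gt (r + 1) * (h i - h j) =
        ((X i - X 0) - 2 ^ gt (r + 1) * (h i - h 0)) -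
        ((X j - X 0) - 2 ^ gt (r + 1) * (h j - h 0)) := by ring
    rw [e1]
    refine (abs_sub _ _).trans ?_
    linarith
  have hgpos : (0 : ℝ) < 2 ^ gt (r + 1) := by positivity
  have habs : ∀ i j, |2 ^ gt (r + 1) * (h i - h j)| = 2 ^ gt (r + 1) * |h i - h j| := fun i j => by
    rw [abs_mul, abs_of_pos hgpos]
  have hinv : 1 / (2 * Θ) = 1 / Θ / 2 := by field_simp
  have hinv0 : 0 < 1 / Θ := by positivity
  have h2E : 2 * E ≤ 1 / Θ / 2 := by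
    rw [div_div, le_div_iff₀ (by positivity)]
    nlinarith
  have hXsep : ∀ i j, i ≠ j → 1 / (2 * Θ) ≤ |X i - X j| := by
    intro i j hij
    have h1 := hsep i j hij
    have h2 := hXX i j
    rw [← habs] at h1
    have h3 : |2 ^ gt (r + 1) * (h i - h j)| ≤ |X i - X j| +
        |(X i - X j) - 2 ^ gt (r + 1) * (h i - h j)| := by
      have := abs_sub (X i - X j) ((X i - X j) - 2 ^ gt (r + 1) * (h i - h j))
      rwa [sub_sub_cancel] at this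
    rw [hinv]
    linarith
  have hXH : ∀ i j, |X i - X j| ≤ 2 * Θ := by
    intro i j
    have h1 := hH i j
    have h2 := hXX i j
    rw [← habs] at h1
    have h3 := abs_add_le ((X i - X j) - 2 ^ gt (r + 1) * (h i - h j))
      (2 ^ gt (r + 1) * (h i - h j))
    rw [sub_add_cancel] at h3
    linarith
  -- the slopes
  obtain ⟨s, hs⟩ : ∃ s : ℝ, s = 2 ^ gt (r + 2) / 2 ^ gt (r + 1) := ⟨_, rfl⟩
  have hs0 : 0 < s := by rw [hs]; positivity
  obtain ⟨κ₂, hκ₂⟩ := hcmp (r + 2) le_rfl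
  obtain ⟨Q, hQ⟩ : ∃ Q, Q = pderiv (some (c (r + 1))) (χ (r + 2) - ψ (r + 2) -
    MvPolynomial.C κ₂) := ⟨_, rfl⟩
  have hdep2 : DepC c (r + 2) (χ (r + 2) - ψ (r + 2) - MvPolynomial.C κ₂) := fun y y' h1 h2 => by
    rw [map_sub, map_sub, map_sub, map_sub, hχd _ y y' h1 h2, hψd _ y y' h1 h2, eval_C, eval_C]
  have hdeg2 : (χ (r + 2) - ψ (r + 2) - MvPolynomial.C κ₂).totalDegree ≤ D :=
    (totalDegree_sub _ _).trans (max_le ((totalDegree_sub _ _).trans (max_le (hχ _) (hψ _)))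
      (by rw [totalDegree_C]; exact Nat.zero_le _))
  have hQd : Q.totalDegree ≤ D := by
    rw [hQ]
    exact totalDegree_pdσ hdeg2 _
  have hbQ := hder (c := c) (g := gt) (a := t) (t := F.t (ν 0)) (M := 2 ^ k / 2 ^ gw (r + 2))
    (χ := χ) (Q := χ (r + 2) - ψ (r + 2) - MvPolynomial.C κ₂) hc hχ hχd hdep2 hdeg2
    (by positivity) (fun b hb => by
      rw [map_sub, map_sub, eval_C]
      exact hκ₂ b hb)
  rw [← hQ] at hbQ
  obtain ⟨b', hb'⟩ : ∃ b' : Fin (K + 2) → Option (Fin m) → ℝ, b' = fun i =>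
    Function.update (bt F (ν 0)) (some (c (r + 1))) (bt F (ν 0) (some (c (r + 1))) +
      (h i - h 0)) := ⟨_, rfl⟩
  have hb'n : ∀ i, b' i none = bt F (ν 0) none := fun i => by
    rw [hb']
    exact Function.update_of_ne (by simp) _ _
  have hb'l : ∀ i, ∀ l ≤ r, b' i (some (c l)) = bt F (ν 0) (some (c l)) := fun i l hl => by
    rw [hb']
    refine Function.update_of_ne (fun e => ?_) _ _
    have h1 := hc (show l ∈ Set.Iio (r + 2) by rw [Set.mem_Iio]; omega)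
      (show r + 1 ∈ Set.Iio (r + 2) by rw [Set.mem_Iio]; omega) (Option.some_injective _ e)
    omega
  have hb'r : ∀ i, b' i (some (c (r + 1))) = bt F (ν 0) (some (c (r + 1))) + (h i - h 0) :=
    fun i => by
      rw [hb']
      exact Function.update_self _ _ _
  have hb'ψ : ∀ i, ∀ l ≤ r + 1, eval (b' i) (ψ l) = eval (bt F (ν 0)) (ψ l) := fun i l hl =>
    hψd l _ _ (hb'n i) fun j hj => hb'l i j (by omega)
  have hQQ : ∀ i, s * |eval (b' i) Q - eval (bt F (ν i)) Q| ≤ E := by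
    intro i
    have h1 := hbx2 (c := c) (t := t + 1) (k := k) (q := q) (B := B) (gw := gw) (gt := gt)
      (χ := χ) (ψ := ψ) (Q := Q) (M := 2 ^ C₄ * (2 ^ k / 2 ^ gw (r + 2)) * 2 ^ gt (r + 1))
      (t₀ := F.t (ν 0)) (b := bt F (ν i)) (b' := b' i) hc (fun l hl => hg l (by omega)) hχ hχd
      hψ hψd hQd (by
        rw [hQ]
        exact depC_pderiv hdep2 _) (by positivity)
      (fun l hl => by
        obtain ⟨κ, hκ⟩ := hcmp l (by omega)
        exact ⟨κ, fun b₁ hb₁ => hκ b₁ (hsubN l b₁ hb₁)⟩) hbQ (hbn i)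
      ((hb'n i).trans (hbn 0)) (hpos i) (fun l hl => by
        rw [hb'ψ i l hl]
        rcases Nat.lt_or_ge l (r + 1) with h1 | h1
        · rw [hb'l i l (by omega), abs_sub_comm]
          exact hnV i l (by omega)
        · have h2 : l = r + 1 := by omega
          rw [h2, hb'r]
          have h3 := hnu i
          rw [abs_sub_comm]
          refine le_trans (le_of_eq ?_) h3
          congr 1
          show F.x (ν i) (c (r + 1)) - eval (bt F (ν i)) (ψ (r + 1)) -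
            (F.x (ν 0) (c (r + 1)) + (h i - h 0) - eval (bt F (ν 0)) (ψ (r + 1))) = _
          ring) (by omega)
    obtain ⟨n₂, hn₂⟩ : ∃ n₂ : ℕ, n₂ = C₂ * (k + 1) + (r + 1 + 1) * (q + C₂ * (k + 1)) :=
      ⟨_, rfl⟩
    rw [← hn₂] at h1
    refine (mul_le_mul_of_nonneg_left h1 hs0.le).trans ?_
    have hq1 := hgq (r + 2) le_rfl
    have e2 : s * (2 ^ n₂ * (2 ^ C₄ * (2 ^ k / 2 ^ gw (r + 2)) * 2 ^ gt (r + 1)) / 2 ^ B) =
        (2 ^ gt (r + 2) / 2 ^ gw (r + 2)) * (2 ^ n₂ * 2 ^ C₄ * 2 ^ k) / 2 ^ B := by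
      rw [hs]
      field_simp
    rw [e2, hE]
    refine div_le_div_of_nonneg_right ?_ (by positivity)
    calc (2 : ℝ) ^ gt (r + 2) / 2 ^ gw (r + 2) * (2 ^ n₂ * 2 ^ C₄ * 2 ^ k) ≤
        2 ^ q * (2 ^ n₂ * 2 ^ C₄ * 2 ^ k) := by gcongr
      _ = 2 ^ (q + (n₂ + C₄ + k)) := by
          rw [pow_add, pow_add, pow_add]
      _ ≤ 2 ^ En := pow_le_pow_right₀ (by norm_num) (by omega)
  -- the values
  obtain ⟨y, hy⟩ : ∃ y : Fin (K + 2) → ℝ, y = fun i => eval (bt F (ν i))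
    (pderiv (some (c (r + 1))) (R i - ψ (r + 2))) := ⟨_, rfl⟩
  obtain ⟨z, hz⟩ : ∃ z : Fin (K + 2) → ℝ, z = fun i => s * eval (bt F (ν i))
    (pderiv (some (c (r + 1))) (R i - χ (r + 2))) := ⟨_, rfl⟩
  obtain ⟨z', hz'⟩ : ∃ z' : Fin (K + 2) → ℝ, z' = fun i => s * y i - s * eval (b' i) Q :=
    ⟨_, rfl⟩
  have hzv : ∀ i, z i = s * y i - s * eval (bt F (ν i)) Q := fun i => by
    rw [hz, hy, hQ]
    show s * eval (bt F (ν i)) (pderiv (some (c (r + 1))) (R i - χ (r + 2))) = _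
    simp only [map_sub, pderiv_C, map_zero]
    ring
  have hzz : ∀ i, |z' i - z i| ≤ E := fun i => by
    rw [hzv, hz']
    have e1 : s * y i - s * eval (b' i) Q - (s * y i - s * eval (bt F (ν i)) Q) =
        -(s * (eval (b' i) Q - eval (bt F (ν i)) Q)) := by ring
    show |s * y i - s * eval (b' i) Q - (s * y i - s * eval (bt F (ν i)) Q)| ≤ E
    rw [e1, abs_neg, abs_mul, abs_of_pos hs0]
    exact hQQ i
  have hinj : Function.Injective h := fun i j e => by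
    by_contra hij
    have := hsep i j hij
    rw [e, sub_self, abs_zero, mul_zero] at this
    linarith
  have hzero : ∑ i, Pool.NDD66.mu h i * eval (b' i) Q = 0 := by
    obtain ⟨p, hp⟩ : ∃ p : Polynomial ℝ, p = (ul (bt F (ν 0)) (some (c (r + 1))) Q).comp
      (Polynomial.X - Polynomial.C (h 0)) := ⟨_, rfl⟩
    have hpe : ∀ i, p.eval (h i) = eval (b' i) Q := fun i => by
      rw [hp, Polynomial.eval_comp, Polynomial.eval_sub, Polynomial.eval_X, Polynomial.eval_C,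
        ul_eval, hb']
    have hpd : p.natDegree ≤ K := by
      rw [hp]
      refine Polynomial.natDegree_comp_le.trans ?_
      rw [Polynomial.natDegree_X_sub_C, mul_one]
      exact (ul_deg _ _ hQd).trans hDK
    have h1 := Pool.AO64.dd_zero hpd h hinj
    simp only [hpe] at h1
    exact h1
  have hsum : |∑ i, Pool.NDD66.mu h i * z' i| ≤ s * ε := by
    have e1 : ∑ i, Pool.NDD66.mu h i * z' i = s * ∑ i, Pool.NDD66.mu h i * y i -
        s * ∑ i, Pool.NDD66.mu h i * eval (b' i) Q := by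
      rw [hz', Finset.mul_sum, Finset.mul_sum, ← Finset.sum_sub_distrib]
      refine Finset.sum_congr rfl fun i _ => ?_
      ring
    rw [e1, hzero, mul_zero, sub_zero, abs_mul, abs_of_pos hs0]
    refine mul_le_mul_of_nonneg_left ?_ hs0.le
    rw [hy]
    exact hdd
  have hzb : ∀ i, |z' i| ≤ 2 * Θ := fun i => by
    have h1 := hcb i
    have h2 := hzz i
    have h3 : |z i| ≤ Θ := by
      rw [hz]
      show |s * _| ≤ Θ
      rw [abs_mul, abs_of_pos hs0, hs]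
      exact h1
    have h4 := abs_add_le (z' i - z i) (z i)
    rw [sub_add_cancel] at h4
    linarith
  have hfin := dd_pert (h := fun i => 2 ^ gt (r + 1) * h i) (h' := X) (y := z') (y' := z)
    (σ := 1 / (2 * Θ)) (H := 2 * Θ) (B := 2 * Θ) (ε := 2 * E) (ε' := E) (by positivity)
    (by
      rw [hinv]
      have : 1 / Θ ≤ 1 := by rw [div_le_one hΘ0]; exact hΘ
      linarith) (by positivity) (by positivity)
    (fun i j hij => by
      have h1 := hsep i j hij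
      rw [← habs] at h1
      rw [hinv, ← mul_sub]
      linarith) hXsep (fun i j => by
      have h1 := hH i j
      rw [← habs] at h1
      rw [← mul_sub]
      linarith) hXH (fun i j => by
      rw [← mul_sub, abs_sub_comm]
      exact hXX i j) hzb hzz
  have hmu : ∑ i, Pool.NDD66.mu (fun i => 2 ^ gt (r + 1) * h i) i * z' i =
      ∑ i, Pool.NDD66.mu h i * z' i :=
    Finset.sum_congr rfl fun i _ => by rw [mu_smul hgpos.ne']
  rw [hmu] at hfin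
  refine ⟨fun i j hij => ?_, ?_⟩
  · have h1 := hXsep i j hij
    rw [hX] at h1
    exact h1
  · have e1 : 2 * Θ / (1 / (2 * Θ)) = 4 * Θ ^ 2 := by field_simp; ring
    have e2 : 2 * (2 * Θ) * (2 * E) / (1 / (2 * Θ)) ^ 2 = 32 * Θ ^ 3 * E := by field_simp; ring
    rw [e1, e2] at hfin
    rw [← hs]
    rw [hX, hz] at hfin
    refine hfin.trans ?_
    have hCnr : ((K : ℝ) + 2) * 4 ^ (K + 1) + (K + 1) * K * 64 * 4 ^ K ≤ C := by
      have h1 : (K + 2) * 4 ^ (K + 1) + (K + 1) * K * 64 * 4 ^ K ≤ C := by omega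
      exact_mod_cast h1
    have b1 : (4 * Θ ^ 2) ^ (K + 1) = 4 ^ (K + 1) * Θ ^ (2 * K + 2) := by
      rw [mul_pow, ← pow_mul]
      ring_nf
    have b2 : (4 * Θ ^ 2) ^ K = 4 ^ K * Θ ^ (2 * K) := by
      rw [mul_pow, ← pow_mul]
    have p1 : Θ ^ (2 * K + 2) ≤ Θ ^ C := pow_le_pow_right₀ hΘ (by omega)
    have p2 : Θ ^ (2 * K + 4) ≤ Θ ^ C := pow_le_pow_right₀ hΘ (by omega)
    have a1 : ((K : ℝ) + 2) * ((4 * Θ ^ 2) ^ (K + 1) * E) ≤
        (K + 2) * 4 ^ (K + 1) * (Θ ^ C * E) := by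
      rw [b1]
      calc ((K : ℝ) + 2) * (4 ^ (K + 1) * Θ ^ (2 * K + 2) * E) =
          (K + 2) * 4 ^ (K + 1) * (Θ ^ (2 * K + 2) * E) := by ring
        _ ≤ _ := by gcongr
    have a2 : ((K : ℝ) + 1) * (2 * Θ * (K * (32 * Θ ^ 3 * E) * (4 * Θ ^ 2) ^ K)) ≤
        (K + 1) * K * 64 * 4 ^ K * (Θ ^ C * E) := by
      rw [b2]
      calc ((K : ℝ) + 1) * (2 * Θ * (K * (32 * Θ ^ 3 * E) * (4 ^ K * Θ ^ (2 * K)))) =
          (K + 1) * K * 64 * 4 ^ K * (Θ ^ (2 * K + 4) * E) := by ring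
        _ ≤ _ := by gcongr
    have a3 : (((K : ℝ) + 2) * 4 ^ (K + 1) + (K + 1) * K * 64 * 4 ^ K) * (Θ ^ C * E) ≤
        C * (Θ ^ C * E) := mul_le_mul_of_nonneg_right hCnr (by positivity)
    have a4 : (C : ℝ) * Θ ^ C * E = C * (Θ ^ C * E) := by ring
    rw [a4]
    nlinarith

end Pool.NA3
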