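import Pool.Agent.H66.NDD.Rlq

/-!
# The paths of two near lines over two systems of charts

`ext16`, `ext_qu`: a polynomial of one variable on a larger interval. `lc_fine`: the paths in the relative
time of a shorter window. `pth_u`: the difference of the own paths of the coordinate `c (r + 1)` along two lines
near in the coordinates `c l`, `l ≤ r`, is the same over the charts `χ` of a shorter window and over the charts
`ψ` of the window. `pth_c`: the same for the derivative of the chart of `c (r + 2)` in the direction of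
`c (r + 1)`.
-/

set_option autoImplicit false

namespace Pool.NA3

open Finset Real MvPolynomial
open Pool.Agent.H49.Ent Pool.Agent.H32.Dense Pool.STK Pool.KA Pool.KSAT Pool.K2S Pool.PB Pool.S6C
open Pool.GEN Pool.CHT Pool.D2R Pool.NDD66
open Pool.PB.Trl (rt rt_mem t_rt)

variable {m J : ℕ}

/-! ### One variable -/

/-- A polynomial bounded on the unit interval. -/
theorem ext16 (K : ℕ) : ∃ C : ℝ, 1 ≤ C ∧ ∀ (q : Polynomial ℝ) (S : ℝ), q.natDegree ≤ K →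
    (∀ t ∈ Set.Icc (0 : ℝ) 1, |q.eval t| ≤ S) → ∀ x : ℝ, |x| ≤ 16 → |q.eval x| ≤ C * S := by
  obtain ⟨C, hC, h⟩ := Pool.Agent.H40.FR.unit_coef K
  obtain ⟨A, hA⟩ : ∃ A : ℝ, A = ∑ j ∈ range (K + 1), (16 : ℝ) ^ j := ⟨_, rfl⟩
  have hA1 : 1 ≤ A := by
    rw [hA, Finset.sum_range_succ']
    have h0 : (0 : ℝ) ≤ ∑ j ∈ range K, (16 : ℝ) ^ (j + 1) :=
      Finset.sum_nonneg fun j _ => by positivity
    rw [pow_zero]
    linarith
  refine ⟨C * A, by nlinarith, ?_⟩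
  intro q S hq hS x hx
  have hS0 : 0 ≤ S := (abs_nonneg _).trans (hS 0 ⟨le_rfl, by norm_num⟩)
  have h1 := h q S hq hS
  rw [Polynomial.eval_eq_sum_range' (Nat.lt_succ_of_le hq)]
  refine (Finset.abs_sum_le_sum_abs _ _).trans ?_
  calc ∑ j ∈ range (K + 1), |q.coeff j * x ^ j| ≤ ∑ j ∈ range (K + 1), C * S * 16 ^ j := by
        refine Finset.sum_le_sum fun j _ => ?_
        rw [abs_mul, abs_pow]
        exact mul_le_mul (h1 j) (pow_le_pow_left₀ (abs_nonneg _) hx _) (by positivity)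
          (by positivity)
    _ = C * A * S := by
        rw [← Finset.mul_sum, ← hA]
        ring

/-- A polynomial bounded near a point of the unit interval. -/
theorem ext_qu (K : ℕ) : ∃ C : ℝ, 1 ≤ C ∧ ∀ (q : Polynomial ℝ) (S x₀ : ℝ), q.natDegree ≤ K →
    x₀ ∈ Set.Icc (0 : ℝ) 1 → (∀ t ∈ Set.Icc (0 : ℝ) 1, |t - x₀| ≤ 1 / 4 → |q.eval t| ≤ S) →
    ∀ x : ℝ, |x| ≤ 2 → |q.eval x| ≤ C * S := by
  obtain ⟨C, hC, h⟩ := ext16 K
  refine ⟨C, hC, ?_⟩
  intro q S x₀ hq hx₀ hS x hx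
  obtain ⟨d, hd, hd0, hd1⟩ : ∃ d : ℝ, (d = 1 / 4 ∨ d = -(1 / 4)) ∧ 0 ≤ x₀ + d ∧ x₀ + d ≤ 1 := by
    rcases le_total x₀ (1 / 2) with h1 | h1
    · exact ⟨1 / 4, Or.inl rfl, by linarith [hx₀.1], by linarith⟩
    · exact ⟨-(1 / 4), Or.inr rfl, by linarith, by linarith [hx₀.2]⟩
  have hda : |d| = 1 / 4 := by
    rcases hd with h1 | h1 <;> rw [h1]
    · rw [abs_of_pos (by norm_num)]
    · rw [abs_neg, abs_of_pos (by norm_num)]
  have hdne : d ≠ 0 := by
    intro h1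
    rw [h1, abs_zero] at hda
    norm_num at hda
  obtain ⟨p, hp⟩ : ∃ p : Polynomial ℝ, p = q.comp (Polynomial.C x₀ +
    Polynomial.C d * Polynomial.X) := ⟨_, rfl⟩
  have hpe : ∀ y, p.eval y = q.eval (x₀ + d * y) := fun y => by
    rw [hp, Polynomial.eval_comp]
    simp only [Polynomial.eval_add, Polynomial.eval_mul, Polynomial.eval_C, Polynomial.eval_X]
  have hpd : p.natDegree ≤ K := by
    rw [hp]
    refine Polynomial.natDegree_comp_le.trans ?_
    have h1 : (Polynomial.C x₀ + Polynomial.C d * Polynomial.X : Polynomial ℝ).natDegree ≤ 1 := by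
      refine (Polynomial.natDegree_add_le _ _).trans (max_le ?_ ?_)
      · rw [Polynomial.natDegree_C]
        exact Nat.zero_le _
      · exact (Polynomial.natDegree_C_mul_le _ _).trans Polynomial.natDegree_X_le
    calc q.natDegree * _ ≤ K * 1 := Nat.mul_le_mul hq h1
      _ = K := mul_one K
  have h2 := h p S hpd (fun y hy => by
    rw [hpe]
    refine hS _ ⟨?_, ?_⟩ ?_
    · rcases hd with h1 | h1
      · rw [h1]
        have := hx₀.1
        have := hy.1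
        positivity
      · rw [h1] at hd0 ⊢
        nlinarith [hy.2]
    · rcases hd with h1 | h1
      · rw [h1] at hd1 ⊢
        nlinarith [hy.2]
      · rw [h1]
        nlinarith [hx₀.2, hy.1]
    · rw [add_sub_cancel_left, abs_mul, hda, abs_of_nonneg hy.1]
      linarith [hy.2]) ((x - x₀) / d) (by
    rw [abs_div, hda]
    have h3 : |x - x₀| ≤ 3 := by
      refine (abs_sub _ _).trans ?_
      rw [abs_of_nonneg hx₀.1]
      linarith [hx₀.2]
    linarith)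
  rw [hpe, mul_div_cancel₀ _ hdne, add_sub_cancel] at h2
  exact h2

/-! ### The relative times -/

/-- The position of the relative time of a shorter window. -/
noncomputable def stm (w t n : ℕ) (s : ℝ) : ℝ := (((n % 2 ^ (t - w) : ℕ) : ℝ) + s) / 2 ^ (t - w)

theorem stm_mem (w t n : ℕ) {s : ℝ} (hs : s ∈ Set.Icc (0 : ℝ) 1) :
    stm w t n s ∈ Set.Icc (0 : ℝ) 1 := by
  have hq : (0 : ℝ) < 2 ^ (t - w) := by positivity
  have h4 := Nat.mod_lt n (show 0 < 2 ^ (t - w) by positivity)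
  have h4' : ((n % 2 ^ (t - w) : ℕ) : ℝ) + 1 ≤ 2 ^ (t - w) := by exact_mod_cast h4
  have h5 : (0 : ℝ) ≤ ((n % 2 ^ (t - w) : ℕ) : ℝ) := Nat.cast_nonneg _
  unfold stm
  exact ⟨by
    have := hs.1
    positivity, by
    rw [div_le_one hq]
    linarith [hs.2]⟩

/-- **The paths in the relative time of a shorter window.** -/
theorem lc_fine (F : Fam m J) {w t : ℕ} (hw : w ≤ t) (ht : t ≤ J) (ν : F.Ω) (s : ℝ)
    (o : Option (Fin m)) : (lc t (slam F t ν) o).eval s =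
      (lc w (slam F w ν) o).eval (stm w t (slam F t ν).2.2 s) := by
  obtain ⟨n, hn⟩ : ∃ n : ℕ, n = (slam F t ν).2.2 := ⟨_, rfl⟩
  have h1 := slam_coarse F hw ht ν
  have h2 : (slam F w ν).2.2 = n / 2 ^ (t - w) := by rw [h1, hn]
  have hq : (0 : ℝ) < 2 ^ (t - w) := by positivity
  have h3 := Nat.div_add_mod n (2 ^ (t - w))
  have h3' : (2 : ℝ) ^ (t - w) * ((n / 2 ^ (t - w) : ℕ) : ℝ) + ((n % 2 ^ (t - w) : ℕ) : ℝ) = n := by
    exact_mod_cast h3
  have e1 : (((slam F w ν).2.2 : ℝ) + stm w t n s) / 2 ^ w =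
      (((slam F t ν).2.2 : ℝ) + s) / 2 ^ t := by
    unfold stm
    rw [h2, ← hn]
    have e2 : (2 : ℝ) ^ t = 2 ^ (t - w) * 2 ^ w := by
      rw [← pow_add]
      congr 1
      omega
    rw [e2]
    field_simp
    linarith
  rw [← hn, eval_lc', eval_lc', e1]
  cases o with
  | none => rfl
  | some j =>
    rw [h1]
    rfl

/-- The own path in the relative time of a shorter window. -/
theorem op_fine (F : Fam m J) {w t : ℕ} (hw : w ≤ t) (ht : t ≤ J) (c : ℕ → Fin m)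
    (ψ : ℕ → MvPolynomial (Option (Fin m)) ℝ) (ν : F.Ω) (l : ℕ) (s : ℝ) :
    (op t c ψ (slam F t ν) l).eval s =
      (op w c ψ (slam F w ν) l).eval (stm w t (slam F t ν).2.2 s) := by
  unfold op
  rw [Polynomial.eval_sub, Polynomial.eval_sub, Pool.KBX.eval_aeval_poly,
    Pool.KBX.eval_aeval_poly, lc_fine F hw ht ν s]
  have e1 : (fun o => (lc t (slam F t ν) o).eval s) = fun o =>
      (lc w (slam F w ν) o).eval (stm w t (slam F t ν).2.2 s) :=
    funext fun o => lc_fine F hw ht ν s o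
  rw [e1]

/-- The value of the own path. -/
theorem op_eval {ζ : Type} (w : ℕ) (c : ℕ → Fin m) (ψ : ℕ → MvPolynomial (Option (Fin m)) ℝ)
    (s : ((Fin m → ℝ) × (Fin m → ℝ)) × ζ × ℕ) (l : ℕ) (x : ℝ) :
    (op w c ψ s l).eval x = (lc w s (some (c l))).eval x -
      eval (fun o => (lc w s o).eval x) (ψ l) := by
  unfold op
  rw [Polynomial.eval_sub, Pool.KBX.eval_aeval_poly]

/-! ### The boxes along the path -/

/-- **A polynomial on the natural box of a sample, along the path of a near line**: two lines with the same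
window `t`; `χ` the charts of this window, `ψ` the charts of the window `w`; the coordinates `c l`, `l ≤ r`. -/
theorem pth_box (D r : ℕ) : ∃ C : ℕ, 1 ≤ C ∧ ∀ {m J : ℕ} {F : Fam m J} {c : ℕ → Fin m}
    {w t k q B : ℕ} {gw gt : ℕ → ℕ} {χ ψ : ℕ → MvPolynomial (Option (Fin m)) ℝ}
    {Q : MvPolynomial (Option (Fin m)) ℝ} {M : ℝ} {ω ω' : F.Ω},
    Set.InjOn c (Set.Iio (r + 1)) → w ≤ t → t ≤ J → (∀ l ≤ r, gt l ≤ gw l + q) →
    (∀ l, (χ l).totalDegree ≤ D) → (∀ l, DepC c l (χ l)) →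
    (∀ l, (ψ l).totalDegree ≤ D) → (∀ l, DepC c l (ψ l)) →
    Q.totalDegree ≤ D → DepC c (r + 1) Q → 0 ≤ M →
    (∀ l ≤ r, ∃ κ : ℝ, ∀ b, NBx c χ gt t (F.t ω) l b →
      |eval b (χ l) - eval b (ψ l) - κ| ≤ 2 ^ k / 2 ^ gw l) →
    (∀ b, NBx c χ gt (t + 1) (F.t ω) (r + 1) b → |eval b Q| ≤ M) →
    (∀ l ≤ r, ∀ s ∈ Set.Icc (0 : ℝ) 1,
      |(op t c χ (slam F t ω) l).eval s| ≤ 2 ^ k / 2 ^ gt l) →
    (slam F t ω').2.2 = (slam F t ω).2.2 →
    (∀ l ≤ r, ∀ σ ∈ Set.Icc (0 : ℝ) 1, |(op w c ψ (slam F w ω') l).eval σ -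
      (op w c ψ (slam F w ω) l).eval σ| ≤ 1 / 2 ^ (gw l + B)) →
    (r + 1) * (q + C * (k + 1)) ≤ B →
    ∀ s : ℝ, |s| ≤ 2 →
      |eval (fun o => (lc t (slam F t ω') o).eval s) Q -
        eval (fun o => (lc t (slam F t ω) o).eval s) Q| ≤
        2 ^ (C * (k + 1) + (r + 1) * (q + C * (k + 1))) * M / 2 ^ B := by
  obtain ⟨C₁, hC₁, hchg⟩ := hgt_chg D r
  obtain ⟨c₀, D₁, hD₁, hlip⟩ := nbx_lipt (r + 2) (fun _ => D)
  obtain ⟨C₂, hC₂, hext⟩ := ext_qu (D + 1)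
  obtain ⟨c₂, hc₂⟩ := pow_unbounded_of_one_lt C₂ (one_lt_two (α := ℝ))
  obtain ⟨C, hC⟩ : ∃ C : ℕ, C = C₁ + c₀ + D₁ + c₂ + 2 := ⟨_, rfl⟩
  refine ⟨C, by omega, ?_⟩
  intro m J F c w t k q B gw gt χ ψ Q M ω ω' hc hwt htJ hg hχ hχd hψ hψd hQ hQd hM hcmp hbox hown
    hT1 hnear hB s hs
  have hk1 : ∀ n : ℕ, n ≤ n * (k + 1) := fun n => Nat.le_mul_of_pos_right _ (Nat.succ_pos k)
  have hC₁C : C₁ * (k + 1) ≤ C * (k + 1) := Nat.mul_le_mul_right _ (by omega)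
  have hrt := rt_mem F t ω
  -- the polynomial in time
  obtain ⟨f, hf⟩ : ∃ f : Polynomial ℝ, f = MvPolynomial.aeval (lc t (slam F t ω')) Q -
    MvPolynomial.aeval (lc t (slam F t ω)) Q := ⟨_, rfl⟩
  have hfe : ∀ x, f.eval x = eval (fun o => (lc t (slam F t ω') o).eval x) Q -
      eval (fun o => (lc t (slam F t ω) o).eval x) Q := fun x => by
    rw [hf, Polynomial.eval_sub, Pool.KBX.eval_aeval_poly, Pool.KBX.eval_aeval_poly]
  have hfd : f.natDegree ≤ D + 1 := by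
    rw [hf]
    refine (Polynomial.natDegree_sub_le _ _).trans (max_le ?_ ?_) <;>
      exact (Pool.KBX.natDegree_aeval_le _ _ (natDegree_lc _ _) hQ).trans (by omega)
  obtain ⟨ρ, hρ⟩ : ∃ ρ : ℝ, ρ = 1 / 2 ^ B := ⟨_, rfl⟩
  have hρ0 : 0 < ρ := by rw [hρ]; positivity
  have hρ1 : 2 ^ ((r + 1) * (q + C₁ * (k + 1))) * ρ ≤ 1 := by
    rw [hρ, mul_one_div, div_le_one (by positivity)]
    refine pow_le_pow_right₀ (by norm_num) (le_trans (Nat.mul_le_mul_left _ ?_) hB)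
    omega
  have hst : ∀ x ∈ Set.Icc (0 : ℝ) 1, |x - rt F t ω| ≤ 1 / 4 → |f.eval x| ≤
      2 ^ (c₀ + k * D₁) * M * (2 ^ ((r + 1) * (q + C₁ * (k + 1))) * ρ) := by
    intro x hx hxr
    rw [hfe]
    obtain ⟨b, hb⟩ : ∃ b : Option (Fin m) → ℝ, b = fun o => (lc t (slam F t ω) o).eval x :=
      ⟨_, rfl⟩
    obtain ⟨b', hb'⟩ : ∃ b' : Option (Fin m) → ℝ, b' = fun o => (lc t (slam F t ω') o).eval x :=
      ⟨_, rfl⟩
    have hbn : b none = (((slam F t ω).2.2 : ℝ) + x) / 2 ^ t := by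
      rw [hb]
      show (lc t (slam F t ω) none).eval x = _
      rw [eval_lc']
      rfl
    have hbn' : b' none = b none := by
      rw [hbn, hb', ← hT1]
      show (lc t (slam F t ω') none).eval x = _
      rw [eval_lc']
      rfl
    have htc : |b none - F.t ω| ≤ 1 / 4 / 2 ^ t := by
      rw [hbn, t_rt F htJ ω, ← sub_div, abs_div, abs_of_pos (show (0 : ℝ) < 2 ^ t by positivity)]
      refine div_le_div_of_nonneg_right ?_ (by positivity)
      rw [add_sub_add_left_eq_sub]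
      exact hxr
    have h4 : (1 : ℝ) / 2 ^ (t + 2) + 1 / 4 / 2 ^ t = 1 / 2 ^ (t + 1) := by
      rw [pow_succ, pow_succ]
      field_simp
      norm_num
    have h5 : (1 : ℝ) / 2 ^ (t + 1) ≤ 1 / 2 ^ t :=
      one_div_le_one_div_of_le (by positivity) (pow_le_pow_right₀ (by norm_num) (by omega))
    have hsub : ∀ (l : ℕ) (b₁ : Option (Fin m) → ℝ), NBx c χ gt (t + 2) (b none) l b₁ →
        NBx c χ gt (t + 1) (F.t ω) l b₁ := by
      intro l b₁ h1
      refine ⟨?_, h1.2⟩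
      have e1 : b₁ none - F.t ω = (b₁ none - b none) + (b none - F.t ω) := by ring
      rw [e1, ← h4]
      exact (abs_add_le _ _).trans (add_le_add h1.1 htc)
    have hsub' : ∀ (l : ℕ) (b₁ : Option (Fin m) → ℝ), NBx c χ gt (t + 2) (b none) l b₁ →
        NBx c χ gt t (F.t ω) l b₁ := fun l b₁ h1 =>
      ⟨(hsub l b₁ h1).1.trans h5, h1.2⟩
    have hpath : ∀ l ≤ r, |b (some (c l)) - eval b (χ l)| ≤ 2 ^ k / 2 ^ gt l := by
      intro l hl
      have h1 := hown l hl x hx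
      rw [op_eval] at h1
      rw [hb]
      exact h1
    have hsm := stm_mem w t (slam F t ω).2.2 hx
    have hnr : ∀ l ≤ r, |(b' (some (c l)) - eval b' (ψ l)) - (b (some (c l)) - eval b (ψ l))| ≤
        ρ / 2 ^ gw l := by
      intro l hl
      have h1 := hnear l hl _ hsm
      have e1 := op_fine F hwt htJ c ψ ω' l x
      have e2 := op_fine F hwt htJ c ψ ω l x
      rw [hT1] at e1
      rw [← e1, ← e2, op_eval, op_eval] at h1
      rw [hb, hb', hρ]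
      refine h1.trans (le_of_eq ?_)
      rw [pow_add]
      field_simp
    have hzero : |b' none - b none| ≤ ρ / 2 ^ (t + 2) := by
      rw [hbn', sub_self, abs_zero]
      positivity
    have k1 := hchg (c := c) (t := t + 2) (k := k) (q := q) (gw := gw) (gt := gt) (χ := χ) (ψ := ψ)
      (t₀ := b none) (ρ := ρ) (b := b) (b' := b') hc hg hχ hχd hψ hψd (fun l hl => by
        obtain ⟨κ, hκ⟩ := hcmp l hl
        exact ⟨κ, fun b₁ hb₁ => hκ b₁ (hsub' l b₁ hb₁)⟩) rfl hzero hpath hρ0 hρ1 hnr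
    obtain ⟨ρ', hρ'⟩ : ∃ ρ' : ℝ, ρ' = 2 ^ ((r + 1) * (q + C₁ * (k + 1))) * ρ := ⟨_, rfl⟩
    have hρ'0 : 0 < ρ' := by rw [hρ']; positivity
    have hρρ : ρ ≤ ρ' := by
      rw [hρ']
      exact le_mul_of_one_le_left hρ0.le (one_le_pow₀ (by norm_num))
    rw [← hρ'] at hρ1 ⊢
    have k2 := hlip (c := c) (i := r + 1) (G := χ) (Q := Q) (g := gt) (a := t + 2) (t := b none)
      (M := M) (ρ := ρ') k (by omega) hc hχ hχd hQd hQ hM hρ'0 hρ1
      (fun b₁ hb₁ => hbox b₁ (hsub (r + 1) b₁ hb₁)) b b' rfl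
      (hzero.trans (div_le_div_of_nonneg_right hρρ (by positivity)))
      (fun l hl => hpath l (by omega)) (fun l hl => (k1 l (by omega)).trans
        (div_le_div_of_nonneg_right (by
          rw [hρ']
          exact mul_le_mul_of_nonneg_right (pow_le_pow_right₀ (by norm_num)
            (Nat.mul_le_mul_right _ (by omega))) hρ0.le) (by positivity)))
    rw [hb, hb'] at k2
    exact k2
  have hfin := hext f _ (rt F t ω) hfd hrt hst s hs
  rw [hfe] at hfin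
  refine hfin.trans ?_
  have e1 : (2 : ℝ) ^ (C * (k + 1) + (r + 1) * (q + C * (k + 1))) * M / 2 ^ B =
      2 ^ (C * (k + 1) + (r + 1) * (q + C * (k + 1))) * (M * ρ) := by
    rw [hρ]
    ring
  have e2 : C₂ * (2 ^ (c₀ + k * D₁) * M * (2 ^ ((r + 1) * (q + C₁ * (k + 1))) * ρ)) =
      C₂ * 2 ^ (c₀ + k * D₁) * 2 ^ ((r + 1) * (q + C₁ * (k + 1))) * (M * ρ) := by ring
  rw [e1, e2]
  refine mul_le_mul_of_nonneg_right ?_ (mul_nonneg hM hρ0.le)
  calc C₂ * 2 ^ (c₀ + k * D₁) * 2 ^ ((r + 1) * (q + C₁ * (k + 1))) ≤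
      2 ^ c₂ * 2 ^ (c₀ + k * D₁) * 2 ^ ((r + 1) * (q + C₁ * (k + 1))) := by gcongr
    _ = 2 ^ (c₂ + (c₀ + k * D₁) + (r + 1) * (q + C₁ * (k + 1))) := by
        rw [← pow_add, ← pow_add]
    _ ≤ _ := by
        refine pow_le_pow_right₀ (by norm_num) (Nat.add_le_add ?_ ?_)
        · rw [hC]
          nlinarith [Nat.zero_le (C₁ * k), Nat.zero_le (c₀ * k), Nat.zero_le (c₂ * k),
            Nat.zero_le (D₁ * k)]
        · exact Nat.mul_le_mul_left _ (by omega)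

/-! ### The height and the slope of a line over the charts of a window -/

/-- **The height** of the line of `ω` over the charts `χ` of the window `t`, in natural units, as a polynomial
in the relative time. -/
noncomputable def uS (F : Fam m J) (c : ℕ → Fin m) (t : ℕ) (gt : ℕ → ℕ) (r : ℕ)
    (χ : ℕ → MvPolynomial (Option (Fin m)) ℝ) (ω : F.Ω) : Polynomial ℝ :=
  Polynomial.C (2 ^ gt r) * op t c χ (slam F t ω) r

/-- **The slope** of the label `R` of the line of `ω` in the direction of `c r`, over the charts `χ` of the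
window `t`, in natural units. -/
noncomputable def cS (F : Fam m J) (c : ℕ → Fin m) (t : ℕ) (gt : ℕ → ℕ) (r : ℕ)
    (χ : ℕ → MvPolynomial (Option (Fin m)) ℝ) (R : MvPolynomial (Option (Fin m)) ℝ) (ω : F.Ω) :
    Polynomial ℝ :=
  Polynomial.C (2 ^ gt (r + 1) / 2 ^ gt r) *
    MvPolynomial.aeval (lc t (slam F t ω)) (pderiv (some (c r)) (R - χ (r + 1)))

theorem uS_eval (F : Fam m J) (c : ℕ → Fin m) (t : ℕ) (gt : ℕ → ℕ) (r : ℕ)
    (χ : ℕ → MvPolynomial (Option (Fin m)) ℝ) (ω : F.Ω) (s : ℝ) :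
    (uS F c t gt r χ ω).eval s = 2 ^ gt r * (op t c χ (slam F t ω) r).eval s := by
  unfold uS
  rw [Polynomial.eval_mul, Polynomial.eval_C]

theorem cS_eval (F : Fam m J) (c : ℕ → Fin m) (t : ℕ) (gt : ℕ → ℕ) (r : ℕ)
    (χ : ℕ → MvPolynomial (Option (Fin m)) ℝ) (R : MvPolynomial (Option (Fin m)) ℝ) (ω : F.Ω)
    (s : ℝ) : (cS F c t gt r χ R ω).eval s = 2 ^ gt (r + 1) / 2 ^ gt r *
      eval (fun o => (lc t (slam F t ω) o).eval s) (pderiv (some (c r)) (R - χ (r + 1))) := by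
  unfold cS
  rw [Polynomial.eval_mul, Polynomial.eval_C, Pool.KBX.eval_aeval_poly]

theorem uS_deg (F : Fam m J) (c : ℕ → Fin m) (t : ℕ) (gt : ℕ → ℕ) (r : ℕ) {D : ℕ}
    {χ : ℕ → MvPolynomial (Option (Fin m)) ℝ} (hχ : ∀ l, (χ l).totalDegree ≤ D) (ω : F.Ω) :
    (uS F c t gt r χ ω).natDegree ≤ D + 1 :=
  (Polynomial.natDegree_C_mul_le _ _).trans (op_deg t c hχ _ r)

theorem cS_deg (F : Fam m J) (c : ℕ → Fin m) (t : ℕ) (gt : ℕ → ℕ) (r : ℕ) {D : ℕ}
    {χ : ℕ → MvPolynomial (Option (Fin m)) ℝ} (hχ : ∀ l, (χ l).totalDegree ≤ D)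
    {R : MvPolynomial (Option (Fin m)) ℝ} (hR : R.totalDegree ≤ D) (ω : F.Ω) :
    (cS F c t gt r χ R ω).natDegree ≤ D + 1 := by
  refine (Polynomial.natDegree_C_mul_le _ _).trans ?_
  exact (Pool.KBX.natDegree_aeval_le _ _ (natDegree_lc _ _) (totalDegree_pdσ
    ((totalDegree_sub _ _).trans (max_le hR (hχ _))) _)).trans (by omega)

/-- The value at the own time. -/
theorem uS_own (F : Fam m J) {t : ℕ} (ht : t ≤ J) (c : ℕ → Fin m) (gt : ℕ → ℕ) (r : ℕ)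
    (χ : ℕ → MvPolynomial (Option (Fin m)) ℝ) (ω : F.Ω) :
    (uS F c t gt r χ ω).eval (rt F t ω) = 2 ^ gt r * (F.x ω (c r) - eval (bt F ω) (χ r)) := by
  rw [uS_eval, op_at ht]

theorem cS_own (F : Fam m J) {t : ℕ} (ht : t ≤ J) (c : ℕ → Fin m) (gt : ℕ → ℕ) (r : ℕ)
    (χ : ℕ → MvPolynomial (Option (Fin m)) ℝ) (R : MvPolynomial (Option (Fin m)) ℝ) (ω : F.Ω) :
    (cS F c t gt r χ R ω).eval (rt F t ω) = 2 ^ gt (r + 1) / 2 ^ gt r *
      eval (bt F ω) (pderiv (some (c r)) (R - χ (r + 1))) := by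
  rw [cS_eval]
  have e1 : (fun o => (lc t (slam F t ω) o).eval (rt F t ω)) = bt F ω :=
    funext fun o => eval_lc F ht ω o
  rw [e1]

/-- **Two near lines over the charts of a shorter window**: `par`: the heights are parallel; `cls`: the
slopes are near. -/
theorem pth_two (D r : ℕ) : ∃ C : ℕ, 1 ≤ C ∧ ∀ {m J : ℕ} {F : Fam m J} {c : ℕ → Fin m}
    {w t k q B : ℕ} {gw gt : ℕ → ℕ} {χ ψ : ℕ → MvPolynomial (Option (Fin m)) ℝ} {ω ω' : F.Ω},
    Set.InjOn c (Set.Iio (r + 2)) → w ≤ t → t ≤ J → (∀ l ≤ r + 2, gt l ≤ gw l + q) →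
    gw (r + 1) ≤ gt (r + 1) →
    (∀ l, (χ l).totalDegree ≤ D) → (∀ l, DepC c l (χ l)) →
    (∀ l, (ψ l).totalDegree ≤ D) → (∀ l, DepC c l (ψ l)) →
    (∀ l ≤ r + 2, ∃ κ : ℝ, ∀ b, NBx c χ gt t (F.t ω) l b →
      |eval b (χ l) - eval b (ψ l) - κ| ≤ 2 ^ k / 2 ^ gw l) →
    (∀ l ≤ r + 1, ∀ s ∈ Set.Icc (0 : ℝ) 1,
      |(op t c χ (slam F t ω) l).eval s| ≤ 2 ^ k / 2 ^ gt l) →
    (slam F t ω').2.2 = (slam F t ω).2.2 →
    (∀ l ≤ r, ∀ σ ∈ Set.Icc (0 : ℝ) 1, |(op w c ψ (slam F w ω') l).eval σ -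
      (op w c ψ (slam F w ω) l).eval σ| ≤ 1 / 2 ^ (gw l + B)) →
    (r + 2) * (q + C * (k + 1)) ≤ B →
    (∀ κ : ℝ, (∀ σ ∈ Set.Icc (0 : ℝ) 1, |(op w c ψ (slam F w ω') (r + 1)).eval σ -
        (op w c ψ (slam F w ω) (r + 1)).eval σ - κ| ≤ 1 / 2 ^ (gw (r + 1) + B)) →
      ∀ s : ℝ, |s| ≤ 2 → |(uS F c t gt (r + 1) χ ω').eval s - (uS F c t gt (r + 1) χ ω).eval s -
        2 ^ gt (r + 1) * κ| ≤ 2 ^ (C * (k + 1) + (r + 3) * (q + C * (k + 1))) / 2 ^ B) ∧
    ∀ R R' : MvPolynomial (Option (Fin m)) ℝ, R.totalDegree ≤ D → R'.totalDegree ≤ D →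
      (∀ σ ∈ Set.Icc (0 : ℝ) 1, |(op w c ψ (slam F w ω') (r + 1)).eval σ -
        (op w c ψ (slam F w ω) (r + 1)).eval σ| ≤ 1 / 2 ^ (gw (r + 1) + B)) →
      (∀ σ ∈ Set.Icc (0 : ℝ) 1,
        |eval (fun o => (lc w (slam F w ω') o).eval σ)
            (pderiv (some (c (r + 1))) (R' - ψ (r + 2))) -
          eval (fun o => (lc w (slam F w ω) o).eval σ)
            (pderiv (some (c (r + 1))) (R - ψ (r + 2)))| ≤
          2 ^ gw (r + 1) / 2 ^ (gw (r + 2) + B)) →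
      ∀ s : ℝ, |s| ≤ 2 → |(cS F c t gt (r + 1) χ R' ω').eval s -
        (cS F c t gt (r + 1) χ R ω).eval s| ≤
          2 ^ (C * (k + 1) + (r + 3) * (q + C * (k + 1))) / 2 ^ B := by
  obtain ⟨C₁, hC₁, hbx1⟩ := pth_box D r
  obtain ⟨C₂, hC₂, hbx2⟩ := pth_box D (r + 1)
  obtain ⟨C₃, hC₃, hext⟩ := ext16 (D + 1)
  obtain ⟨c₃, hc₃⟩ := pow_unbounded_of_one_lt C₃ (one_lt_two (α := ℝ))
  obtain ⟨C₄, hder⟩ := nbx_der D (r + 1)
  obtain ⟨C, hC⟩ : ∃ C : ℕ, C = C₁ + C₂ + c₃ + C₄ + 3 := ⟨_, rfl⟩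
  refine ⟨C, by omega, ?_⟩
  intro m J F c w t k q B gw gt χ ψ ω ω' hc hwt htJ hg hgg hχ hχd hψ hψd hcmp hown hT1 hnear hB
  have hk1 : ∀ n : ℕ, n ≤ n * (k + 1) := fun n => Nat.le_mul_of_pos_right _ (Nat.succ_pos k)
  have hCk : C * (k + 1) = C₁ * (k + 1) + C₂ * (k + 1) + c₃ * (k + 1) + C₄ * (k + 1) +
      3 * (k + 1) := by
    rw [hC]
    ring
  have h3k := hk1 c₃
  have h4k := hk1 C₄
  have hs16 : ∀ s : ℝ, |s| ≤ 2 → |s| ≤ 16 := fun s hs => hs.trans (by norm_num)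
  obtain ⟨E, hE⟩ : ∃ E : ℕ, E = C * (k + 1) + (r + 3) * (q + C * (k + 1)) := ⟨_, rfl⟩
  rw [← hE]
  have hEc : (r + 3) * (q + C * (k + 1)) = (r + 1) * (q + C * (k + 1)) +
      (q + C * (k + 1)) + (q + C * (k + 1)) := by ring
  have hE2c : (r + 2) * (q + C * (k + 1)) = (r + 1) * (q + C * (k + 1)) +
      (q + C * (k + 1)) := by ring
  have hm1 : (r + 1) * (q + C₁ * (k + 1)) ≤ (r + 1) * (q + C * (k + 1)) :=
    Nat.mul_le_mul_left _ (by omega)
  have hm2 : (r + 1 + 1) * (q + C₂ * (k + 1)) ≤ (r + 2) * (q + C * (k + 1)) :=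
    Nat.mul_le_mul_left _ (by omega)
  have hbig : ∀ n : ℕ, n + 1 ≤ E → (2 : ℝ) ^ c₃ * 2 ^ q + 2 ^ n ≤ 2 ^ E := by
    intro n hn
    have h1 : (2 : ℝ) ^ c₃ * 2 ^ q ≤ 2 ^ (E - 1) := by
      rw [← pow_add]
      exact pow_le_pow_right₀ (by norm_num) (by omega)
    have h2 : (2 : ℝ) ^ n ≤ 2 ^ (E - 1) := pow_le_pow_right₀ (by norm_num) (by omega)
    have h3 : (2 : ℝ) ^ E = 2 * 2 ^ (E - 1) := by
      rw [← pow_succ']
      congr 1
      omega
    rw [h3]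
    linarith
  have hgq : ∀ l ≤ r + 2, (2 : ℝ) ^ gt l / 2 ^ gw l ≤ 2 ^ q := fun l hl => by
    rw [div_le_iff₀ (by positivity), ← pow_add]
    exact pow_le_pow_right₀ (by norm_num) (by have := hg l hl; omega)
  refine ⟨fun κ hκ s hs => ?_, fun R R' hR hR' hnu hRR s hs => ?_⟩
  · -- the height
    obtain ⟨κ₁, hκ₁⟩ := hcmp (r + 1) (by omega)
    have h1 := hbx1 (c := c) (w := w) (t := t) (k := k) (q := q) (B := B) (gw := gw) (gt := gt)
      (χ := χ) (ψ := ψ) (Q := χ (r + 1) - ψ (r + 1) - MvPolynomial.C κ₁) (M := 2 ^ k / 2 ^ gw (r + 1))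
      (ω := ω) (ω' := ω') (hc.mono fun x hx => by rw [Set.mem_Iio] at hx ⊢; omega) hwt htJ
      (fun l hl => hg l (by omega)) hχ hχd hψ hψd
      ((totalDegree_sub _ _).trans (max_le ((totalDegree_sub _ _).trans (max_le (hχ _) (hψ _)))
        (by rw [totalDegree_C]; exact Nat.zero_le _)))
      (fun y y' h1 h2 => by
        rw [map_sub, map_sub, map_sub, map_sub, hχd _ y y' h1 h2, hψd _ y y' h1 h2, eval_C,
          eval_C]) (by positivity) (fun l hl => hcmp l (by omega))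
      (fun b hb => by
        rw [map_sub, map_sub, eval_C]
        exact hκ₁ b ⟨hb.1.trans (one_div_le_one_div_of_le (by positivity)
          (pow_le_pow_right₀ (by norm_num) (by omega))), hb.2⟩)
      (fun l hl => hown l (by omega)) hT1 hnear (by omega) s hs
    rw [map_sub, map_sub, map_sub, map_sub, eval_C, eval_C] at h1
    -- the paths over `ψ`
    obtain ⟨f, hf⟩ : ∃ f : Polynomial ℝ, f = op t c ψ (slam F t ω') (r + 1) -
      op t c ψ (slam F t ω) (r + 1) - Polynomial.C κ := ⟨_, rfl⟩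
    have hfe : ∀ x, f.eval x = (op t c ψ (slam F t ω') (r + 1)).eval x -
        (op t c ψ (slam F t ω) (r + 1)).eval x - κ := fun x => by
      rw [hf, Polynomial.eval_sub, Polynomial.eval_sub, Polynomial.eval_C]
    have hfd : f.natDegree ≤ D + 1 := by
      rw [hf]
      refine (Polynomial.natDegree_sub_le _ _).trans (max_le ?_ ?_)
      · exact (Polynomial.natDegree_sub_le _ _).trans (max_le (op_deg t c hψ _ _)
          (op_deg t c hψ _ _))
      · rw [Polynomial.natDegree_C]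
        exact Nat.zero_le _
    have h2 := hext f (1 / 2 ^ (gw (r + 1) + B)) hfd (fun x hx => by
      rw [hfe, op_fine F hwt htJ, op_fine F hwt htJ, hT1]
      exact hκ _ (stm_mem _ _ _ hx)) s (hs16 s hs)
    rw [hfe, op_eval, op_eval] at h2
    rw [uS_eval, uS_eval, op_eval, op_eval, ← mul_sub, ← mul_sub, abs_mul,
      abs_of_pos (show (0 : ℝ) < 2 ^ gt (r + 1) by positivity)]
    obtain ⟨X', hX'⟩ : ∃ X', X' = (lc t (slam F t ω') (some (c (r + 1)))).eval s := ⟨_, rfl⟩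
    obtain ⟨X, hX⟩ : ∃ X, X = (lc t (slam F t ω) (some (c (r + 1)))).eval s := ⟨_, rfl⟩
    obtain ⟨a', ha'⟩ : ∃ a', a' = eval (fun o => (lc t (slam F t ω') o).eval s) (χ (r + 1)) :=
      ⟨_, rfl⟩
    obtain ⟨a, ha⟩ : ∃ a, a = eval (fun o => (lc t (slam F t ω) o).eval s) (χ (r + 1)) := ⟨_, rfl⟩
    obtain ⟨b', hb'⟩ : ∃ b', b' = eval (fun o => (lc t (slam F t ω') o).eval s) (ψ (r + 1)) :=
      ⟨_, rfl⟩
    obtain ⟨b, hb⟩ : ∃ b, b = eval (fun o => (lc t (slam F t ω) o).eval s) (ψ (r + 1)) := ⟨_, rfl⟩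
    rw [← ha', ← ha, ← hb', ← hb] at h1
    rw [← hX', ← hX, ← hb', ← hb] at h2
    rw [← hX', ← hX, ← ha', ← ha]
    have e1 : X' - a' - (X - a) - κ = (X' - b' - (X - b) - κ) -
        (a' - b' - κ₁ - (a - b - κ₁)) := by ring
    rw [e1]
    have h3 := (abs_sub (X' - b' - (X - b) - κ) (a' - b' - κ₁ - (a - b - κ₁))).trans
      (add_le_add h2 h1)
    refine (mul_le_mul_of_nonneg_left h3 (by positivity)).trans ?_
    obtain ⟨n₁, hn₁⟩ : ∃ n₁ : ℕ, n₁ = C₁ * (k + 1) + (r + 1) * (q + C₁ * (k + 1)) := ⟨_, rfl⟩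
    rw [← hn₁]
    have hq1 := hgq (r + 1) (by omega)
    have e2 : (2 : ℝ) ^ gt (r + 1) * (C₃ * (1 / 2 ^ (gw (r + 1) + B)) +
        2 ^ n₁ * (2 ^ k / 2 ^ gw (r + 1)) / 2 ^ B) =
        (2 ^ gt (r + 1) / 2 ^ gw (r + 1)) * (C₃ + 2 ^ n₁ * 2 ^ k) / 2 ^ B := by
      rw [pow_add]
      field_simp
    rw [e2]
    refine div_le_div_of_nonneg_right ?_ (by positivity)
    have h4 := hbig (q + n₁ + k) (by omega)
    calc (2 : ℝ) ^ gt (r + 1) / 2 ^ gw (r + 1) * (C₃ + 2 ^ n₁ * 2 ^ k) ≤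
        2 ^ q * (2 ^ c₃ + 2 ^ n₁ * 2 ^ k) := by gcongr
      _ = 2 ^ c₃ * 2 ^ q + 2 ^ (q + n₁ + k) := by
          rw [pow_add, pow_add]
          ring
      _ ≤ _ := h4
  · -- the slope
    obtain ⟨κ₂, hκ₂⟩ := hcmp (r + 2) le_rfl
    obtain ⟨Q, hQ⟩ : ∃ Q, Q = pderiv (some (c (r + 1))) (χ (r + 2) - ψ (r + 2) - MvPolynomial.C κ₂) :=
      ⟨_, rfl⟩
    have hdep2 : DepC c (r + 2) (χ (r + 2) - ψ (r + 2) - MvPolynomial.C κ₂) := fun y y' h1 h2 => by
      rw [map_sub, map_sub, map_sub, map_sub, hχd _ y y' h1 h2, hψd _ y y' h1 h2, eval_C, eval_C]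
    have hdeg2 : (χ (r + 2) - ψ (r + 2) - MvPolynomial.C κ₂).totalDegree ≤ D :=
      (totalDegree_sub _ _).trans (max_le ((totalDegree_sub _ _).trans (max_le (hχ _) (hψ _)))
        (by rw [totalDegree_C]; exact Nat.zero_le _))
    have hQd : Q.totalDegree ≤ D := by
      rw [hQ]
      exact totalDegree_pdσ hdeg2 _
    have hbQ := hder (c := c) (g := gt) (a := t) (t := F.t ω) (M := 2 ^ k / 2 ^ gw (r + 2))
      (χ := χ) (Q := χ (r + 2) - ψ (r + 2) - MvPolynomial.C κ₂) hc hχ hχd hdep2 hdeg2 (by positivity)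
      (fun b hb => by
        rw [map_sub, map_sub, eval_C]
        exact hκ₂ b hb)
    rw [← hQ] at hbQ
    have h1 := hbx2 (c := c) (w := w) (t := t) (k := k) (q := q) (B := B) (gw := gw) (gt := gt)
      (χ := χ) (ψ := ψ) (Q := Q) (M := 2 ^ C₄ * (2 ^ k / 2 ^ gw (r + 2)) * 2 ^ gt (r + 1))
      (ω := ω) (ω' := ω') hc hwt htJ (fun l hl => hg l (by omega)) hχ hχd hψ hψd hQd
      (by
        rw [hQ]
        exact depC_pderiv hdep2 _) (by positivity) (fun l hl => hcmp l (by omega)) hbQ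
      hown hT1 (fun l hl σ hσ => by
        rcases Nat.lt_or_ge l (r + 1) with h1 | h1
        · exact hnear l (by omega) σ hσ
        · have h2 : l = r + 1 := by omega
          rw [h2]
          exact hnu σ hσ) (by omega) s hs
    -- the slopes over `ψ`
    obtain ⟨f, hf⟩ : ∃ f : Polynomial ℝ, f =
      MvPolynomial.aeval (lc t (slam F t ω')) (pderiv (some (c (r + 1))) (R' - ψ (r + 2))) -
      MvPolynomial.aeval (lc t (slam F t ω)) (pderiv (some (c (r + 1))) (R - ψ (r + 2))) :=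
      ⟨_, rfl⟩
    have hfe : ∀ x, f.eval x = eval (fun o => (lc t (slam F t ω') o).eval x)
        (pderiv (some (c (r + 1))) (R' - ψ (r + 2))) -
        eval (fun o => (lc t (slam F t ω) o).eval x)
        (pderiv (some (c (r + 1))) (R - ψ (r + 2))) := fun x => by
      rw [hf, Polynomial.eval_sub, Pool.KBX.eval_aeval_poly, Pool.KBX.eval_aeval_poly]
    have hfd : f.natDegree ≤ D + 1 := by
      rw [hf]
      refine (Polynomial.natDegree_sub_le _ _).trans (max_le ?_ ?_)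
      · exact (Pool.KBX.natDegree_aeval_le _ _ (natDegree_lc _ _) (totalDegree_pdσ
          ((totalDegree_sub _ _).trans (max_le hR' (hψ _))) _)).trans (by omega)
      · exact (Pool.KBX.natDegree_aeval_le _ _ (natDegree_lc _ _) (totalDegree_pdσ
          ((totalDegree_sub _ _).trans (max_le hR (hψ _))) _)).trans (by omega)
    have h2 := hext f (2 ^ gw (r + 1) / 2 ^ (gw (r + 2) + B)) hfd (fun x hx => by
      rw [hfe]
      have e1 : (fun o => (lc t (slam F t ω') o).eval x) = fun o =>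
          (lc w (slam F w ω') o).eval (stm w t (slam F t ω).2.2 x) := funext fun o => by
        rw [lc_fine F hwt htJ ω' x o, hT1]
      have e2 : (fun o => (lc t (slam F t ω) o).eval x) = fun o =>
          (lc w (slam F w ω) o).eval (stm w t (slam F t ω).2.2 x) :=
        funext fun o => lc_fine F hwt htJ ω x o
      rw [e1, e2]
      exact hRR _ (stm_mem _ _ _ hx)) s (hs16 s hs)
    rw [hfe] at h2
    rw [cS_eval, cS_eval, ← mul_sub, abs_mul, abs_of_pos (show (0 : ℝ) < 2 ^ gt (r + 1 + 1) /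
      2 ^ gt (r + 1) by positivity)]
    have hexp : ∀ (b : Option (Fin m) → ℝ) (P : MvPolynomial (Option (Fin m)) ℝ),
        eval b (pderiv (some (c (r + 1))) (P - χ (r + 1 + 1))) =
        eval b (pderiv (some (c (r + 1))) (P - ψ (r + 2))) - eval b Q := fun b P => by
      rw [hQ]
      show eval b (pderiv (some (c (r + 1))) (P - χ (r + 2))) = _
      simp only [map_sub, pderiv_C, map_zero]
      ring
    rw [hexp, hexp]
    obtain ⟨X', hX'⟩ : ∃ X', X' = eval (fun o => (lc t (slam F t ω') o).eval s)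
      (pderiv (some (c (r + 1))) (R' - ψ (r + 2))) := ⟨_, rfl⟩
    obtain ⟨X, hX⟩ : ∃ X, X = eval (fun o => (lc t (slam F t ω) o).eval s)
      (pderiv (some (c (r + 1))) (R - ψ (r + 2))) := ⟨_, rfl⟩
    obtain ⟨a', ha'⟩ : ∃ a', a' = eval (fun o => (lc t (slam F t ω') o).eval s) Q := ⟨_, rfl⟩
    obtain ⟨a, ha⟩ : ∃ a, a = eval (fun o => (lc t (slam F t ω) o).eval s) Q := ⟨_, rfl⟩
    rw [← ha', ← ha] at h1
    rw [← hX', ← hX] at h2
    rw [← hX', ← hX, ← ha', ← ha]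
    have e1 : X' - a' - (X - a) = (X' - X) - (a' - a) := by ring
    rw [e1]
    have h3 := (abs_sub (X' - X) (a' - a)).trans (add_le_add h2 h1)
    refine (mul_le_mul_of_nonneg_left h3 (by positivity)).trans ?_
    obtain ⟨n₂, hn₂⟩ : ∃ n₂ : ℕ, n₂ = C₂ * (k + 1) + (r + 1 + 1) * (q + C₂ * (k + 1)) :=
      ⟨_, rfl⟩
    rw [← hn₂]
    have hq1 := hgq (r + 2) le_rfl
    have hgr : (2 : ℝ) ^ gw (r + 1) / 2 ^ gt (r + 1) ≤ 1 := by
      rw [div_le_one (by positivity)]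
      exact pow_le_pow_right₀ (by norm_num) hgg
    have e2 : (2 : ℝ) ^ gt (r + 1 + 1) / 2 ^ gt (r + 1) *
        (C₃ * (2 ^ gw (r + 1) / 2 ^ (gw (r + 2) + B)) +
          2 ^ n₂ * (2 ^ C₄ * (2 ^ k / 2 ^ gw (r + 2)) * 2 ^ gt (r + 1)) / 2 ^ B) =
        (2 ^ gt (r + 2) / 2 ^ gw (r + 2)) * (C₃ * (2 ^ gw (r + 1) / 2 ^ gt (r + 1)) +
          2 ^ n₂ * 2 ^ C₄ * 2 ^ k) / 2 ^ B := by
      rw [pow_add _ (gw (r + 2)) B]
      show (2 : ℝ) ^ gt (r + 2) / 2 ^ gt (r + 1) * _ = _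
      field_simp
    rw [e2]
    refine div_le_div_of_nonneg_right ?_ (by positivity)
    have h4 := hbig (q + n₂ + C₄ + k) (by omega)
    calc (2 : ℝ) ^ gt (r + 2) / 2 ^ gw (r + 2) * (C₃ * (2 ^ gw (r + 1) / 2 ^ gt (r + 1)) +
          2 ^ n₂ * 2 ^ C₄ * 2 ^ k) ≤
        2 ^ q * (2 ^ c₃ * 1 + 2 ^ n₂ * 2 ^ C₄ * 2 ^ k) := by gcongr
      _ = 2 ^ c₃ * 2 ^ q + 2 ^ (q + n₂ + C₄ + k) := by
          rw [pow_add, pow_add, pow_add]
          ring
      _ ≤ _ := h4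

end Pool.NA3
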