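import Pool.Agent.H3.NA9.Rlh
import Pool.Agent.H80.CLO.Nd7

/-!
# The data of the slope polynomial from the data in real form

`nd4h_of`: the structure `Nd4H` from `RlH`. `nd4h_num`: with powers of `M`. `nd4_rlh`: the slope polynomial of a
tuple from `RlH`.
-/

set_option autoImplicit false

namespace Pool.NA3

open Finset Real
open Pool.Agent.H49.Ent Pool.Agent.H32.Dense Pool.STK
open Pool.BFL (Pb)
open Pool.K2S (cpn)
open Pool.CLU (cpn_law cpn_pos)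
open Pool.NDD66 (mu Lam mu_le)
open Pool.CLO80 (hd Nd4H fl_of)

/-- **The data `Nd4H` from the data in real form.** -/
theorem nd4h_of (K D n : ℕ) : ∃ C : ℕ, 1 ≤ C ∧ ∀ {Ω Λ Pt Y X Z Cr V T S : Type} [Fintype Ω]
    {q : Ω → ℝ} {L : Ω → Λ} {P : Ω → Pt} {y : Ω → Y} {x : Ω → X} {Qc : Ω → Z}
    {ct : Ω → Cr} {ell : Ω → V} {Tm : Ω → T} {Uf : Ω → S} {τ U φc : Ω → ℤ} {σt φ : Ω → ℝ}
    {uL cL : Cr → Ω → Polynomial ℝ} {M : ℕ} {jj : Fin (K + 1) → Fin n}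
    {Θ₀ ε₀ cT cU e₀ c Θ ε e : ℝ},
    RlH q L P y x Qc ct ell Tm Uf τ U φc σt φ uL cL D M jj Θ₀ ε₀ cT cU e₀ c →
    1 ≤ Θ₀ → 0 ≤ ε₀ → 0 ≤ e₀ → ε ≤ 1 → C * Θ₀ ^ C * (ε₀ + 1 / M) ≤ ε →
    C * Θ₀ ≤ Θ → C * e₀ ≤ e →
    ∃ uP cP : Cr → V → Polynomial ℝ,
      Nd4H q L P y (fun ω => (x ω, ct ω)) Qc Uf ct ell τ U φc φ uP cP D M jj Θ ε e c := by
  classical
  obtain ⟨C₁, hC₁, hlip⟩ := pol_lip D
  obtain ⟨A, hA⟩ : ∃ A : ℝ, A = 1 + (K + 2) * 8 ^ (K + 1) * (1 + C₁) +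
    (K + 1) * K * 128 * 8 ^ K := ⟨_, rfl⟩
  have hA1 : 1 ≤ A := by
    rw [hA]
    have h1 : (0 : ℝ) ≤ (K + 2) * 8 ^ (K + 1) * (1 + C₁) := by positivity
    have h2 : (0 : ℝ) ≤ (K + 1) * K * 128 * 8 ^ K := by positivity
    linarith
  obtain ⟨C, hC⟩ := exists_nat_ge (A + 16 + 2 * C₁ + (2 * K + 4) + (6 * n + 5))
  have hK0 : (0 : ℝ) ≤ K := Nat.cast_nonneg K
  have hn0 : (0 : ℝ) ≤ n := Nat.cast_nonneg n
  have hCK : 2 * K + 4 ≤ C := by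
    have : ((2 * K + 4 : ℕ) : ℝ) ≤ C := by push_cast; linarith
    exact_mod_cast this
  have hC1 : 1 ≤ C := by omega
  refine ⟨C, hC1, ?_⟩
  intro Ω Λ Pt Y X Z Cr V T S _ q L P y x Qc ct ell Tm Uf τ U φc σt φ uL cL M jj Θ₀ ε₀ cT cU e₀ c
    Θ ε e R hΘ₀ hε₀ he₀ hε1 hε hΘ he
  have hq := R.law
  have q0 := hq.nonneg
  -- numbers
  have hM0 : (0 : ℝ) ≤ 1 / M := by positivity
  have hΘ0 : 0 < Θ₀ := by linarith
  have pw1 : (1 : ℝ) ≤ Θ₀ ^ C := one_le_pow₀ hΘ₀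
  have pwΘ : Θ₀ ≤ Θ₀ ^ C := by
    calc Θ₀ = Θ₀ ^ 1 := (pow_one _).symm
      _ ≤ Θ₀ ^ C := pow_le_pow_right₀ hΘ₀ hC1
  have hsm : ε₀ + 1 / M ≤ 1 / (16 * Θ₀) := by
    rw [le_div_iff₀ (by positivity)]
    have h1 : (16 : ℝ) * Θ₀ ≤ C * Θ₀ ^ C := by
      refine mul_le_mul (by linarith) pwΘ hΘ0.le (by positivity)
    have h2 : 16 * Θ₀ * (ε₀ + 1 / M) ≤ C * Θ₀ ^ C * (ε₀ + 1 / M) :=
      mul_le_mul_of_nonneg_right h1 (by linarith)
    nlinarith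
  have hsm1 : ε₀ ≤ 1 / 16 := by
    have h1 : 1 / (16 * Θ₀) ≤ 1 / 16 := one_div_le_one_div_of_le (by norm_num) (by linarith)
    linarith
  have hΘΘ : 2 * Θ₀ ≤ Θ := by nlinarith
  have hΘ' : 0 < Θ := by linarith
  have hlin : 5 * ε₀ + C₁ * Θ₀ * (1 / M) ≤ ε := by
    refine le_trans ?_ hε
    have h1 : (5 + C₁) * Θ₀ ≤ C * Θ₀ ^ C := by
      refine mul_le_mul (by linarith) pwΘ hΘ0.le (by positivity)
    have h2 : (5 + C₁) * Θ₀ * (ε₀ + 1 / M) ≤ C * Θ₀ ^ C * (ε₀ + 1 / M) :=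
      mul_le_mul_of_nonneg_right h1 (by linarith)
    have h3 : 0 ≤ C₁ * (Θ₀ * ε₀) := by positivity
    have h4 : 0 ≤ 5 * Θ₀ * (1 / (M : ℝ)) := by positivity
    have h5 : ε₀ ≤ Θ₀ * ε₀ := le_mul_of_one_le_left hε₀ hΘ₀
    nlinarith
  have hεbig : A * Θ₀ ^ (2 * K + 4) * (ε₀ + 1 / M) ≤ ε := by
    refine le_trans ?_ hε
    refine mul_le_mul_of_nonneg_right ?_ (by linarith)
    exact mul_le_mul (by linarith) (pow_le_pow_right₀ hΘ₀ hCK) (by positivity) (by positivity)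
  have hee : (6 * n + 5) * e₀ ≤ e := by
    refine le_trans ?_ he
    exact mul_le_mul_of_nonneg_right (by linarith) he₀
  -- the representatives
  have hrep : ∀ g : Cr → Ω → Polynomial ℝ, (∀ a ω, (g a ω).natDegree ≤ D) →
      (∀ ω ω', 0 < q ω → 0 < q ω' → ell ω = ell ω' → ct ω = ct ω' → ∀ s : ℝ, |s| ≤ 2 →
        |(g (ct ω) ω').eval s - (g (ct ω) ω).eval s| ≤ ε₀) →
      ∃ gP : Cr → V → Polynomial ℝ, (∀ a v, (gP a v).natDegree ≤ D) ∧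
        ∀ ω, 0 < q ω → ∀ a, ct ω = a → ∀ s : ℝ, |s| ≤ 2 →
          |(gP a (ell ω)).eval s - (g a ω).eval s| ≤ ε₀ := by
    intro g hgd hg
    refine ⟨fun a v => if h : ∃ ω, 0 < q ω ∧ ct ω = a ∧ ell ω = v then g a h.choose else 0,
      fun a v => ?_, fun ω hω a ha s hs => ?_⟩
    · show (if h : ∃ ω, 0 < q ω ∧ ct ω = a ∧ ell ω = v then g a h.choose else 0).natDegree ≤ D
      split_ifs with h
      · exact hgd _ _
      · rw [Polynomial.natDegree_zero]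
        exact Nat.zero_le _
    · have hex : ∃ ω', 0 < q ω' ∧ ct ω' = a ∧ ell ω' = ell ω := ⟨ω, hω, ha, rfl⟩
      show |(if h : ∃ ω', 0 < q ω' ∧ ct ω' = a ∧ ell ω' = ell ω then g a h.choose else 0).eval s -
        (g a ω).eval s| ≤ ε₀
      rw [dif_pos hex]
      have h1 := hex.choose_spec
      obtain ⟨ω', hω'⟩ : ∃ ω', ω' = hex.choose := ⟨_, rfl⟩
      rw [← hω'] at h1 ⊢
      have h2 := hg _ _ hω h1.1 h1.2.2.symm (ha.trans h1.2.1.symm) s hs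
      rw [ha] at h2
      exact h2
  obtain ⟨uP, uPd, huP⟩ := hrep uL (fun a ω => (R.deg a ω).1)
    (fun ω ω' h h' h1 h2 s hs => (R.cls ω ω' h h' h1 h2 s hs).1)
  obtain ⟨cP, cPd, hcP⟩ := hrep cL (fun a ω => (R.deg a ω).2)
    (fun ω ω' h h' h1 h2 s hs => (R.cls ω ω' h h' h1 h2 s hs).2)
  -- the relative time
  have htm : ∀ ω, 0 < q ω → |(τ ω : ℝ) / M| ≤ 1 := by
    intro ω hω
    have h1 : |(τ ω : ℝ)| ≤ M := by exact_mod_cast R.tb ω hω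
    rw [abs_div, Nat.abs_cast]
    rcases Nat.eq_zero_or_pos M with h2 | h2
    · rw [h2]
      simp
    · rw [div_le_one (by exact_mod_cast h2)]
      exact h1
  have hlt : ∀ (g : Polynomial ℝ), g.natDegree ≤ D → (∀ s : ℝ, |s| ≤ 2 → |g.eval s| ≤ Θ₀) →
      ∀ ω, 0 < q ω → |g.eval (σt ω) - g.eval ((τ ω : ℝ) / M)| ≤ C₁ * Θ₀ * (1 / M) := by
    intro g hg hgb ω hω
    have h1 := R.st ω hω
    refine (hlip g Θ₀ hg hgb _ _ h1.1 (htm ω hω)).trans ?_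
    exact mul_le_mul_of_nonneg_left h1.2 (by positivity)
  refine ⟨uP, cP, ?_⟩
  -- the copies
  have hQl := cpn_law hq y n
  have Q0 := hQl.nonneg
  have hpos : ∀ w, 0 < cpn q y n w → (∀ i, 0 < q (w i)) ∧ ∀ i, y (w i) = y (w 0) :=
    fun w hw => cpn_pos q0 y n w hw
  have hcore : CH q Tm (fun ω => (L ω, ell ω)) - n * (e₀ + e₀ + e₀) ≤
      CH (cpn q y n) (fun w => Tm (w 0)) (fun w => (L (w 0), fun i => ell (w i))) :=
    Pool.ND54.nd_core hq ell x Uf y n R.yx R.ex R.ef R.eo R.eU Tm L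
  have hTL : cT - e₀ ≤ CH q Tm (fun ω => (L ω, ell ω)) := by
    refine R.T2.trans (CH_mono_cond q0 fun ω ω' a b h => ?_)
    exact Prod.ext h (R.Ll ω ω' a b h)
  have hTt : cT - e₀ - 3 * n * e₀ ≤ CH (cpn q y n) (fun w => Tm (w 0))
      (fun w => (L (w 0), fun i : Fin n => ell (w i.succ))) := by
    have h1 : CH (cpn q y n) (fun w => Tm (w 0)) (fun w => (L (w 0), fun i => ell (w i))) ≤
        CH (cpn q y n) (fun w => Tm (w 0))
          (fun w => (L (w 0), fun i : Fin n => ell (w i.succ))) :=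
      CH_mono_cond Q0 fun w w' _ _ h => by
        have h2 := Prod.ext_iff.1 h
        exact Prod.ext h2.1 (funext fun i => congrFun h2.2 i.succ)
    have e1 : n * (e₀ + e₀ + e₀) = 3 * n * e₀ := by ring
    rw [e1] at hcore
    linarith
  refine ⟨hq, fun ω ω' a b h => Prod.ext (R.ex _ _ a b (R.Ll _ _ a b h)) (R.Lc _ _ a b h),
    fun ω ω' a b h => ?_, fun ω ω' a b h => ?_, R.Ll, R.Lc, R.Qt, R.PU, R.Pp, R.PQ, R.Ub, R.tb,
    R.pc, uPd, cPd, fun ω hω s hs => ?_, ?_, fun ω ω' hω hω' hy s hs => ?_, ?_, ?_, ?_,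
    R.few.trans ?_, ?_, ?_⟩
  · -- yx
    have h1 := Prod.ext_iff.1 h
    exact Prod.ext (R.yx _ _ a b h1.2) (R.Qt _ _ a b h1.1)
  · -- yt
    exact R.Tτ _ _ a b (Prod.ext (R.yT _ _ a b h) (R.yc _ _ a b h))
  · -- uB
    have h1 := huP ω hω (ct ω) rfl s hs
    have h2 := (R.bd ω hω s hs).1
    have h3 : |(uP (ct ω) (ell ω)).eval s| ≤ |(uP (ct ω) (ell ω)).eval s - (uL (ct ω) ω).eval s| +
        |(uL (ct ω) ω).eval s| := by
      have := abs_add_le ((uP (ct ω) (ell ω)).eval s - (uL (ct ω) ω).eval s) ((uL (ct ω) ω).eval s)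
      rwa [sub_add_cancel] at this
    linarith
  · -- own
    refine le_trans (Pool.STB.Pb_mono q0 ?_) R.own
    intro ω hω hn h
    apply hn
    have hs1 : |(τ ω : ℝ) / M| ≤ 2 := (htm ω hω).trans (by norm_num)
    have h1 := huP ω hω (ct ω) rfl _ hs1
    have h2 := hcP ω hω (ct ω) rfl _ hs1
    have h3 := hlt _ (R.deg (ct ω) ω).1 (fun s hs => (R.bd ω hω s hs).1) ω hω
    have h4 := hlt _ (R.deg (ct ω) ω).2 (fun s hs => (R.bd ω hω s hs).2) ω hω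
    obtain ⟨k1, k2⟩ := h
    rw [abs_le] at h1 h2 h3 h4 k1 k2
    constructor <;> rw [abs_le] <;> constructor <;> linarith
  · -- par
    have hc' : ct ω' = ct ω := (R.yc _ _ hω' hω hy.symm)
    have h0 : |(0 : ℝ)| ≤ 2 := by norm_num
    have h1 := huP ω hω (ct ω) rfl s hs
    have h2 := huP ω' hω' (ct ω) hc' s hs
    have h3 := huP ω hω (ct ω) rfl 0 h0
    have h4 := huP ω' hω' (ct ω) hc' 0 h0
    have h5 := R.par ω ω' hω hω' hy s hs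
    have h6 : 0 ≤ C₁ * Θ₀ * (1 / M) := by positivity
    rw [abs_le] at h1 h2 h3 h4 h5 ⊢
    constructor <;> linarith
  · -- fT
    have h1 := CH_le_add Q0 (fun w : Fin (n + 1) → Ω => Tm (w 0)) (fun w => τ (w 0))
      (fun w => (L (w 0), fun i : Fin n => ell (w i.succ)))
    have h2 : CH (cpn q y n) (fun w => Tm (w 0)) (fun w => (τ (w 0), (L (w 0),
        fun i : Fin n => ell (w i.succ)))) ≤ CH q Tm (fun ω => (τ ω, L ω)) := by
      refine le_trans (CH_mono_cond Q0 fun w w' _ _ h => ?_)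
        (Pool.H52.TIE.CH_cpn hq y n 0 Tm (fun ω => (τ ω, L ω))).le
      have h3 := Prod.ext_iff.1 h
      exact Prod.ext h3.1 (Prod.ext_iff.1 h3.2).1
    have h3 := R.T3
    nlinarith
  · -- fU
    have h1 := CH_le_add q0 Uf Qc y
    have h2 := CH_le_add q0 Uf U (fun ω => (Qc ω, y ω))
    have h3 := R.eU
    have h4 := R.U1
    have h5 := R.U2
    have h6 : CH q Uf (fun ω => (U ω, (Qc ω, y ω))) ≤ CH q Uf (fun ω => (U ω, Qc ω)) :=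
      CH_mono_cond q0 fun ω ω' _ _ h => Prod.ext (Prod.ext_iff.1 h).1
        (Prod.ext_iff.1 (Prod.ext_iff.1 h).2).1
    nlinarith
  · -- fl
    have hy0 : Det q y (fun ω => (x ω, Tm ω)) := fun ω ω' a b h =>
      Prod.ext (R.yx _ _ a b h) (R.yT _ _ a b h)
    have h1 := fl_of hq (L := L) (y := y) (x := fun ω => (x ω, ct ω)) (ell := ell) (n := n) Tm
      (fun ω => (x ω, Tm ω)) (e₁ := 2 * e₀ + 3 * n * e₀) (e₂ := 3 * e₀)
      (fun ω ω' a b h => Prod.ext (R.ex _ _ a b (R.Ll _ _ a b h)) (R.Lc _ _ a b h)) hy0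
      (fun ω ω' _ _ h => Prod.ext (Prod.ext_iff.1 (Prod.ext_iff.1 h).1).1 (Prod.ext_iff.1 h).2)
      (by
        have h2 : CH (cpn q y n) (fun w => Tm (w 0)) (fun w => (x (w 0), ct (w 0))) =
            CH q Tm (fun ω => (x ω, ct ω)) := Pool.H52.TIE.CH_cpn hq y n 0 Tm
              (fun ω => (x ω, ct ω))
        have h3 := R.T1
        rw [h2]
        linarith)
      (by
        have h2 : CH q ell (fun ω => (x ω, Tm ω)) ≤ CH q ell x :=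
          CH_mono_cond q0 fun ω ω' _ _ h => (Prod.ext_iff.1 h).1
        have h3 := CH_le_add q0 Uf ell y
        have h4 := R.ef
        have h5 := R.eo
        have h6 := R.eU
        linarith)
    nlinarith
  · -- few
    nlinarith
  · -- fUp
    have a1 := R.U2
    have a2 := CH_le_add q0 Uf Qc y
    have a3 := CH_le_add q0 Uf U (fun ω => (Qc ω, y ω))
    have a4 := R.U1
    have a5 := R.eU
    have a6 : CH q U (fun ω => (Qc ω, y ω)) ≤ Real.log (2 * M + 1) := by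
      have h5 := CH_le_card q0 R.law.sum_one U (fun ω => (Qc ω, y ω))
        (fun _ => Finset.Icc (-(M : ℤ)) M) (fun ω hω => by
          have := abs_le.1 (R.Ub ω hω)
          rw [Finset.mem_Icc]
          exact this)
      rw [Ex_const R.law.sum_one, Int.card_Icc] at h5
      have h6 : (((M : ℤ) + 1 - -(M : ℤ)).toNat : ℝ) = 2 * M + 1 := by
        have : ((M : ℤ) + 1 - -(M : ℤ)).toNat = 2 * M + 1 := by omega
        rw [this]
        push_cast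
        ring
      rwa [h6] at h5
    have a7 : CH q Uf (fun ω => (U ω, (Qc ω, y ω))) ≤ CH q Uf (fun ω => ((U ω, Qc ω), y ω)) :=
      CH_mono_cond q0 fun ω ω' _ _ h => by
        simp only [Prod.mk.injEq] at h ⊢
        tauto
    nlinarith
  · -- dd
    refine le_trans (Pool.STB.Pb_mono Q0 ?_) R.dd
    intro w hw hn h
    apply hn
    obtain ⟨hsep, hsum⟩ := h
    obtain ⟨hwq, hwy⟩ := hpos w hw
    obtain ⟨ν, hν⟩ : ∃ ν : Fin (K + 2) → Ω, ν = hd jj w := ⟨_, rfl⟩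
    have hνw : ∀ i, ∃ j, ν i = w j := fun i => ⟨hd jj id i, by rw [hν]; exact hd_at jj w i⟩
    have hνe : ∀ i, hd jj (fun j => ell (w j)) i = ell (ν i) := fun i => by
      rw [hν, hd_at jj (fun j => ell (w j)) i, hd_at jj w i]
    have hνq : ∀ i, 0 < q (ν i) := fun i => by
      obtain ⟨j, hj⟩ := hνw i
      rw [hj]
      exact hwq j
    have hνy : ∀ i, y (ν i) = y (w 0) := fun i => by
      obtain ⟨j, hj⟩ := hνw i
      rw [hj]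
      exact hwy j
    have hνc : ∀ i, ct (ν i) = ct (w 0) := fun i => R.yc _ _ (hνq i) (hwq 0) (hνy i)
    have hfn : (fun i => (uP (ct (w 0)) (hd jj (fun j => ell (w j)) i)).eval 0) =
        fun i => (uP (ct (w 0)) (ell (ν i))).eval 0 := funext fun i => by rw [hνe]
    rw [← hν] at hsep hsum
    obtain ⟨a, ha⟩ : ∃ a, a = ct (w 0) := ⟨_, rfl⟩
    obtain ⟨s, hs⟩ : ∃ s, s = σt (w 0) := ⟨_, rfl⟩
    have hs1 : |s| ≤ 1 := by
      rw [hs]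
      exact (R.st _ (hwq 0)).1
    have hs2 : |s| ≤ 2 := hs1.trans (by norm_num)
    have h02 : |(0 : ℝ)| ≤ 2 := by norm_num
    have ht2 : |(τ (w 0) : ℝ) / M| ≤ 2 := (htm _ (hwq 0)).trans (by norm_num)
    rw [← ha] at hνc
    rw [← ha, ← hs] at hsep hsum
    obtain ⟨h, hh⟩ : ∃ h : Fin (K + 2) → ℝ, h = fun i => (uL a (ν i)).eval s := ⟨_, rfl⟩
    obtain ⟨h', hh'⟩ : ∃ h' : Fin (K + 2) → ℝ, h' = fun i => (uP a (ell (ν i))).eval 0 := ⟨_, rfl⟩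
    obtain ⟨z, hz⟩ : ∃ z : Fin (K + 2) → ℝ, z = fun i => (cL a (ν i)).eval s := ⟨_, rfl⟩
    obtain ⟨z', hz'⟩ : ∃ z' : Fin (K + 2) → ℝ, z' = fun i =>
      (cP a (ell (ν i))).eval ((τ (w 0) : ℝ) / M) := ⟨_, rfl⟩
    have ebd : ∀ i (s' : ℝ), |s'| ≤ 2 → |(uL a (ν i)).eval s'| ≤ Θ₀ ∧
        |(cL a (ν i)).eval s'| ≤ Θ₀ := fun i s' hs' => by
      have := R.bd (ν i) (hνq i) s' hs'
      rwa [hνc i] at this
    have e1 : ∀ i, |h' i - (uL a (ν i)).eval 0| ≤ ε₀ := fun i => by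
      rw [hh']
      exact huP (ν i) (hνq i) a (hνc i) 0 h02
    have e2 : ∀ i, |h i - (uL a (w 0)).eval s - ((uL a (ν i)).eval 0 - (uL a (w 0)).eval 0)| ≤
        ε₀ := fun i => by
      rw [hh, ha]
      exact R.par (w 0) (ν i) (hwq 0) (hνq i) (hνy i).symm s hs2
    have hhh : ∀ i j, |(h i - h j) - (h' i - h' j)| ≤ 4 * ε₀ := fun i j => by
      have k1 := e1 i
      have k2 := e1 j
      have k3 := e2 i
      have k4 := e2 j
      rw [abs_le] at k1 k2 k3 k4 ⊢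
      constructor <;> linarith
    have hsp : ∀ i j, i ≠ j → 1 / Θ₀ ≤ |h i - h j| := fun i j hij => by
      rw [hh]
      exact hsep i j hij
    have h16 : 1 / (16 * Θ₀) = 1 / Θ₀ / 16 := by field_simp
    have h12 : 1 / (2 * Θ₀) = 1 / Θ₀ / 2 := by field_simp
    have hΘinv : 0 < 1 / Θ₀ := by positivity
    have hsp' : ∀ i j, i ≠ j → 1 / (2 * Θ₀) ≤ |h' i - h' j| := fun i j hij => by
      have k1 := hsp i j hij
      have k2 := hhh i j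
      have k3 : |h i - h j| ≤ |(h i - h j) - (h' i - h' j)| + |h' i - h' j| := by
        have := abs_add_le ((h i - h j) - (h' i - h' j)) (h' i - h' j)
        rwa [sub_add_cancel] at this
      rw [h12]
      rw [h16] at hsm
      linarith
    have hHb : ∀ i j, |h i - h j| ≤ 2 * Θ₀ := fun i j => by
      have k1 := (ebd i s hs2).1
      have k2 := (ebd j s hs2).1
      rw [hh]
      show |(uL a (ν i)).eval s - (uL a (ν j)).eval s| ≤ _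
      refine (abs_sub _ _).trans ?_
      linarith
    have hHb' : ∀ i j, |h' i - h' j| ≤ 4 * Θ₀ := fun i j => by
      have k1 := hHb i j
      have k2 := hhh i j
      have k3 : |h' i - h' j| ≤ |h i - h j| + |(h i - h j) - (h' i - h' j)| := by
        have := abs_sub (h i - h j) ((h i - h j) - (h' i - h' j))
        rwa [sub_sub_cancel] at this
      linarith
    have hzz : ∀ i, |z i - z' i| ≤ ε₀ + C₁ * Θ₀ * (1 / M) := fun i => by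
      have k1 := hcP (ν i) (hνq i) a (hνc i) _ ht2
      have k2 := hlt _ (R.deg a (ν i)).2 (fun s' hs' => (ebd i s' hs').2) (w 0) (hwq 0)
      rw [← hs] at k2
      rw [hz, hz']
      show |(cL a (ν i)).eval s - (cP a (ell (ν i))).eval ((τ (w 0) : ℝ) / M)| ≤ _
      rw [abs_le] at k1 k2 ⊢
      constructor <;> linarith
    have hfin := dd_pert (h := h) (h' := h') (y := z) (y' := z') (σ := 1 / (2 * Θ₀))
      (H := 4 * Θ₀) (B := Θ₀) (ε := 4 * ε₀) (ε' := ε₀ + C₁ * Θ₀ * (1 / M)) (by positivity)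
      (by
        rw [h12]
        have : 1 / Θ₀ ≤ 1 := by rw [div_le_one hΘ0]; exact hΘ₀
        linarith) hΘ0.le (by linarith)
      (fun i j hij => by
        have := hsp i j hij
        rw [h12]
        linarith) hsp' (fun i j => (hHb i j).trans (by linarith)) hHb' hhh
      (fun i => by rw [hz]; exact (ebd i s hs2).2) hzz
    have hsum' : |∑ i, mu h i * z i| ≤ ε₀ := by
      rw [hh, hz]
      exact hsum
    have hnum := num_of (K := K) (C₁ := C₁) (Θ := Θ₀) (ε := ε₀) (M' := 1 / M) hC₁ hΘ₀ hε₀ hM0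
    rw [← hA] at hnum
    rw [← ha]
    refine ⟨fun i k hik => ?_, fun i => ?_, ?_⟩
    · rw [hνe, hνe]
      have k1 := hsp' i k hik
      rw [hh'] at k1
      refine le_trans ?_ k1
      exact one_div_le_one_div_of_le (by linarith) (by linarith)
    · rw [hνe]
      have k1 := huP (ν i) (hνq i) a (hνc i) _ ht2
      have k2 := hcP (ν i) (hνq i) a (hνc i) _ ht2
      have k3 := ebd i _ ht2
      constructor
      · have k4 := abs_add_le ((uP a (ell (ν i))).eval ((τ (w 0) : ℝ) / M) -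
          (uL a (ν i)).eval ((τ (w 0) : ℝ) / M)) ((uL a (ν i)).eval ((τ (w 0) : ℝ) / M))
        rw [sub_add_cancel] at k4
        linarith
      · have k4 := abs_add_le ((cP a (ell (ν i))).eval ((τ (w 0) : ℝ) / M) -
          (cL a (ν i)).eval ((τ (w 0) : ℝ) / M)) ((cL a (ν i)).eval ((τ (w 0) : ℝ) / M))
        rw [sub_add_cancel] at k4
        linarith
    · have k1 : ∑ i, mu (fun i => (uP a (hd jj (fun j => ell (w j)) i)).eval 0) i *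
          (cP a (hd jj (fun j => ell (w j)) i)).eval ((τ (w 0) : ℝ) / M) =
          ∑ i, mu h' i * z' i := by
        rw [ha] at *
        rw [hfn, hh', hz']
        exact Finset.sum_congr rfl fun i _ => by rw [hνe]
      rw [k1]
      linarith

/-! ### Powers -/

variable {Ω Λ Pt Y X Z C V S : Type} [Fintype Ω]

/-- Larger numbers. -/
theorem nd4h_mono {q : Ω → ℝ} {L : Ω → Λ} {P : Ω → Pt} {y : Ω → Y} {x : Ω → X} {Qc : Ω → Z}
    {Up : Ω → S} {ct : Ω → C} {ell : Ω → V} {τ U φc : Ω → ℤ} {φ : Ω → ℝ}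
    {uP cP : C → V → Polynomial ℝ}
    {K n D M : ℕ} {jj : Fin (K + 1) → Fin n} {Θ ε e c Θ' ε' e' c' : ℝ}
    (H : Nd4H q L P y x Qc Up ct ell τ U φc φ uP cP D M jj Θ ε e c) (h0 : 0 < Θ) (hΘ : Θ ≤ Θ')
    (hε : ε ≤ ε') (he : e ≤ e') (hc : c ≤ c') :
    Nd4H q L P y x Qc Up ct ell τ U φc φ uP cP D M jj Θ' ε' e' c' := by
  have q0 := H.law.nonneg
  have hQ := cpn_law H.law y n
  have h1 : 1 / Θ' ≤ 1 / Θ := one_div_le_one_div_of_le h0 hΘ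
  refine ⟨H.law, H.Lx, H.yx, H.yt, H.Ll, H.Lc, H.Qt, H.PU, H.Pp, H.PQ, H.Ub, H.tb, H.pc, H.uD, H.cD,
    fun ω hω s hs => (H.uB ω hω s hs).trans hΘ, ?_,
    fun ω ω' hω hω' hy s hs => (H.par ω ω' hω hω' hy s hs).trans hε, ?_, ?_, ?_, ?_, ?_, ?_⟩
  · refine (Pool.STB.Pb_mono q0 fun ω _ hn h => hn ⟨h.1.trans hε, h.2.trans hε⟩).trans
      (H.own.trans hc)
  · linarith [H.fT]
  · linarith [H.fU]
  · linarith [H.fl]
  · linarith [H.few]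
  · linarith [H.fUp]
  · refine (Pool.STB.Pb_mono hQ.nonneg fun w _ hn h => hn
      ⟨fun i k hik => h1.trans (h.1 i k hik), fun i => ⟨(h.2.1 i).1.trans hΘ,
        (h.2.1 i).2.trans hΘ⟩, h.2.2.trans hε⟩).trans (H.dd.trans hc)

/-- Large numbers. -/
theorem ev_nm {C a : ℝ} (ha : 0 < a) : ∃ M₀ : ℕ, ∀ M : ℕ, M₀ ≤ M → 9 ≤ M ∧ C ≤ (M : ℝ) ^ a := by
  have hc := tendsto_natCast_atTop_atTop (R := ℝ)
  have h1 := ((tendsto_rpow_atTop ha).comp hc).eventually_ge_atTop C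
  have h5 := Filter.eventually_ge_atTop (α := ℕ) 9
  obtain ⟨M₀, hM₀⟩ := Filter.eventually_atTop.1 (h1.and h5)
  refine ⟨M₀, fun M hM => ?_⟩
  obtain ⟨g1, g5⟩ := hM₀ M hM
  exact ⟨g5, g1⟩

/-- **The data `Nd4H`, with powers of `M`**, from the data in real form. -/
theorem nd4h_num (K D n : ℕ) {θ e : ℝ} (hθ : 0 < θ) (he : 0 < e) :
    ∃ (θ₀ η : ℝ) (M₀ : ℕ), 0 < θ₀ ∧ θ₀ ≤ 1 ∧ 0 < η ∧
    ∀ {Ω Λ Pt Y X Z Cr V T S : Type} [Fintype Ω]
    {q : Ω → ℝ} {L : Ω → Λ} {P : Ω → Pt} {y : Ω → Y} {x : Ω → X} {Qc : Ω → Z}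
    {ct : Ω → Cr} {ell : Ω → V} {Tm : Ω → T} {Uf : Ω → S} {τ U φc : Ω → ℤ} {σt φ : Ω → ℝ}
    {uL cL : Cr → Ω → Polynomial ℝ} {M : ℕ} {jj : Fin (K + 1) → Fin n} {cT cU c : ℝ},
    RlH q L P y x Qc ct ell Tm Uf τ U φc σt φ uL cL D M jj ((M : ℝ) ^ θ₀) ((M : ℝ) ^ (θ₀ - 1))
      cT cU (η * Real.log M) c → M₀ ≤ M →
    ∃ uP cP : Cr → V → Polynomial ℝ,
      Nd4H q L P y (fun ω => (x ω, ct ω)) Qc Uf ct ell τ U φc φ uP cP D M jj ((M : ℝ) ^ θ)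
        ((M : ℝ) ^ (θ - 1)) (e * Real.log M) c := by
  classical
  obtain ⟨C, hC1, hpre⟩ := nd4h_of K D n
  have hC1' : (1 : ℝ) ≤ C := by exact_mod_cast hC1
  obtain ⟨θs, hθs⟩ : ∃ θs : ℝ, θs = min θ 1 := ⟨_, rfl⟩
  have hθs0 : 0 < θs := by
    rw [hθs]
    exact lt_min hθ one_pos
  have hθs1 : θs ≤ 1 := by
    rw [hθs]
    exact min_le_right _ _
  have hθs2 : θs ≤ θ := by
    rw [hθs]
    exact min_le_left _ _
  obtain ⟨θ₀, hθ₀⟩ : ∃ θ₀ : ℝ, θ₀ = θs / (2 * (C + 1)) := ⟨_, rfl⟩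
  have hθ₀0 : 0 < θ₀ := by rw [hθ₀]; positivity
  have hθ₀C : (C + 1) * θ₀ = θs / 2 := by rw [hθ₀]; field_simp
  have hθ₀s : θ₀ ≤ θs / 2 := by
    rw [← hθ₀C]
    nlinarith
  obtain ⟨η, hη⟩ : ∃ η : ℝ, η = e / C := ⟨_, rfl⟩
  have hC0 : (0 : ℝ) < C := by linarith
  have hη0 : 0 < η := by rw [hη]; positivity
  have hηC : C * η = e := by rw [hη]; field_simp
  obtain ⟨M₂, hM₂⟩ := ev_nm (C := 2 * C) (half_pos hθs0)
  refine ⟨θ₀, η, M₂, hθ₀0, by linarith, hη0, ?_⟩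
  intro Ω Λ Pt Y X Z Cr V T S _ q L P y x Qc ct ell Tm Uf τ U φc σt φ uL cL M jj cT cU c R hM
  obtain ⟨n1, n2⟩ := hM₂ M hM
  have hM9 : (9 : ℝ) ≤ M := by exact_mod_cast n1
  have hM1 : (1 : ℝ) ≤ M := by linarith
  have hM0 : (0 : ℝ) < M := by linarith
  obtain ⟨ℓ, hℓ⟩ : ∃ ℓ : ℝ, ℓ = Real.log M := ⟨_, rfl⟩
  have hℓ0 : 0 < ℓ := by rw [hℓ]; exact Real.log_pos (by linarith)
  obtain ⟨Θs, hΘs⟩ : ∃ Θs : ℝ, Θs = (M : ℝ) ^ θs := ⟨_, rfl⟩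
  obtain ⟨Θ₀, hΘ₀⟩ : ∃ Θ₀ : ℝ, Θ₀ = (M : ℝ) ^ θ₀ := ⟨_, rfl⟩
  obtain ⟨εs, hεs⟩ : ∃ εs : ℝ, εs = (M : ℝ) ^ (θs - 1) := ⟨_, rfl⟩
  obtain ⟨ε₀, hε₀⟩ : ∃ ε₀ : ℝ, ε₀ = (M : ℝ) ^ (θ₀ - 1) := ⟨_, rfl⟩
  rw [← hΘ₀, ← hε₀, ← hℓ] at R
  have hΘs1 : 1 ≤ Θs := by rw [hΘs]; exact Real.one_le_rpow hM1 hθs0.le
  have hΘ₀1 : 1 ≤ Θ₀ := by rw [hΘ₀]; exact Real.one_le_rpow hM1 hθ₀0.le
  have hε₀0 : 0 ≤ ε₀ := by rw [hε₀]; positivity
  have hεs1 : εs ≤ 1 := by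
    rw [hεs]
    exact Real.rpow_le_one_of_one_le_of_nonpos hM1 (by linarith)
  have k1 : C * Θ₀ ^ C * (ε₀ + 1 / M) ≤ εs := by
    have h1 : 1 / (M : ℝ) ≤ ε₀ := by
      rw [hε₀, one_div, ← Real.rpow_neg_one]
      exact Real.rpow_le_rpow_of_exponent_le hM1 (by linarith)
    have h2 : Θ₀ ^ C * ε₀ = (M : ℝ) ^ (θs / 2 - 1) := by
      rw [hΘ₀, hε₀, ← Real.rpow_natCast, ← Real.rpow_mul hM0.le, ← Real.rpow_add hM0]
      congr 1
      rw [← hθ₀C]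
      ring
    have h3 : εs = (M : ℝ) ^ (θs / 2) * (M : ℝ) ^ (θs / 2 - 1) := by
      rw [hεs, ← Real.rpow_add hM0]
      congr 1
      ring
    have h4 : 0 ≤ (M : ℝ) ^ (θs / 2 - 1) := by positivity
    calc C * Θ₀ ^ C * (ε₀ + 1 / M) ≤ C * Θ₀ ^ C * (ε₀ + ε₀) :=
          mul_le_mul_of_nonneg_left (by linarith) (by positivity)
      _ = 2 * C * (Θ₀ ^ C * ε₀) := by ring
      _ ≤ _ := by
        rw [h2, h3]
        exact mul_le_mul_of_nonneg_right n2 h4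
  have k2 : C * Θ₀ ≤ Θs := by
    have h1 : Θ₀ ≤ (M : ℝ) ^ (θs / 2) := by
      rw [hΘ₀]
      exact Real.rpow_le_rpow_of_exponent_le hM1 hθ₀s
    have h2 : Θs = (M : ℝ) ^ (θs / 2) * (M : ℝ) ^ (θs / 2) := by
      rw [hΘs, ← Real.rpow_add hM0]
      congr 1
      ring
    rw [h2]
    refine mul_le_mul (by linarith) h1 (by linarith) (by positivity)
  obtain ⟨uP, cP, H⟩ := hpre (e := e * ℓ) R hΘ₀1 hε₀0 (by positivity) hεs1 k1 k2 (by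
    rw [← hηC]
    exact le_of_eq (by ring))
  refine ⟨uP, cP, ?_⟩
  rw [hℓ] at H
  refine nd4h_mono H (by linarith) ?_ ?_ le_rfl le_rfl
  · rw [hΘs]
    exact Real.rpow_le_rpow_of_exponent_le hM1 hθs2
  · rw [hεs]
    exact Real.rpow_le_rpow_of_exponent_le hM1 (by linarith)

/-- Larger numbers. -/
theorem rlh_mono {T : Type} {q : Ω → ℝ} {L : Ω → Λ} {P : Ω → Pt} {y : Ω → Y} {x : Ω → X} {Qc : Ω → Z}
    {ct : Ω → C} {ell : Ω → V} {Tm : Ω → T} {Uf : Ω → S} {τ U φc : Ω → ℤ} {σt φ : Ω → ℝ}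
    {uL cL : C → Ω → Polynomial ℝ} {K n D M : ℕ} {jj : Fin (K + 1) → Fin n}
    {Θ ε cT cU e c Θ' ε' e' c' : ℝ}
    (R : RlH q L P y x Qc ct ell Tm Uf τ U φc σt φ uL cL D M jj Θ ε cT cU e c) (h0 : 0 < Θ)
    (hΘ : Θ ≤ Θ') (hε : ε ≤ ε') (he : e ≤ e') (hc : c ≤ c') :
    RlH q L P y x Qc ct ell Tm Uf τ U φc σt φ uL cL D M jj Θ' ε' cT cU e' c' := by
  have q0 := R.law.nonneg
  have hQ := cpn_law R.law y n
  have h1 : 1 / Θ' ≤ 1 / Θ := one_div_le_one_div_of_le h0 hΘ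
  refine ⟨R.law, R.yx, R.yc, R.yT, R.ex, R.Ll, R.Lc, R.Qt, R.Tτ, R.PU, R.Pp, R.PQ, R.Ub, R.tb, R.pc,
    R.st, R.deg, fun ω hω s hs => ⟨(R.bd ω hω s hs).1.trans hΘ, (R.bd ω hω s hs).2.trans hΘ⟩, ?_,
    fun ω ω' hω hω' h h' s hs => ⟨(R.cls ω ω' hω hω' h h' s hs).1.trans hε,
      (R.cls ω ω' hω hω' h h' s hs).2.trans hε⟩,
    fun ω ω' hω hω' hy s hs => (R.par ω ω' hω hω' hy s hs).trans hε, ?_, ?_, ?_, ?_, ?_, ?_, ?_, ?_,
    ?_, ?_⟩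
  · refine (Pool.STB.Pb_mono q0 fun ω _ hn h => hn ⟨h.1.trans hε, h.2.trans hε⟩).trans
      (R.own.trans hc)
  · refine (Pool.STB.Pb_mono hQ.nonneg fun w _ hn h => hn
      ⟨fun i k hik => h1.trans (h.1 i k hik), h.2.trans hε⟩).trans (R.dd.trans hc)
  · linarith [R.ef]
  · linarith [R.eo]
  · linarith [R.eU]
  · linarith [R.T1]
  · linarith [R.T2]
  · linarith [R.T3]
  · linarith [R.U1]
  · linarith [R.U2]
  · linarith [R.few]

open Pool.CLO80 (Nd4O nd4) in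
/-- **The slope polynomial of a tuple from the data in real form.** -/
theorem nd4_rlh (K D n : ℕ) {θ' : ℝ} (hθ' : 0 < θ') (hθ'1 : θ' ≤ 1) :
    ∃ (θ₀ η c₀ : ℝ) (M₀ : ℕ), 0 < θ₀ ∧ 0 < η ∧ 0 < c₀ ∧
    ∀ {Ω Λ Pt Y X Z Cr V T S : Type} [Fintype Ω]
    {q : Ω → ℝ} {L : Ω → Λ} {P : Ω → Pt} {y : Ω → Y} {x : Ω → X} {Qc : Ω → Z}
    {ct : Ω → Cr} {ell : Ω → V} {Tm : Ω → T} {Uf : Ω → S} {τ U φc : Ω → ℤ} {σt φ : Ω → ℝ}
    {uL cL : Cr → Ω → Polynomial ℝ} {M : ℕ} {jj : Fin (K + 1) → Fin n} {cT cU : ℝ},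
    RlH q L P y x Qc ct ell Tm Uf τ U φc σt φ uL cL D M jj ((M : ℝ) ^ θ₀) ((M : ℝ) ^ (θ₀ - 1))
      cT cU (η * Real.log M) c₀ → M₀ ≤ M →
    ∃ (Wv : Pt → Polynomial ℝ) (Qp : Λ → ℝ → Polynomial ℝ),
      Nd4O q L P Qc τ U φ K ((K + 1) * D) M ((M : ℝ) ^ θ') ((M : ℝ) ^ (θ' - 1))
        (θ' * Real.log M) θ' Wv Qp := by
  classical
  obtain ⟨θ₁, e₁, c₁, M₁, hθ₁, he₁, hc₁, hnd⟩ := nd4 K D hθ' hθ'1
  obtain ⟨θ₀, η, M₂, hθ₀, -, hη, hnum⟩ := nd4h_num K D n hθ₁ he₁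
  refine ⟨θ₀, η, c₁, max M₁ M₂, hθ₀, hη, hc₁, ?_⟩
  intro Ω Λ Pt Y X Z Cr V T S _ q L P y x Qc ct ell Tm Uf τ U φc σt φ uL cL M jj cT cU R hM
  obtain ⟨uP, cP, H⟩ := hnum R ((le_max_right _ _).trans hM)
  exact hnd H ((le_max_left _ _).trans hM)

end Pool.NA3
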