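import Pool.Agent.H3.NA9.Rlh
import Pool.Agent.H3.NA9.Geo

/-!
# Truncation in the time

`cutP`: the truncation of a polynomial. `cf_fine`: the coefficients of a path of a longer window in the relative
time of a shorter one. `rlh_trunc`: the structure `RlH` with the truncated slopes.
-/

set_option autoImplicit false

namespace Pool.NA3

open Finset Real
open Pool.Agent.H49.Ent Pool.Agent.H32.Dense Pool.STK
open Pool.BFL (Pb)
open Pool.K2S (cpn)
open Pool.CLU (cpn_law cpn_pos)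
open Pool.NDD66 (mu Lam Lam_le)
open Pool.CLO80 (hd)

/-! ### Truncation -/

/-- The truncation. -/
noncomputable def cutP (N : ℕ) (p : Polynomial ℝ) : Polynomial ℝ :=
  ∑ j ∈ range (N + 1), Polynomial.C (p.coeff j) * Polynomial.X ^ j

theorem cutP_deg (N : ℕ) (p : Polynomial ℝ) : (cutP N p).natDegree ≤ N := by
  unfold cutP
  refine Polynomial.natDegree_sum_le_of_forall_le _ _ fun j hj => ?_
  refine (Polynomial.natDegree_C_mul_X_pow_le _ _).trans ?_
  have := Finset.mem_range.1 hj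
  omega

theorem cutP_eval (N : ℕ) (p : Polynomial ℝ) (s : ℝ) :
    (cutP N p).eval s = ∑ j ∈ range (N + 1), p.coeff j * s ^ j := by
  unfold cutP
  rw [Polynomial.eval_finsetSum]
  exact Finset.sum_congr rfl fun j _ => by
    rw [Polynomial.eval_mul, Polynomial.eval_C, Polynomial.eval_pow, Polynomial.eval_X]

theorem cutP_near {D N : ℕ} {p : Polynomial ℝ} {ε : ℝ} (hε : 0 ≤ ε) (hp : p.natDegree ≤ D)
    (h : ∀ j, N < j → |p.coeff j| ≤ ε) {s : ℝ} (hs : |s| ≤ 2) :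
    |p.eval s - (cutP N p).eval s| ≤ (D + 1) * 2 ^ D * ε := by
  have hR : (0 : ℝ) ≤ (D + 1) * 2 ^ D * ε := by positivity
  rw [cutP_eval]
  rcases Nat.lt_or_ge N D with h1 | h1
  · rw [Polynomial.eval_eq_sum_range' (Nat.lt_succ_of_le hp)]
    have e1 : ∑ j ∈ range (D + 1), p.coeff j * s ^ j - ∑ j ∈ range (N + 1), p.coeff j * s ^ j =
        ∑ j ∈ Finset.Ico (N + 1) (D + 1), p.coeff j * s ^ j := by
      rw [Finset.sum_Ico_eq_sub _ (by omega)]
    rw [e1]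
    refine (Finset.abs_sum_le_sum_abs _ _).trans ?_
    have e2 : ∀ j ∈ Finset.Ico (N + 1) (D + 1), |p.coeff j * s ^ j| ≤ 2 ^ D * ε := by
      intro j hj
      have hj' := Finset.mem_Ico.1 hj
      rw [abs_mul, abs_pow, mul_comm]
      refine mul_le_mul ?_ (h j (by omega)) (abs_nonneg _) (by positivity)
      exact (pow_le_pow_left₀ (abs_nonneg _) hs _).trans
        (pow_le_pow_right₀ (by norm_num) (by omega))
    refine (Finset.sum_le_sum e2).trans ?_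
    rw [Finset.sum_const, Nat.card_Ico, nsmul_eq_mul, mul_assoc]
    refine mul_le_mul_of_nonneg_right ?_ (by positivity)
    have : D + 1 - (N + 1) ≤ D + 1 := Nat.sub_le _ _
    exact_mod_cast this
  · rw [Polynomial.eval_eq_sum_range' (show p.natDegree < N + 1 by omega), sub_self, abs_zero]
    exact hR

/-- **The coefficients in the relative time of a shorter window.** -/
theorem cf_fine (N : ℕ) : ∃ C : ℝ, 1 ≤ C ∧ ∀ (g : Polynomial ℝ) (S a β : ℝ), g.natDegree ≤ N →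
    (∀ σ ∈ Set.Icc (0 : ℝ) 1, |g.eval σ| ≤ S) → |a| ≤ 1 → 0 ≤ β → β ≤ 1 → ∀ j : ℕ,
      |((g.comp (Polynomial.X + Polynomial.C a)).comp (Polynomial.C β * Polynomial.X)).coeff j| ≤
        C * S * β ^ j := by
  obtain ⟨C, hC, h⟩ := Pool.Agent.H40.FR.unit_coef N
  refine ⟨(N + 1) * 2 ^ N * C, ?_, ?_⟩
  · have h1 : (1 : ℝ) ≤ 2 ^ N := one_le_pow₀ (by norm_num)
    have h2 : (1 : ℝ) ≤ N + 1 := by linarith [Nat.cast_nonneg (α := ℝ) N]
    have h3 : (1 : ℝ) ≤ (N + 1) * 2 ^ N := by nlinarith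
    nlinarith
  intro g S a β hg hS ha hβ hβ1 j
  have hS0 : 0 ≤ S := (abs_nonneg _).trans (hS 0 ⟨le_rfl, by norm_num⟩)
  have h1 := h g S hg hS
  rw [Polynomial.comp_C_mul_X_coeff, abs_mul, abs_of_nonneg (pow_nonneg hβ j)]
  refine mul_le_mul_of_nonneg_right ?_ (pow_nonneg hβ j)
  have e1 : g.comp (Polynomial.X + Polynomial.C a) =
      ∑ i ∈ range (N + 1), Polynomial.C (g.coeff i) * (Polynomial.X + Polynomial.C a) ^ i := by
    rw [Polynomial.comp, Polynomial.eval₂_eq_sum_range' _ (Nat.lt_succ_of_le hg)]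
  rw [e1, Polynomial.finsetSum_coeff]
  refine (Finset.abs_sum_le_sum_abs _ _).trans ?_
  have e2 : ∀ i ∈ range (N + 1), |(Polynomial.C (g.coeff i) *
      (Polynomial.X + Polynomial.C a) ^ i).coeff j| ≤ C * S * 2 ^ N := by
    intro i hi
    have hi' := Finset.mem_range.1 hi
    rw [Polynomial.coeff_C_mul, abs_mul]
    refine mul_le_mul (h1 i) ?_ (abs_nonneg _) (by positivity)
    rw [Polynomial.coeff_X_add_C_pow, abs_mul, abs_pow, Nat.abs_cast]
    have g1 : |a| ^ (i - j) ≤ 1 := pow_le_one₀ (abs_nonneg _) ha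
    have g2 : ((i.choose j : ℕ) : ℝ) ≤ 2 ^ N := by
      have g3 : i.choose j ≤ 2 ^ i := Nat.choose_le_two_pow i j
      have g4 : 2 ^ i ≤ 2 ^ N := Nat.pow_le_pow_right (by norm_num) (by omega)
      exact_mod_cast g3.trans g4
    calc |a| ^ (i - j) * (i.choose j : ℕ) ≤ 1 * 2 ^ N :=
          mul_le_mul g1 g2 (Nat.cast_nonneg _) zero_le_one
      _ = 2 ^ N := one_mul _
  refine (Finset.sum_le_sum e2).trans (le_of_eq ?_)
  rw [Finset.sum_const, Finset.card_range, nsmul_eq_mul]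
  push_cast
  ring

/-! ### The structure -/

variable {Ω Λ Pt Y X Z C V T S : Type} [Fintype Ω]

/-- **The data in real form with truncated slopes.** -/
theorem rlh_trunc {q : Ω → ℝ} {L : Ω → Λ} {P : Ω → Pt} {y : Ω → Y} {x : Ω → X} {Qc : Ω → Z}
    {ct : Ω → C} {ell : Ω → V} {Tm : Ω → T} {Uf : Ω → S} {τ U φc : Ω → ℤ} {σt φ : Ω → ℝ}
    {uL cL : C → Ω → Polynomial ℝ} {K n D M : ℕ} {jj : Fin (K + 1) → Fin n}
    {Θ ε cT cU e c : ℝ}
    (R : RlH q L P y x Qc ct ell Tm Uf τ U φc σt φ uL cL D M jj Θ ε cT cU e c) (hΘ : 1 ≤ Θ)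
    {Dt : ℕ} {ε₂ ε' : ℝ} (hε₂ : 0 ≤ ε₂) (hD : ∀ a ω, (uL a ω).natDegree ≤ Dt)
    (hcf : ∀ ω ω', 0 < q ω → 0 < q ω' → ct ω = ct ω' → ∀ j, Dt < j →
      |(cL (ct ω) ω').coeff j| ≤ ε₂)
    (hε' : ε + (2 * (K + 2) * (2 * Θ ^ 2) ^ (K + 1)) * ((D + 1) * 2 ^ D * ε₂) ≤ ε')
    (hρ : (D + 1) * 2 ^ D * ε₂ ≤ Θ) :
    RlH q L P y x Qc ct ell Tm Uf τ U φc σt φ uL (fun a ω => cutP Dt (cL a ω)) Dt M jj (2 * Θ) ε'
      cT cU e c := by
  classical
  obtain ⟨ρ, hρe⟩ : ∃ ρ : ℝ, ρ = (D + 1) * 2 ^ D * ε₂ := ⟨_, rfl⟩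
  rw [← hρe] at hε' hρ
  have hρ0 : 0 ≤ ρ := by rw [hρe]; positivity
  have q0 := R.law.nonneg
  have hQ := cpn_law R.law y n
  have hΘ0 : 0 < Θ := by linarith
  have hA1 : (1 : ℝ) ≤ (2 * Θ ^ 2) ^ (K + 1) := one_le_pow₀ (by nlinarith)
  have hK0 : (0 : ℝ) ≤ K := Nat.cast_nonneg K
  have hA2 : 4 * ρ ≤ (2 * (K + 2) * (2 * Θ ^ 2) ^ (K + 1)) * ρ := by
    refine mul_le_mul_of_nonneg_right ?_ hρ0
    nlinarith
  have h4 : ε + 4 * ρ ≤ ε' := by linarith
  have hcut : ∀ ω ω', 0 < q ω → 0 < q ω' → ct ω = ct ω' → ∀ s : ℝ, |s| ≤ 2 →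
      |(cL (ct ω) ω').eval s - (cutP Dt (cL (ct ω) ω')).eval s| ≤ ρ :=
    fun ω ω' a b h s hs => by
      rw [hρe]
      exact cutP_near hε₂ (R.deg _ _).2 (hcf ω ω' a b h) hs
  refine ⟨R.law, R.yx, R.yc, R.yT, R.ex, R.Ll, R.Lc, R.Qt, R.Tτ, R.PU, R.Pp, R.PQ, R.Ub, R.tb, R.pc,
    R.st, fun a ω => ⟨hD a ω, cutP_deg _ _⟩, fun ω hω s hs => ?_, ?_,
    fun ω ω' hω hω' h h' s hs => ?_,
    fun ω ω' hω hω' hy s hs => (R.par ω ω' hω hω' hy s hs).trans (by linarith), ?_, R.ef, R.eo, R.eU,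
    R.T1, R.T2, R.T3, R.U1, R.U2, R.few⟩
  · -- bd
    have h1 := R.bd ω hω s hs
    have h2 := hcut ω ω hω hω rfl s hs
    refine ⟨h1.1.trans (by linarith), ?_⟩
    have h3 := h1.2
    show |(cutP Dt (cL (ct ω) ω)).eval s| ≤ 2 * Θ
    rw [abs_le] at h2 h3 ⊢
    constructor <;> linarith [h2.1, h2.2, h3.1, h3.2]
  · -- own
    refine (Pool.STB.Pb_mono q0 fun ω hω hn h => hn ⟨h.1.trans (by linarith), ?_⟩).trans R.own
    have h2 := hcut ω ω hω hω rfl (σt ω) ((R.st ω hω).1.trans (by norm_num))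
    have h3 := h.2
    show |(cutP Dt (cL (ct ω) ω)).eval (σt ω) - φ ω| ≤ ε'
    rw [abs_le] at h2 h3 ⊢
    constructor <;> linarith [h2.1, h2.2, h3.1, h3.2]
  · -- cls
    have h1 := R.cls ω ω' hω hω' h h' s hs
    have h2 := hcut ω ω hω hω rfl s hs
    have h3 := hcut ω ω' hω hω' h' s hs
    refine ⟨h1.1.trans (by linarith), ?_⟩
    have h5 := h1.2
    show |(cutP Dt (cL (ct ω) ω')).eval s - (cutP Dt (cL (ct ω) ω)).eval s| ≤ ε'
    rw [abs_le] at h2 h3 h5 ⊢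
    constructor <;> linarith [h2.1, h2.2, h3.1, h3.2, h5.1, h5.2]
  · -- dd
    refine (Pool.STB.Pb_mono hQ.nonneg fun w hw hn h => hn ⟨fun i k hik => ?_, ?_⟩).trans R.dd
    · have h1 := h.1 i k hik
      refine le_trans ?_ h1
      exact one_div_le_one_div_of_le hΘ0 (by linarith)
    · obtain ⟨hwq, hwy⟩ := cpn_pos q0 y n w hw
      have hν : ∀ i, 0 < q (hd jj w i) ∧ ct (w 0) = ct (hd jj w i) := fun i => by
        rw [hd_at jj w i]
        exact ⟨hwq _, (R.yc _ _ (hwq _) (hwq 0) (hwy _)).symm⟩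
      have hst := (R.st _ (hwq 0)).1
      have hs2 : |σt (w 0)| ≤ 2 := hst.trans (by norm_num)
      obtain ⟨hh, hhe⟩ : ∃ hh : Fin (K + 2) → ℝ, hh = fun i =>
        (uL (ct (w 0)) (hd jj w i)).eval (σt (w 0)) := ⟨_, rfl⟩
      have hhb : ∀ i, |hh i| ≤ Θ := fun i => by
        have h1 := (R.bd _ (hν i).1 (σt (w 0)) hs2).1
        rw [← (hν i).2] at h1
        rw [hhe]
        exact h1
      have hL : Lam hh ≤ (K + 2) * (2 * Θ ^ 2) ^ (K + 1) := by
        have h1 := Lam_le (K := K) (h := hh) (s := 1 / Θ) (S := 2 * Θ) (by positivity)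
          (fun k k' hkk => by
            rw [hhe]
            exact h.1 k k' hkk)
          (fun k k' => (abs_sub _ _).trans (by linarith [hhb k, hhb k']))
        refine h1.trans (le_of_eq ?_)
        congr 2
        field_simp
      have e1 : ∑ i, mu hh i * (cutP Dt (cL (ct (w 0)) (hd jj w i))).eval (σt (w 0)) =
          ∑ i, mu hh i * (cL (ct (w 0)) (hd jj w i)).eval (σt (w 0)) -
          ∑ i, mu hh i * ((cL (ct (w 0)) (hd jj w i)).eval (σt (w 0)) -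
            (cutP Dt (cL (ct (w 0)) (hd jj w i))).eval (σt (w 0))) := by
        rw [← Finset.sum_sub_distrib]
        exact Finset.sum_congr rfl fun i _ => by ring
      have h2 := h.2
      rw [← hhe] at h2 ⊢
      show |∑ i, mu hh i * (cutP Dt (cL (ct (w 0)) (hd jj w i))).eval (σt (w 0))| ≤ ε'
      rw [e1]
      have h3 : |∑ i, mu hh i * ((cL (ct (w 0)) (hd jj w i)).eval (σt (w 0)) -
            (cutP Dt (cL (ct (w 0)) (hd jj w i))).eval (σt (w 0)))| ≤ Lam hh * ρ := by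
        refine (Finset.abs_sum_le_sum_abs _ _).trans ?_
        unfold Lam
        rw [Finset.sum_mul]
        refine Finset.sum_le_sum fun i _ => ?_
        rw [abs_mul]
        exact mul_le_mul_of_nonneg_left (hcut (w 0) _ (hwq 0) (hν i).1 (hν i).2 _ hs2)
          (abs_nonneg _)
      have h5 : Lam hh * ρ ≤ (K + 2) * (2 * Θ ^ 2) ^ (K + 1) * ρ :=
        mul_le_mul_of_nonneg_right hL hρ0
      have h6 := abs_sub (∑ i, mu hh i * (cL (ct (w 0)) (hd jj w i)).eval (σt (w 0)))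
        (∑ i, mu hh i * ((cL (ct (w 0)) (hd jj w i)).eval (σt (w 0)) -
            (cutP Dt (cL (ct (w 0)) (hd jj w i))).eval (σt (w 0))))
      have h7 : 0 ≤ (K + 2) * (2 * Θ ^ 2) ^ (K + 1) * ρ := by positivity
      linarith

end Pool.NA3
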