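import Pool.Agent.H3.NA9.Ndi
import Pool.Agent.H3.NA9.Trc

/-!
# The geometry of the samples of the near-dead and the near-alive step

`NdG`: the geometry of one sample, of a pair with the same exact point, and the numbers of digits. `ndg_two`: two
samples over one record of the window `t`. `ndg_dd`: the divided difference over the charts of `t`, for one
tuple. `ndg_cf`: the high coefficients of the slope path.
-/

set_option autoImplicit false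

namespace Pool.NA3

open Finset Real MvPolynomial
open Pool.Agent.H49.Ent Pool.Agent.H32.Dense Pool.STK Pool.KA Pool.KSAT Pool.K2S Pool.PB Pool.S6C
open Pool.GEN hiding Det
open Pool.CHT Pool.D2R Pool.LA91 Pool.RCD
open Pool.BFL (Pb)
open Pool.PB.Trl (rt rt_mem t_rt)
open Pool.CLO80 (hd)
open Pool.V0F (cR det_cR)
open Pool.V0Q (cl2_cR)
open Pool.NDC42
open Pool.ND54 (grP grP_deg opl hh hLc pc_near pc_near1 hgt_par hg_near elN cR_mono det_xg)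
open Pool.CLU (cpn_law cpn_pos)
open Pool.NDD66 (mu op op_at)

variable {m J : ℕ}

/-- **The geometry** of one sample of `A`: `G` closed charts of the window `t`, `H` closed labels of the window
`w ≤ t`, `Hr` row labels of the line; `gw`, `gt` the levels of `w`, `t`; `2 ^ k` the crude factor, `q` the
difference of the levels, `B` the surplus of the near digits, `b` the digits of the output, `Θ` the bound of the
slopes over `G` in natural units of `t`, `Bc` that of the slopes over `H`. -/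
structure NdG (F : Fam m J) (A : F.Ω → Prop) (c : ℕ → Fin m) (D D₂ : ℕ) (w t : ℝ) (n : ℕ → ℝ)
    (k q B b : ℕ) (gw gt : ℕ → ℕ) (G : PtT F → ℕ → MvPolynomial (Option (Fin m)) ℝ)
    (H Hr : LnT F → ℕ → MvPolynomial (Option (Fin m)) ℝ) (Θ Bc : ℝ) : Prop where
  inj : Set.InjOn c (Set.Iio 4)
  wt : w ≤ t
  t1 : t ≤ 1
  tb : ⌊t * J⌋₊ + b ≤ J
  lv : ∀ l ≤ 3, gt l ≤ gw l + q
  lw : gw 2 ≤ gt 2
  dG : ∀ s l, (G s l).totalDegree ≤ D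
  pG : ∀ s l, DepC c l (G s l)
  dH : ∀ s l, (H s l).totalDegree ≤ D
  pH : ∀ s l, DepC c l (H s l)
  dR : ∀ s, (Hr s 3).totalDegree ≤ D₂
  pR : ∀ s, DepC c 3 (Hr s 3)
  hHc : ∀ ω ω', A ω → A ω' → cR F A w ω = cR F A w ω' →
    H (slam F ⌊w * J⌋₊ ω) = H (slam F ⌊w * J⌋₊ ω')
  hGc : ∀ ω ω', A ω → A ω' → cR F A t ω = cR F A t ω' → ∀ l ≤ 3,
    G (ptr F J ω) l = G (ptr F J ω') l
  /-- (G1) own heights over the charts of `t`. -/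
  pos : ∀ ω, A ω → ∀ l ≤ 2, |F.x ω (c l) - eval (bt F ω) (G (ptr F J ω) l)| ≤ 1 / 2 ^ gt l
  /-- (G2) charts and labels on the box. -/
  cmp : ∀ ω, A ω → ∀ l ≤ 3, ∃ κ : ℝ, ∀ b, NBx c (G (ptr F J ω)) gt ⌊t * J⌋₊ (F.t ω) l b →
    |eval b (G (ptr F J ω) l) - eval b (H (slam F ⌊w * J⌋₊ ω) l) - κ| ≤ 2 ^ k / 2 ^ gw l
  /-- (G7) the line over the charts of `t`. -/
  pth : ∀ ω, A ω → ∀ l ≤ 2, ∀ s ∈ Set.Icc (0 : ℝ) 1,
    |(op ⌊t * J⌋₊ c (G (ptr F J ω)) (slam F ⌊t * J⌋₊ ω) l).eval s| ≤ 2 ^ k / 2 ^ gt l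
  /-- (G8) the slope of the row label over the chart of `t`, along the line. -/
  slp : ∀ ω, A ω → ∀ s ∈ Set.Icc (0 : ℝ) 1,
    |eval (fun o => (lc ⌊t * J⌋₊ (slam F ⌊t * J⌋₊ ω) o).eval s)
      (pderiv (some (c 2)) (Hr (slam F ⌊w * J⌋₊ ω) 3 - G (ptr F J ω) 3))| ≤
      Θ * 2 ^ gt 2 / 2 ^ gt 3
  /-- the slope over the label of `w`, along the line of the window `w`. -/
  bc : ∀ ω, A ω → ∀ τ ∈ Set.Icc (0 : ℝ) 1,
    |(grP F c D₂ ⌊w * J⌋₊ H Hr (slam F ⌊w * J⌋₊ ω) 2).eval τ| ≤ Bc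
  /-- (N) samples with the same exact point. -/
  nu : ∀ ω ω', A ω → A ω' → ptr F J ω = ptr F J ω' →
    |(F.x ω (c 2) - eval (bt F ω) (G (ptr F J ω) 2)) -
      (F.x ω' (c 2) - eval (bt F ω') (G (ptr F J ω') 2))| ≤ 1 / 2 ^ (gt 2 + b)
  ns : ∀ ω ω', A ω → A ω' → ptr F J ω = ptr F J ω' →
    |eval (bt F ω) (pderiv (some (c 2)) (Hr (slam F ⌊w * J⌋₊ ω) 3 - G (ptr F J ω) 3)) -
      eval (bt F ω') (pderiv (some (c 2)) (Hr (slam F ⌊w * J⌋₊ ω') 3 - G (ptr F J ω') 3))| ≤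
      2 ^ gt 2 / 2 ^ (gt 3 + b)
  nh : ∀ ω ω', A ω → A ω' → ptr F J ω = ptr F J ω' → ∀ l < 2,
    |(F.x ω (c l) - eval (bt F ω) (H (slam F ⌊w * J⌋₊ ω) l)) -
      (F.x ω' (c l) - eval (bt F ω') (H (slam F ⌊w * J⌋₊ ω') l))| ≤ 1 / 2 ^ (n l * J)
  d01 : ∀ l < 2, ((D : ℝ) + 2) / 2 ^ (n l * J) ≤ 1 / 2 ^ (gw l + B)
  d2 : ((D : ℝ) + 3) / 2 ^ (n 2 * J) ≤ 1 / 2 ^ (gw 2 + B)

/-! ### Pairs of samples -/

section

variable {F : Fam m J} {A : F.Ω → Prop} {c : ℕ → Fin m} {D D₂ : ℕ} {w t : ℝ} {n : ℕ → ℝ}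
  {k q B b : ℕ} {gw gt : ℕ → ℕ} {G : PtT F → ℕ → MvPolynomial (Option (Fin m)) ℝ}
  {H Hr : LnT F → ℕ → MvPolynomial (Option (Fin m)) ℝ} {Θ Bc : ℝ}

theorem NdG.wt' (N : NdG F A c D D₂ w t n k q B b gw gt G H Hr Θ Bc) :
    ⌊w * J⌋₊ ≤ ⌊t * J⌋₊ ∧ ⌊t * J⌋₊ ≤ J := by
  refine ⟨Nat.floor_mono (mul_le_mul_of_nonneg_right N.wt (Nat.cast_nonneg J)), ?_⟩
  have := N.tb
  omega

theorem NdG.inj3 (N : NdG F A c D D₂ w t n k q B b gw gt G H Hr Θ Bc) :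
    Set.InjOn c (Set.Iio 3) := N.inj.mono fun y hy => by
  rw [Set.mem_Iio] at hy ⊢
  omega

theorem NdG.hHt (N : NdG F A c D D₂ w t n k q B b gw gt G H Hr Θ Bc) {ω ω' : F.Ω} (a : A ω)
    (a' : A ω') (h : cR F A t ω = cR F A t ω') :
    H (slam F ⌊w * J⌋₊ ω) = H (slam F ⌊w * J⌋₊ ω') := by
  classical
  have hpA : ∀ ω, A ω → 0 < (if A ω then (1 : ℝ) else 0) := fun ω hω => by
    simp only [hω, if_true]
    norm_num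
  have hif : ∀ ω, 0 < (if A ω then (1 : ℝ) else 0) → A ω := fun ω hω => by
    by_contra h8
    simp only [h8, if_false] at hω
    exact lt_irrefl _ hω
  exact N.hHc ω ω' a a' (cR_mono N.wt N.t1 hif ω ω' (hpA ω a) (hpA ω' a') h)

end

set_option maxHeartbeats 1000000 in
/-- **Two samples over one record of** `t`, with the same coarse time. -/
theorem ndg_two (D₂ : ℕ) : ∃ C : ℕ, 1 ≤ C ∧ ∀ {m J D : ℕ} {F : Fam m J} {A : F.Ω → Prop}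
    {c : ℕ → Fin m} {w t : ℝ} {n : ℕ → ℝ} {nt : ℝ} {k q B b : ℕ} {gw gt : ℕ → ℕ}
    {G : PtT F → ℕ → MvPolynomial (Option (Fin m)) ℝ}
    {H Hr : LnT F → ℕ → MvPolynomial (Option (Fin m)) ℝ} {Θ Bc E : ℝ},
    NdG F A c D D₂ w t n k q B b gw gt G H Hr Θ Bc → D ≤ D₂ →
    (1 + 2) * (q + C * (k + 1)) ≤ B →
    E = 2 ^ (C * (k + 1) + (1 + 3) * (q + C * (k + 1))) / 2 ^ B →
    ∀ ω ω', A ω → A ω' → cR F A t ω = cR F A t ω' →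
      (slam F ⌊t * J⌋₊ ω').2.2 = (slam F ⌊t * J⌋₊ ω).2.2 →
      x0 F A c D w n nt H ω = x0 F A c D w n nt H ω' →
      (∀ s : ℝ, |s| ≤ 2 → |(uS F c ⌊t * J⌋₊ gt 2 (cutS (G (ptr F J ω))) ω').eval s -
        (uS F c ⌊t * J⌋₊ gt 2 (cutS (G (ptr F J ω))) ω).eval s -
        ((uS F c ⌊t * J⌋₊ gt 2 (cutS (G (ptr F J ω))) ω').eval 0 -
        (uS F c ⌊t * J⌋₊ gt 2 (cutS (G (ptr F J ω))) ω).eval 0)| ≤ 2 * E) ∧
      (pcC F c D w H 2 0 (n 2) ω = pcC F c D w H 2 0 (n 2) ω' →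
        (∀ s : ℝ, |s| ≤ 2 → |(uS F c ⌊t * J⌋₊ gt 2 (cutS (G (ptr F J ω))) ω').eval s -
          (uS F c ⌊t * J⌋₊ gt 2 (cutS (G (ptr F J ω))) ω).eval s| ≤ E) ∧
        ((∀ τ ∈ Set.Icc (0 : ℝ) 1,
            |(grP F c D₂ ⌊w * J⌋₊ H Hr (slam F ⌊w * J⌋₊ ω) 2).eval τ -
            (grP F c D₂ ⌊w * J⌋₊ H Hr (slam F ⌊w * J⌋₊ ω') 2).eval τ| ≤
              2 ^ gw 2 / 2 ^ (gw 3 + B)) →
          ∀ s : ℝ, |s| ≤ 2 →
            |(cS F c ⌊t * J⌋₊ gt 2 (cutS (G (ptr F J ω))) (Hr (slam F ⌊w * J⌋₊ ω') 3) ω').eval s -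
            (cS F c ⌊t * J⌋₊ gt 2 (cutS (G (ptr F J ω))) (Hr (slam F ⌊w * J⌋₊ ω) 3) ω).eval s| ≤
            E)) := by
  classical
  obtain ⟨C, hC, hpth⟩ := pth_two D₂ 1
  refine ⟨C, hC, ?_⟩
  intro m J D F A c w t n nt k q B b gw gt G H Hr Θ Bc E N hD hB hE ω ω' aω aω' hct htick hx0
  obtain ⟨hwt, htJ⟩ := N.wt'
  have hHe : H (slam F ⌊w * J⌋₊ ω) = H (slam F ⌊w * J⌋₊ ω') := N.hHt aω aω' hct
  obtain ⟨ψ, hψ⟩ : ∃ ψ, ψ = H (slam F ⌊w * J⌋₊ ω) := ⟨_, rfl⟩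
  obtain ⟨χ, hχ⟩ : ∃ χ, χ = cutS (G (ptr F J ω)) := ⟨_, rfl⟩
  have hψd : ∀ l, (ψ l).totalDegree ≤ D₂ := fun l => by
    rw [hψ]
    exact (N.dH _ _).trans hD
  have hψp : ∀ l, DepC c l (ψ l) := fun l => by
    rw [hψ]
    exact N.pH _ _
  have hχd : ∀ l, (χ l).totalDegree ≤ D₂ := fun l => by
    rw [hχ]
    exact (cutS_deg (N.dG _) l).trans hD
  have hχp : ∀ l, DepC c l (χ l) := fun l => by
    rw [hχ]
    exact cutS_dep (N.pG _) l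
  have hopl : ∀ l x, (op ⌊w * J⌋₊ c ψ (slam F ⌊w * J⌋₊ ω) l).eval x =
      (opl F c ⌊w * J⌋₊ H l ω).eval x := fun l x => by
    rw [hψ]
    rfl
  have hopl' : ∀ l x, (op ⌊w * J⌋₊ c ψ (slam F ⌊w * J⌋₊ ω') l).eval x =
      (opl F c ⌊w * J⌋₊ H l ω').eval x := fun l x => by
    rw [hψ, hHe]
    rfl
  have hp2 : pcC F c D w H 2 1 (n 2) ω = pcC F c D w H 2 1 (n 2) ω' :=
    congrArg (fun z => z.2.2.1) hx0
  have hV : ∀ l ≤ 1, ∀ σ ∈ Set.Icc (0 : ℝ) 1, |(op ⌊w * J⌋₊ c ψ (slam F ⌊w * J⌋₊ ω') l).eval σ -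
      (op ⌊w * J⌋₊ c ψ (slam F ⌊w * J⌋₊ ω) l).eval σ| ≤ 1 / 2 ^ (gw l + B) := by
    intro l hl σ hσ
    have h1 : pcC F c D w H l 0 (n l) ω = pcC F c D w H l 0 (n l) ω' :=
      congrFun (congrArg (fun z => z.2.1) hx0) ⟨l, by omega⟩
    have h2 := pc_near N.dH h1 hσ
    rw [hopl, hopl', abs_sub_comm]
    exact h2.trans (N.d01 l (by omega))
  obtain ⟨h1, h2⟩ := hpth (F := F) (c := c) (w := ⌊w * J⌋₊) (t := ⌊t * J⌋₊) (k := k) (q := q)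
    (B := B) (gw := gw) (gt := gt) (χ := χ) (ψ := ψ) (ω := ω) (ω' := ω') N.inj3 hwt htJ N.lv N.lw
    hχd hχp hψd hψp (fun l hl => by
      obtain ⟨κ, hκ⟩ := N.cmp ω aω l hl
      refine ⟨κ, fun b hb => ?_⟩
      rw [hχ, cutS_of _ hl, hψ]
      rw [hχ] at hb
      exact hκ b (cutS_nbx (by omega) hb))
    (fun l hl s hs => by
      have h3 := N.pth ω aω l hl s hs
      rw [hχ, op_eval, cutS_of _ (by omega), ← op_eval]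
      exact h3) htick hV hB
  rw [← hE] at h1 h2
  rw [← hχ]
  refine ⟨fun s hs => ?_, fun hp0 => ⟨fun s hs => ?_, fun hgr s hs => ?_⟩⟩
  · -- parallel
    obtain ⟨κ, hκ⟩ : ∃ κ : ℝ, κ = (opl F c ⌊w * J⌋₊ H 2 ω').coeff 0 -
      (opl F c ⌊w * J⌋₊ H 2 ω).coeff 0 := ⟨_, rfl⟩
    have h3 := h1 κ (fun σ hσ => by
      have h4 := pc_near1 N.dH hp2 hσ
      have h5 : ((D : ℝ) + 1) / 2 ^ (n 2 * J) ≤ 1 / 2 ^ (gw 2 + B) :=
        le_trans (div_le_div_of_nonneg_right (by linarith)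
          (Real.rpow_pos_of_pos (by norm_num) _).le) N.d2
      have h6 := h4.trans h5
      show |(op ⌊w * J⌋₊ c ψ (slam F ⌊w * J⌋₊ ω') 2).eval σ -
        (op ⌊w * J⌋₊ c ψ (slam F ⌊w * J⌋₊ ω) 2).eval σ - κ| ≤ 1 / 2 ^ (gw 2 + B)
      rw [hopl, hopl', hκ]
      rw [abs_le] at h6 ⊢
      constructor <;> linarith [h6.1, h6.2])
    have h4 := h3 s hs
    have h5 := h3 0 (by norm_num)
    show |(uS F c ⌊t * J⌋₊ gt (1 + 1) χ ω').eval s - (uS F c ⌊t * J⌋₊ gt (1 + 1) χ ω).eval s -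
        ((uS F c ⌊t * J⌋₊ gt (1 + 1) χ ω').eval 0 - (uS F c ⌊t * J⌋₊ gt (1 + 1) χ ω).eval 0)| ≤
          2 * E
    rw [abs_le] at h4 h5 ⊢
    constructor <;> linarith [h4.1, h4.2, h5.1, h5.2]
  · have h3 := h1 0 (fun σ hσ => by
      have h4 := pc_near N.dH hp0 hσ
      have h5 : ((D : ℝ) + 2) / 2 ^ (n 2 * J) ≤ 1 / 2 ^ (gw 2 + B) :=
        le_trans (div_le_div_of_nonneg_right (by linarith)
          (Real.rpow_pos_of_pos (by norm_num) _).le) N.d2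
      have h6 := h4.trans h5
      show |(op ⌊w * J⌋₊ c ψ (slam F ⌊w * J⌋₊ ω') 2).eval σ -
        (op ⌊w * J⌋₊ c ψ (slam F ⌊w * J⌋₊ ω) 2).eval σ - 0| ≤ 1 / 2 ^ (gw 2 + B)
      rw [hopl, hopl', sub_zero, abs_sub_comm]
      exact h6) s hs
    rw [mul_zero, sub_zero] at h3
    exact h3
  · refine h2 (Hr (slam F ⌊w * J⌋₊ ω) 3) (Hr (slam F ⌊w * J⌋₊ ω') 3) (N.dR _) (N.dR _)
      (fun σ hσ => ?_) (fun σ hσ => ?_) s hs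
    · have h4 := pc_near N.dH hp0 hσ
      have h5 : ((D : ℝ) + 2) / 2 ^ (n 2 * J) ≤ 1 / 2 ^ (gw 2 + B) :=
        le_trans (div_le_div_of_nonneg_right (by linarith)
          (Real.rpow_pos_of_pos (by norm_num) _).le) N.d2
      have h6 := h4.trans h5
      show |(op ⌊w * J⌋₊ c ψ (slam F ⌊w * J⌋₊ ω') 2).eval σ -
        (op ⌊w * J⌋₊ c ψ (slam F ⌊w * J⌋₊ ω) 2).eval σ| ≤ 1 / 2 ^ (gw 2 + B)
      rw [hopl, hopl', abs_sub_comm]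
      exact h6
    · have h4 := hgr σ hσ
      rw [grP2_eval N.inj3 (fun s l => (N.dH s l).trans hD) N.pH N.dR N.pR,
        grP2_eval N.inj3 (fun s l => (N.dH s l).trans hD) N.pH N.dR N.pR, ← hHe, ← hψ,
        abs_sub_comm] at h4
      exact h4

/-- **The divided difference over the charts of** `t`, for one tuple. -/
theorem ndg_dd (D : ℕ) : ∃ C : ℕ, 1 ≤ C ∧ ∀ {m J D₂ : ℕ} {F : Fam m J} {A : F.Ω → Prop}
    {c : ℕ → Fin m} {w t : ℝ} {n : ℕ → ℝ} {nt : ℝ} {k q B b : ℕ} {gw gt : ℕ → ℕ}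
    {G : PtT F → ℕ → MvPolynomial (Option (Fin m)) ℝ}
    {H Hr : LnT F → ℕ → MvPolynomial (Option (Fin m)) ℝ} {Θ Bc E s Su ε₀ : ℝ}
    {ν : Fin (D + 2) → F.Ω},
    NdG F A c D D₂ w t n k q B b gw gt G H Hr Θ Bc → D ≤ D₂ →
    (1 + 2) * (q + C * (k + 1)) ≤ B → 1 ≤ Θ → 1 / Θ ≤ 2 ^ gt 2 * s → 2 ^ gt 2 * Su ≤ Θ →
    E = 2 ^ (C * (k + 1) + (1 + 3) * (q + C * (k + 1))) / 2 ^ B → C * Θ ^ C * E ≤ 1 →
    (∀ i, A (ν i)) → (∀ i, F.T (ν i) = F.T (ν 0)) → (∀ i, cR F A t (ν i) = cR F A t (ν 0)) →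
    (∀ i, x0 F A c D w n nt H (ν i) = x0 F A c D w n nt H (ν 0)) →
    (∀ i i', i ≠ i' → s ≤ |hh F c D w (n 2) H (ν i) - hh F c D w (n 2) H (ν i')| ∧
      |hh F c D w (n 2) H (ν i) - hh F c D w (n 2) H (ν i')| ≤ Su) →
    |∑ i, mu (fun i => hh F c D w (n 2) H (ν i)) i *
      (grP F c D₂ ⌊w * J⌋₊ H Hr (slam F ⌊w * J⌋₊ (ν i)) 2).eval
        (rt F ⌊w * J⌋₊ (ν 0))| ≤ ε₀ →
    (∀ i l, i ≠ l → 1 / (2 * Θ) ≤
      |(uS F c ⌊t * J⌋₊ gt 2 (cutS (G (ptr F J (ν 0)))) (ν i)).eval (rt F ⌊t * J⌋₊ (ν 0)) -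
        (uS F c ⌊t * J⌋₊ gt 2 (cutS (G (ptr F J (ν 0)))) (ν l)).eval (rt F ⌊t * J⌋₊ (ν 0))|) ∧
    |∑ i, mu (fun i => (uS F c ⌊t * J⌋₊ gt 2 (cutS (G (ptr F J (ν 0)))) (ν i)).eval
        (rt F ⌊t * J⌋₊ (ν 0))) i *
      (cS F c ⌊t * J⌋₊ gt 2 (cutS (G (ptr F J (ν 0)))) (Hr (slam F ⌊w * J⌋₊ (ν i)) 3)
        (ν i)).eval (rt F ⌊t * J⌋₊ (ν 0))| ≤
      2 ^ gt 3 / 2 ^ gt 2 * ε₀ + C * Θ ^ C * E := by
  classical
  obtain ⟨C, hC, hchg⟩ := dd_chg D D 1 le_rfl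
  refine ⟨C, hC, ?_⟩
  intro m J D₂ F A c w t n nt k q B b gw gt G H Hr Θ Bc E s Su ε₀ ν N hD hB hΘ hs hS hE hE1 hA hT
    hct hx0 hsep hsum
  obtain ⟨hwt, htJ⟩ := N.wt'
  have hwJ : ⌊w * J⌋₊ ≤ J := hwt.trans htJ
  have hHe : ∀ i, H (slam F ⌊w * J⌋₊ (ν i)) = H (slam F ⌊w * J⌋₊ (ν 0)) := fun i =>
    N.hHt (hA i) (hA 0) (hct i)
  obtain ⟨ψ, hψ⟩ : ∃ ψ, ψ = H (slam F ⌊w * J⌋₊ (ν 0)) := ⟨_, rfl⟩
  obtain ⟨χ, hχ⟩ : ∃ χ, χ = cutS (G (ptr F J (ν 0))) := ⟨_, rfl⟩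
  have hψi : ∀ i, H (slam F ⌊w * J⌋₊ (ν i)) = ψ := fun i => by rw [hψ, hHe]
  have hψd : ∀ l, (ψ l).totalDegree ≤ D := fun l => by
    rw [hψ]
    exact N.dH _ _
  have hψp : ∀ l, DepC c l (ψ l) := fun l => by
    rw [hψ]
    exact N.pH _ _
  have hχd : ∀ l, (χ l).totalDegree ≤ D := fun l => by
    rw [hχ]
    exact cutS_deg (N.dG _) l
  have hχp : ∀ l, DepC c l (χ l) := fun l => by
    rw [hχ]
    exact cutS_dep (N.pG _) l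
  have hχi : ∀ i, ∀ l ≤ 3, G (ptr F J (ν i)) l = χ l := fun i l hl => by
    rw [hχ, cutS_of _ hl]
    exact N.hGc _ _ (hA i) (hA 0) (hct i) l hl
  have hrt : ∀ (u : ℕ) (i : Fin (D + 2)), rt F u (ν 0) = rt F u (ν i) := fun u i => by
    unfold rt
    rw [hT i]
  have hown : ∀ i l, (op ⌊w * J⌋₊ c ψ (slam F ⌊w * J⌋₊ (ν i)) l).eval (rt F ⌊w * J⌋₊ (ν i)) =
      F.x (ν i) (c l) - eval (bt F (ν i)) (ψ l) := fun i l => op_at hwJ c ψ (ν i) l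
  have hopl : ∀ i l x, (op ⌊w * J⌋₊ c ψ (slam F ⌊w * J⌋₊ (ν i)) l).eval x =
      (opl F c ⌊w * J⌋₊ H l (ν i)).eval x := fun i l x => by
    rw [← hψi i]
    rfl
  obtain ⟨h, hh'⟩ : ∃ h : Fin (D + 2) → ℝ, h = fun i => hh F c D w (n 2) H (ν i) := ⟨_, rfl⟩
  have hg2 : (0 : ℝ) < 2 ^ gt 2 := by positivity
  have hg3 : (0 : ℝ) < 2 ^ gt 3 := by positivity
  have hbt : ∀ (u : ℕ), u ≤ J → ∀ i, (fun o => (lc u (slam F u (ν i)) o).eval (rt F u (ν i))) =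
      bt F (ν i) := fun u hu i => funext fun o => eval_lc F hu (ν i) o
  obtain ⟨r1, r2⟩ := hchg (F := F) (c := c) (t := ⌊t * J⌋₊) (k := k) (q := q) (B := B) (gw := gw)
    (gt := gt) (χ := χ) (ψ := ψ) (R := fun i => Hr (slam F ⌊w * J⌋₊ (ν i)) 3) (ν := ν) (h := h)
    (Θ := Θ) (ε := ε₀) (E := E) N.inj3 N.lv hχd hχp hψd hψp
    (fun l hl => by
      obtain ⟨κ, hκ⟩ := N.cmp (ν 0) (hA 0) l hl
      refine ⟨κ, fun b hb => ?_⟩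
      rw [hχ, cutS_of _ hl, hψ]
      rw [hχ] at hb
      exact hκ b (cutS_nbx (by omega) hb))
    (fun i l hl => by
      have h1 := N.pos (ν i) (hA i) l hl
      rw [hχi i l (by omega)] at h1
      exact h1.trans (div_le_div_of_nonneg_right (one_le_pow₀ one_le_two) (by positivity)))
    hT
    (fun i l hl => by
      have h1 : pcC F c D w H l 0 (n l) (ν i) = pcC F c D w H l 0 (n l) (ν 0) :=
        congrFun (congrArg (fun z => z.2.1) (hx0 i)) ⟨l, by omega⟩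
      have hm := rt_mem F ⌊w * J⌋₊ (ν 0)
      have h2 := pc_near N.dH h1 (τ := rt F ⌊w * J⌋₊ (ν 0)) ⟨hm.1, hm.2⟩
      rw [← hopl, ← hopl, hown 0, hrt ⌊w * J⌋₊ i, hown i] at h2
      exact h2.trans (N.d01 l (by omega)))
    (fun i => by
      have h1 : pcC F c D w H 2 1 (n 2) (ν i) = pcC F c D w H 2 1 (n 2) (ν 0) :=
        congrArg (fun z => z.2.2.1) (hx0 i)
      have h2 := hgt_par N.dH h1 (hrt ⌊w * J⌋₊ i).symm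
      rw [← hopl, ← hopl, hown 0, hown i] at h2
      rw [hh']
      exact h2.trans N.d2) hB hΘ
    (fun i j hij => by
      rw [hh']
      exact hs.trans (mul_le_mul_of_nonneg_left (hsep i j hij).1 hg2.le))
    (fun i j => by
      by_cases hij : i = j
      · rw [hij, sub_self, abs_zero, mul_zero]
        linarith
      · rw [hh']
        exact (mul_le_mul_of_nonneg_left (hsep i j hij).2 hg2.le).trans hS)
    (fun i => by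
      have hm := rt_mem F ⌊t * J⌋₊ (ν i)
      have h1 := N.slp (ν i) (hA i) (rt F ⌊t * J⌋₊ (ν i)) ⟨hm.1, hm.2⟩
      rw [hbt _ htJ i, hχi i 3 le_rfl] at h1
      have e1 : (2 : ℝ) ^ gt 3 / 2 ^ gt 2 * (Θ * 2 ^ gt 2 / 2 ^ gt 3) = Θ := by
        field_simp
      calc (2 : ℝ) ^ gt 3 / 2 ^ gt 2 * |_| ≤ 2 ^ gt 3 / 2 ^ gt 2 * (Θ * 2 ^ gt 2 / 2 ^ gt 3) :=
            mul_le_mul_of_nonneg_left h1 (by positivity)
        _ = Θ := e1)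
    (by
      have e1 : ∀ i, eval (bt F (ν i)) (pderiv (some (c 2))
          (Hr (slam F ⌊w * J⌋₊ (ν i)) 3 - ψ 3)) =
          (grP F c D₂ ⌊w * J⌋₊ H Hr (slam F ⌊w * J⌋₊ (ν i)) 2).eval
            (rt F ⌊w * J⌋₊ (ν 0)) := fun i => by
        rw [grP2_eval N.inj3 (fun s l => (N.dH s l).trans hD) N.pH N.dR N.pR, hψi i,
          hrt ⌊w * J⌋₊ i, hbt _ hwJ i]
      show |∑ i, mu h i * eval (bt F (ν i)) (pderiv (some (c 2))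
          (Hr (slam F ⌊w * J⌋₊ (ν i)) 3 - ψ 3))| ≤ ε₀
      simp only [e1]
      rw [hh']
      exact hsum) hE hE1
  have hu : ∀ i, (uS F c ⌊t * J⌋₊ gt 2 χ (ν i)).eval (rt F ⌊t * J⌋₊ (ν 0)) =
      2 ^ gt 2 * (F.x (ν i) (c 2) - eval (bt F (ν i)) (χ 2)) := fun i => by
    rw [hrt ⌊t * J⌋₊ i, uS_own F htJ]
  have hv : ∀ i, (cS F c ⌊t * J⌋₊ gt 2 χ (Hr (slam F ⌊w * J⌋₊ (ν i)) 3) (ν i)).eval
      (rt F ⌊t * J⌋₊ (ν 0)) = 2 ^ gt 3 / 2 ^ gt 2 * eval (bt F (ν i))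
        (pderiv (some (c 2)) (Hr (slam F ⌊w * J⌋₊ (ν i)) 3 - χ 3)) := fun i => by
    rw [hrt ⌊t * J⌋₊ i, cS_own F htJ]
  rw [← hχ]
  simp only [hu, hv]
  exact ⟨r1, r2⟩

/-- **The high coefficients of the slope path**, in the relative time of `t`. -/
theorem ndg_cf (D₂ : ℕ) : ∃ C : ℝ, 1 ≤ C ∧ ∀ {m J D : ℕ} {F : Fam m J} {A : F.Ω → Prop}
    {c : ℕ → Fin m} {w t : ℝ} {n : ℕ → ℝ} {k q B b : ℕ} {gw gt : ℕ → ℕ}
    {G : PtT F → ℕ → MvPolynomial (Option (Fin m)) ℝ}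
    {H Hr : LnT F → ℕ → MvPolynomial (Option (Fin m)) ℝ} {Θ Bc : ℝ} {Dt : ℕ} {ω : F.Ω},
    NdG F A c D D₂ w t n k q B b gw gt G H Hr Θ Bc → D ≤ D₂ → D + 1 ≤ Dt → A ω →
    ∀ j, Dt < j →
      |(cS F c ⌊t * J⌋₊ gt 2 (cutS (G (ptr F J ω))) (Hr (slam F ⌊w * J⌋₊ ω) 3) ω).coeff j| ≤
        2 ^ gt 3 / 2 ^ gt 2 * (C * Bc * (1 / 2 ^ (⌊t * J⌋₊ - ⌊w * J⌋₊)) ^ (Dt + 1)) := by
  classical
  obtain ⟨C, hC, hfine⟩ := cf_fine (D₂ + 3 * D₂)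
  refine ⟨C, hC, ?_⟩
  intro m J D F A c w t n k q B b gw gt G H Hr Θ Bc Dt ω N hD hDt aω j hj
  obtain ⟨hwt, htJ⟩ := N.wt'
  obtain ⟨τ, hτ⟩ : ∃ τ : ℕ, τ = ⌊t * J⌋₊ - ⌊w * J⌋₊ := ⟨_, rfl⟩
  rw [← hτ]
  obtain ⟨a, ha⟩ : ∃ a : ℝ, a = (((slam F ⌊t * J⌋₊ ω).2.2 % 2 ^ τ : ℕ) : ℝ) / 2 ^ τ := ⟨_, rfl⟩
  obtain ⟨β, hβ⟩ : ∃ β : ℝ, β = 1 / 2 ^ τ := ⟨_, rfl⟩
  rw [← hβ]
  have h2 : (0 : ℝ) < 2 ^ τ := by positivity
  have hβ0 : 0 ≤ β := by rw [hβ]; positivity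
  have hβ1 : β ≤ 1 := by
    rw [hβ, div_le_one h2]
    exact one_le_pow₀ (by norm_num)
  have ha1 : |a| ≤ 1 := by
    have h3 : (slam F ⌊t * J⌋₊ ω).2.2 % 2 ^ τ < 2 ^ τ := Nat.mod_lt _ (by positivity)
    have h4 : (((slam F ⌊t * J⌋₊ ω).2.2 % 2 ^ τ : ℕ) : ℝ) ≤ 2 ^ τ := by exact_mod_cast h3.le
    rw [ha, abs_of_nonneg (by positivity), div_le_one h2]
    exact h4
  obtain ⟨g, hg⟩ : ∃ g, g = grP F c D₂ ⌊w * J⌋₊ H Hr (slam F ⌊w * J⌋₊ ω) 2 := ⟨_, rfl⟩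
  obtain ⟨P₁, hP₁⟩ : ∃ P₁, P₁ = (g.comp (Polynomial.X + Polynomial.C a)).comp
    (Polynomial.C β * Polynomial.X) := ⟨_, rfl⟩
  obtain ⟨P₂, hP₂⟩ : ∃ P₂ : Polynomial ℝ, P₂ = MvPolynomial.aeval (lc ⌊t * J⌋₊ (slam F ⌊t * J⌋₊ ω))
    (pderiv (some (c 2)) (cutS (G (ptr F J ω)) 3 - H (slam F ⌊w * J⌋₊ ω) 3)) := ⟨_, rfl⟩
  have hP₂d : P₂.natDegree ≤ D := by
    rw [hP₂]
    refine Pool.KBX.natDegree_aeval_le _ _ (natDegree_lc _ _) ?_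
    exact totalDegree_pdσ ((totalDegree_sub _ _).trans (max_le (cutS_deg (N.dG _) 3)
      (N.dH _ _))) _
  have hsplit : cS F c ⌊t * J⌋₊ gt 2 (cutS (G (ptr F J ω))) (Hr (slam F ⌊w * J⌋₊ ω) 3) ω =
      Polynomial.C (2 ^ gt 3 / 2 ^ gt 2) * (P₁ - P₂) := by
    refine Polynomial.funext fun s => ?_
    rw [cS_eval, Polynomial.eval_mul, Polynomial.eval_C, Polynomial.eval_sub, hP₁, hP₂,
      Polynomial.eval_comp, Polynomial.eval_comp, Polynomial.eval_add, Polynomial.eval_mul,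
      Polynomial.eval_X, Polynomial.eval_X, Polynomial.eval_C, Polynomial.eval_C,
      Pool.KBX.eval_aeval_poly, hg,
      grP2_eval N.inj3 (fun s l => (N.dH s l).trans hD) N.pH N.dR N.pR]
    have e1 : (fun o => (lc ⌊t * J⌋₊ (slam F ⌊t * J⌋₊ ω) o).eval s) =
        fun o => (lc ⌊w * J⌋₊ (slam F ⌊w * J⌋₊ ω) o).eval (β * s + a) := funext fun o => by
      rw [lc_fine F hwt htJ ω s o]
      congr 1
      unfold stm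
      rw [← hτ, ha, hβ]
      ring
    rw [e1]
    show 2 ^ gt 3 / 2 ^ gt 2 * _ = _
    simp only [map_sub]
    ring
  rw [hsplit, Polynomial.coeff_C_mul, Polynomial.coeff_sub,
    Polynomial.coeff_eq_zero_of_natDegree_lt (lt_of_le_of_lt hP₂d (by omega)), sub_zero, abs_mul,
    abs_of_pos (show (0 : ℝ) < 2 ^ gt 3 / 2 ^ gt 2 by positivity)]
  refine mul_le_mul_of_nonneg_left ?_ (by positivity)
  have h5 := hfine g Bc a β (by rw [hg]; exact grP_deg F c D₂ _ H Hr _ 2) (fun σ hσ => by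
    rw [hg]
    exact N.bc ω aω σ hσ) ha1 hβ0 hβ1 j
  rw [← hP₁] at h5
  have hBc0 : 0 ≤ Bc := (abs_nonneg _).trans (N.bc ω aω 0 ⟨le_rfl, zero_le_one⟩)
  refine h5.trans (mul_le_mul_of_nonneg_left ?_ (by positivity))
  exact pow_le_pow_of_le_one hβ0 hβ1 hj

end Pool.NA3
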