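import Pool.Agent.H3.NA9.Asm
import Pool.Agent.H54.ND.Evt

/-!
# The data in real form, from the letters of the near-dead step

`chi`: the charts of the window `t` as functions of its record. `grP2_eval`: the path of the last component of
the gradient. `uf_cnt`: the number of the far digits of the height, given its `b` digits over the charts of `t`.
`rlh_geo`: the structure `RlH` from the geometry of one sample, the divided difference over the labels of the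
window `w`, and the entropies of one sample.
-/

set_option autoImplicit false

namespace Pool.NA3

open Finset Real MvPolynomial
open Pool.Agent.H49.Ent Pool.Agent.H32.Dense Pool.STK Pool.KA Pool.KSAT Pool.K2S Pool.PB Pool.S6C
open Pool.GEN hiding Det
open Pool.CHT Pool.D2R Pool.LA91 Pool.RCD
open Pool.BFL (Pb)
open Pool.PB.Trl (rt rt_mem t_rt)
open Pool.CLO80 (hd)
open Pool.T4J (ch_one)
open Pool.V0F (cR det_cR)
open Pool.V0Q (cl2_cR)
open Pool.NDC42
open Pool.ND54 (grP opl hh hLc pc_near pc_near1 hgt_par hg_near elN cR_mono)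
open Pool.CLU (cpn_law cpn_pos)
open Pool.NDD66 (mu op_at njP_eval ncp_last)

variable {m J : ℕ}

/-! ### The charts of the window -/

open Classical in
/-- A system of charts, the first four. -/
noncomputable def cutS (G : ℕ → MvPolynomial (Option (Fin m)) ℝ) (l : ℕ) :
    MvPolynomial (Option (Fin m)) ℝ := if l ≤ 3 then G l else 0

theorem cutS_of (G : ℕ → MvPolynomial (Option (Fin m)) ℝ) {l : ℕ} (hl : l ≤ 3) :
    cutS G l = G l := if_pos hl

theorem cutS_deg {G : ℕ → MvPolynomial (Option (Fin m)) ℝ} {D : ℕ}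
    (h : ∀ l, (G l).totalDegree ≤ D) (l : ℕ) : (cutS G l).totalDegree ≤ D := by
  unfold cutS
  split_ifs
  · exact h l
  · rw [totalDegree_zero]
    exact Nat.zero_le _

theorem depC_zero (c : ℕ → Fin m) (i : ℕ) : DepC c i 0 := fun b b' _ _ => by
  rw [map_zero, map_zero]

theorem cutS_dep {c : ℕ → Fin m} {G : ℕ → MvPolynomial (Option (Fin m)) ℝ}
    (h : ∀ l, DepC c l (G l)) (l : ℕ) : DepC c l (cutS G l) := by
  unfold cutS
  split_ifs
  · exact h l
  · exact depC_zero c l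

theorem cutS_nbx {c : ℕ → Fin m} {G : ℕ → MvPolynomial (Option (Fin m)) ℝ} {g : ℕ → ℕ} {a : ℕ}
    {t : ℝ} {i : ℕ} (hi : i ≤ 4) {b : Option (Fin m) → ℝ} (h : NBx c (cutS G) g a t i b) :
    NBx c G g a t i b := ⟨h.1, fun l hl => by
      have h1 := h.2 l hl
      rw [cutS_of G (by omega)] at h1
      exact h1⟩

open Classical in
/-- **The charts of the window** `t` as functions of its record. -/
noncomputable def chi (F : Fam m J) (A : F.Ω → Prop) (t : ℝ)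
    (G : PtT F → ℕ → MvPolynomial (Option (Fin m)) ℝ)
    (z : {D : F.Ω → Prop // Cl2 (ptr F J) (vg t J F) A D} → Prop) :
    ℕ → MvPolynomial (Option (Fin m)) ℝ :=
  if h : ∃ ω, A ω ∧ cR F A t ω = z then cutS (G (ptr F J h.choose)) else fun _ => 0

theorem chi_eq {F : Fam m J} {A : F.Ω → Prop} {t : ℝ}
    {G : PtT F → ℕ → MvPolynomial (Option (Fin m)) ℝ}
    (hGc : ∀ ω ω', A ω → A ω' → cR F A t ω = cR F A t ω' → ∀ l ≤ 3,
      G (ptr F J ω) l = G (ptr F J ω') l) {ω : F.Ω} (hω : A ω) :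
    chi F A t G (cR F A t ω) = cutS (G (ptr F J ω)) := by
  classical
  have hex : ∃ ω', A ω' ∧ cR F A t ω' = cR F A t ω := ⟨ω, hω, rfl⟩
  unfold chi
  rw [dif_pos hex]
  funext l
  by_cases hl : l ≤ 3
  · rw [cutS_of _ hl, cutS_of _ hl]
    exact hGc _ _ hex.choose_spec.1 hω hex.choose_spec.2 l hl
  · unfold cutS
    rw [if_neg hl, if_neg hl]

theorem chi_deg {F : Fam m J} {A : F.Ω → Prop} {t : ℝ}
    {G : PtT F → ℕ → MvPolynomial (Option (Fin m)) ℝ} {D : ℕ}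
    (h : ∀ s l, (G s l).totalDegree ≤ D)
    (z : {D : F.Ω → Prop // Cl2 (ptr F J) (vg t J F) A D} → Prop) (l : ℕ) :
    (chi F A t G z l).totalDegree ≤ D := by
  classical
  unfold chi
  split_ifs
  · exact cutS_deg (h _) l
  · rw [totalDegree_zero]
    exact Nat.zero_le _

/-! ### The last component of the gradient -/

/-- **The path of the last component** of the gradient is the path of the derivative. -/
theorem grP2_eval {F : Fam m J} {c : ℕ → Fin m} {D W : ℕ} (hc : Set.InjOn c (Set.Iio 3))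
    {H Hr : LnT F → ℕ → MvPolynomial (Option (Fin m)) ℝ} (hH : ∀ s l, (H s l).totalDegree ≤ D)
    (hHd : ∀ s l, DepC c l (H s l)) (hR : ∀ s, (Hr s 3).totalDegree ≤ D)
    (hRd : ∀ s, DepC c 3 (Hr s 3)) (s : LnT F) (σ : ℝ) :
    (grP F c D W H Hr s 2).eval σ = eval (fun o => (lc W s o).eval σ)
      (pderiv (some (c 2)) (Hr s 3 - H s 3)) := by
  unfold grP
  rw [if_neg (by norm_num), Pool.KBX.eval_aeval_poly]
  have hd : DepC c 3 (Hr s 3 - H s 3) := fun b b' h1 h2 => by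
    rw [map_sub, map_sub, hRd _ b b' h1 h2, hHd _ 3 b b' h1 h2]
  rw [njP_eval hc (hH _) (hHd _) ((totalDegree_sub _ _).trans (max_le (hR _) (hH _ _))) hd _
    (by norm_num), ncp_last hc (hHd _) hd]

/-! ### The count -/

/-- **The number of the far digits of the height**, given its `b` digits over the charts of `t`, the record of
`t`, the point data and the near positions of the first two coordinates. -/
theorem uf_cnt (D : ℕ) : ∃ C : ℕ, 1 ≤ C ∧ ∀ {m J : ℕ} {F : Fam m J} {A : F.Ω → Prop}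
    {c : ℕ → Fin m} {w t : ℝ} {n : ℕ → ℝ} {k q B b : ℕ} {gw gt : ℕ → ℕ}
    {G : PtT F → ℕ → MvPolynomial (Option (Fin m)) ℝ}
    {H : LnT F → ℕ → MvPolynomial (Option (Fin m)) ℝ},
    0 < Pe F.p A → Set.InjOn c (Set.Iio 4) → w ≤ t → t ≤ 1 → ⌊t * J⌋₊ + b ≤ J →
    (∀ l ≤ 2, gt l ≤ gw l + q) →
    (∀ s l, (G s l).totalDegree ≤ D) → (∀ s l, DepC c l (G s l)) →
    (∀ s l, (H s l).totalDegree ≤ D) → (∀ s l, DepC c l (H s l)) →
    (∀ ω ω', A ω → A ω' → cR F A w ω = cR F A w ω' →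
      H (slam F ⌊w * J⌋₊ ω) = H (slam F ⌊w * J⌋₊ ω')) →
    (∀ ω ω', A ω → A ω' → cR F A t ω = cR F A t ω' → ∀ l ≤ 3,
      G (ptr F J ω) l = G (ptr F J ω') l) →
    (∀ ω, A ω → ∀ l ≤ 2, |F.x ω (c l) - eval (bt F ω) (G (ptr F J ω) l)| ≤ 1 / 2 ^ gt l) →
    (∀ ω, A ω → ∀ l ≤ 2, ∃ κ : ℝ, ∀ b, NBx c (G (ptr F J ω)) gt ⌊t * J⌋₊ (F.t ω) l b →
      |eval b (G (ptr F J ω) l) - eval b (H (slam F ⌊w * J⌋₊ ω) l) - κ| ≤ 2 ^ k / 2 ^ gw l) →
    (∀ l < 2, 1 / (2 : ℝ) ^ (n l * J) ≤ 1 / 2 ^ (gw l + B)) →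
    4 * (q + C * (k + 1)) + b ≤ B → (gt 2 + b : ℝ) ≤ n 2 * J →
    CH (Pool.Agent.H49.Ent.cond F.p A True) (hgC F c w H 2 (n 2))
      (fun ω => (⌊(2 : ℝ) ^ b * uo F c ⌊t * J⌋₊ gt 2 (chi F A t G) (cR F A t) ω⌋,
        ((cR F A t ω, F.W ω), fun l : Fin 2 => hgC F c w H l (n l) ω))) ≤
      (n 2 * J - gt 2 - b) * Real.log 2 + 4 := by
  classical
  obtain ⟨C, hC, hbox⟩ := pt_box D 1
  refine ⟨C, hC, ?_⟩
  intro m J F A c w t n k q B b gw gt G H hA hc hwt ht1 htb hg hGd hGp hHd hHp hHc hGc hpos hcmp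
    hn hB hn2
  have hpl := isLaw_cond F.isLaw hA
  have hAp : ∀ ω, 0 < Pool.Agent.H49.Ent.cond F.p A True ω → A ω := fun ω hω =>
    of_eq_true ((cond_pos_iff F.isLaw.nonneg A True ω).1 hω).2
  have htJ : ⌊t * J⌋₊ ≤ J := by omega
  have hwW : ⌊w * J⌋₊ ≤ J := le_trans (Nat.floor_mono (mul_le_mul_of_nonneg_right hwt
    (Nat.cast_nonneg J))) htJ
  have hb0 : (0 : ℝ) < 2 ^ b := by positivity
  have hg0 : (0 : ℝ) < 2 ^ gt 2 := by positivity
  have hN0 : (0 : ℝ) < 2 ^ (n 2 * J) := Real.rpow_pos_of_pos (by norm_num) _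
  obtain ⟨Kn, hKn⟩ : ∃ Kn : ℕ, Kn = ⌈2 * ((2 : ℝ) ^ (n 2 * J) / (2 ^ gt 2 * 2 ^ b)) + 1⌉₊ :=
    ⟨_, rfl⟩
  have hx : ∀ ω, A ω → uo F c ⌊t * J⌋₊ gt 2 (chi F A t G) (cR F A t) ω =
      2 ^ gt 2 * (F.x ω (c 2) - eval (bt F ω) (G (ptr F J ω) 2)) := fun ω hω => by
    unfold uo
    rw [uS_own F htJ, chi_eq hGc hω, cutS_of _ (by norm_num)]
  have key := ch_one (K := Kn) hpl (hgC F c w H 2 (n 2))
    (fun ω => (⌊(2 : ℝ) ^ b * uo F c ⌊t * J⌋₊ gt 2 (chi F A t G) (cR F A t) ω⌋,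
      ((cR F A t ω, F.W ω), fun l : Fin 2 => hgC F c w H l (n l) ω))) (fun ω ω' hω hω' e => by
    have aω := hAp ω hω
    have aω' := hAp ω' hω'
    have e1 := (Prod.ext_iff.1 e).1
    have e2 := (Prod.ext_iff.1 (Prod.ext_iff.1 (Prod.ext_iff.1 e).2).1).1
    have e3 : F.T ω = F.T ω' :=
      (Prod.ext_iff.1 (Prod.ext_iff.1 (Prod.ext_iff.1 (Prod.ext_iff.1 e).2).1).2).1
    have e4 := (Prod.ext_iff.1 (Prod.ext_iff.1 e).2).2
    have ew : cR F A w ω = cR F A w ω' := cR_mono hwt ht1 hAp ω ω' hω hω' e2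
    obtain ⟨ψ, hψ⟩ : ∃ ψ, ψ = H (slam F ⌊w * J⌋₊ ω) := ⟨_, rfl⟩
    have hψ' : H (slam F ⌊w * J⌋₊ ω') = ψ := by
      rw [hψ]
      exact (hHc ω ω' aω aω' ew).symm
    have hG2 : ∀ l ≤ 3, G (ptr F J ω') l = G (ptr F J ω) l := fun l hl =>
      (hGc ω ω' aω aω' e2 l hl).symm
    have htt : F.t ω' = F.t ω := by
      show (F.T ω' : ℝ) / 2 ^ J = (F.T ω : ℝ) / 2 ^ J
      rw [e3]
    -- over the charts of `t`
    have k1 : |(F.x ω (c 2) - eval (bt F ω) (G (ptr F J ω) 2)) -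
        (F.x ω' (c 2) - eval (bt F ω') (G (ptr F J ω) 2))| ≤ 1 / (2 ^ gt 2 * 2 ^ b) := by
      have h1 := Int.abs_sub_lt_one_of_floor_eq_floor e1
      rw [hx ω aω, hx ω' aω', hG2 2 (by norm_num), ← mul_sub, ← mul_sub, ← mul_assoc, abs_mul,
        abs_of_pos (mul_pos hb0 hg0)] at h1
      rw [le_div_iff₀ (mul_pos hg0 hb0), mul_comm]
      calc (2 : ℝ) ^ gt 2 * 2 ^ b * _ = 2 ^ b * 2 ^ gt 2 * _ := by rw [mul_comm ((2 : ℝ) ^ gt 2)]
        _ ≤ 1 := h1.le
    -- the difference of the charts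
    obtain ⟨κ, hκ⟩ := hcmp ω aω 2 le_rfl
    obtain ⟨Q, hQ⟩ : ∃ Q, Q = G (ptr F J ω) 2 - ψ 2 - MvPolynomial.C κ := ⟨_, rfl⟩
    have hQd : Q.totalDegree ≤ D := by
      rw [hQ]
      refine (totalDegree_sub _ _).trans (max_le ((totalDegree_sub _ _).trans
        (max_le (hGd _ _) ?_)) ?_)
      · rw [hψ]
        exact hHd _ _
      · rw [totalDegree_C]
        exact Nat.zero_le _
    have hQp : DepC c 2 Q := fun b b' h1 h2 => by
      rw [hQ, map_sub, map_sub, map_sub, map_sub, eval_C, eval_C, hGp _ 2 b b' h1 h2, hψ,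
        hHp _ 2 b b' h1 h2]
    have k2 := hbox (c := c) (t := ⌊t * J⌋₊) (k := k) (q := q) (B := B) (gw := gw) (gt := gt)
      (χ := cutS (G (ptr F J ω))) (ψ := ψ) (Q := Q) (M := 2 ^ k / 2 ^ gw 2) (t₀ := F.t ω)
      (b := bt F ω) (b' := bt F ω') (hc.mono fun y hy => by
        rw [Set.mem_Iio] at hy ⊢
        omega) (fun l hl => hg l (by omega)) (cutS_deg (hGd _)) (cutS_dep (hGp _))
      (fun l => by rw [hψ]; exact hHd _ _) (fun l => by rw [hψ]; exact hHp _ _) hQd hQp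
      (by positivity) (fun l hl => by
        obtain ⟨κ', h1⟩ := hcmp ω aω l (by omega)
        refine ⟨κ', fun b hb => ?_⟩
        rw [cutS_of _ (by omega : l ≤ 3), hψ]
        exact h1 b (cutS_nbx (by omega) hb)) (fun b hb => by
        rw [hQ, map_sub, map_sub, eval_C, hψ]
        exact hκ b (cutS_nbx (by norm_num) hb)) rfl htt (fun l hl => by
        rw [cutS_of _ (by omega : l ≤ 3)]
        refine (hpos ω aω l (by omega)).trans (div_le_div_of_nonneg_right ?_ (by positivity))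
        exact one_le_pow₀ one_le_two) (fun l hl => by
        have h1 : hgC F c w H l (n l) ω = hgC F c w H l (n l) ω' :=
          congrFun e4 ⟨l, by omega⟩
        have h2 := hg_near hwW h1
        unfold opl at h2
        rw [op_at hwW, op_at hwW, hψ', ← hψ, abs_sub_comm] at h2
        exact h2.trans (hn l (by omega))) (by omega)
    have k3 : |(F.x ω (c 2) - eval (bt F ω) (ψ 2)) - (F.x ω' (c 2) - eval (bt F ω') (ψ 2))| ≤
        2 / (2 ^ gt 2 * 2 ^ b) := by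
      have h1 : 2 ^ (C * (k + 1) + (1 + 1) * (q + C * (k + 1))) * (2 ^ k / 2 ^ gw 2) / 2 ^ B ≤
          (1 : ℝ) / (2 ^ gt 2 * 2 ^ b) := by
        rw [mul_div_assoc', div_div, ← pow_add, ← pow_add, ← pow_add, div_le_div_iff₀
          (by positivity) (by positivity), one_mul, ← pow_add]
        refine pow_le_pow_right₀ (by norm_num) ?_
        have h2 := hg 2 le_rfl
        have h3 : k + 1 ≤ C * (k + 1) := Nat.le_mul_of_pos_left _ hC
        omega
      have h2 := k2.trans h1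
      rw [hQ] at h2
      simp only [map_sub, eval_C] at h2
      have e5 : (2 : ℝ) / (2 ^ gt 2 * 2 ^ b) = 1 / (2 ^ gt 2 * 2 ^ b) + 1 / (2 ^ gt 2 * 2 ^ b) := by
        ring
      rw [e5]
      rw [abs_le] at k1 h2 ⊢
      constructor <;> linarith [k1.1, k1.2, h2.1, h2.2]
    have hv : ∀ ν : F.Ω, hgC F c w H 2 (n 2) ν = ⌊(2 : ℝ) ^ (n 2 * J) * (F.x ν (c 2) -
        eval (bt F ν) (H (slam F ⌊w * J⌋₊ ν) 2))⌋ := fun ν => by
      unfold hgC
      rw [Pool.OWN54.ojet_zero]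
    rw [hv, hv, hψ', ← hψ]
    have k4 : |(2 : ℝ) ^ (n 2 * J) * (F.x ω (c 2) - eval (bt F ω) (ψ 2)) -
        2 ^ (n 2 * J) * (F.x ω' (c 2) - eval (bt F ω') (ψ 2))| ≤
        2 * (2 ^ (n 2 * J) / (2 ^ gt 2 * 2 ^ b)) := by
      rw [← mul_sub, abs_mul, abs_of_pos hN0]
      calc (2 : ℝ) ^ (n 2 * J) * _ ≤ 2 ^ (n 2 * J) * (2 / (2 ^ gt 2 * 2 ^ b)) :=
            mul_le_mul_of_nonneg_left k3 hN0.le
        _ = _ := by ring
    refine (fl_near k4).trans ?_
    rw [hKn]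
    exact Nat.le_ceil _)
  refine key.trans ?_
  obtain ⟨X, hX⟩ : ∃ X : ℝ, X = (2 : ℝ) ^ (n 2 * J) / (2 ^ gt 2 * 2 ^ b) := ⟨_, rfl⟩
  have hXe : X = (2 : ℝ) ^ (n 2 * J - gt 2 - b) := by
    rw [hX, Real.rpow_sub (by norm_num), Real.rpow_sub (by norm_num), Real.rpow_natCast,
      Real.rpow_natCast, div_div]
  have hX1 : 1 ≤ X := by
    rw [hXe]
    exact Real.one_le_rpow (by norm_num) (by linarith)
  have hKn' : (Kn : ℝ) ≤ 2 * X + 2 := by
    rw [hKn, ← hX]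
    have := Nat.ceil_lt_add_one (show 0 ≤ 2 * X + 1 by linarith)
    linarith
  have h1 : Real.log (2 * Kn + 1) ≤ Real.log (X * 9) :=
    Real.log_le_log (by positivity) (by linarith)
  have h2 : Real.log (X * 9) = (n 2 * J - gt 2 - b) * Real.log 2 + Real.log 9 := by
    rw [Real.log_mul (by linarith) (by norm_num), hXe, Real.log_rpow (by norm_num)]
  have h3 : Real.log 9 ≤ 4 := by
    have l2 := Real.log_two_lt_d9
    have a1 : Real.log 9 ≤ Real.log 16 := Real.log_le_log (by norm_num) (by norm_num)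
    have a2 : Real.log 16 = 4 * Real.log 2 := by
      rw [show (16 : ℝ) = 2 ^ 4 by norm_num, Real.log_pow]
      push_cast
      ring
    linarith
  linarith

end Pool.NA3
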