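import Mathlib

/-!
# The numbers of `rlh_geo`
-/

set_option autoImplicit false

namespace Pool.NA3

open Real

/-- The numbers of `rlh_geo`: `z` = the truncated part, `d = 1 / 2 ^ b`, `s = s₃ * ε₀`. -/
theorem geo_num {Cd D D₂ : ℕ} {C Ca Cf Θ X s E Ed d z ε₁ : ℝ}
    (hΘ : 1 ≤ Θ) (hX1 : 1 ≤ X) (hXd : Θ ^ Cd ≤ X) (hXD : Θ ^ (2 * D + 2) ≤ X) (hs : 0 ≤ s)
    (hE : 0 < E) (hEd : Ed ≤ E) (hd : 0 ≤ d) (hz : 0 ≤ z) (hCa : 1 ≤ Ca)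
    (hC8 : 8 + (Cd : ℝ) ≤ C)
    (hCA : 2 * (D + 2) * (8 * Ca ^ 2) ^ (D + 1) * (((D₂ + 1 : ℕ) + 1) * 2 ^ (D₂ + 1) * Cf) ≤ C)
    (hCf1 : ((D₂ + 1 : ℕ) + 1) * 2 ^ (D₂ + 1) * Cf ≤ C)
    (h : C * X * (s + E + d + z) ≤ ε₁) (h1 : ε₁ ≤ 1) :
    Cd * Θ ^ Cd * Ed ≤ 1 ∧
    (((D₂ + 1 : ℕ) : ℝ) + 1) * 2 ^ (D₂ + 1) * (Cf * z) ≤ Ca * (2 * Θ) ∧
    (s + (2 * E + Cd * Θ ^ Cd * E)) + 2 * d +
      (2 * ((D : ℝ) + 2) * (2 * (Ca * (2 * Θ)) ^ 2) ^ (D + 1)) *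
      ((((D₂ + 1 : ℕ) : ℝ) + 1) * 2 ^ (D₂ + 1) * (Cf * z)) ≤ ε₁ := by
  have hCd0 : (0 : ℝ) ≤ Cd := Nat.cast_nonneg _
  have hC0 : (0 : ℝ) ≤ C := by linarith
  have hCX : (0 : ℝ) ≤ C * X := by positivity
  have y1 : C * X * s + C * X * E + C * X * d + C * X * z ≤ ε₁ := by
    refine le_trans (le_of_eq ?_) h
    ring
  have hCX8 : 8 ≤ C * X := by nlinarith
  have w1 : 8 * s ≤ C * X * s := mul_le_mul_of_nonneg_right hCX8 hs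
  have w2 : 8 * d ≤ C * X * d := mul_le_mul_of_nonneg_right hCX8 hd
  have w3 : 8 * E + Cd * Θ ^ Cd * E ≤ C * X * E := by
    rw [← add_mul]
    refine mul_le_mul_of_nonneg_right ?_ hE.le
    have h1 : (Cd : ℝ) * Θ ^ Cd ≤ Cd * X := mul_le_mul_of_nonneg_left hXd hCd0
    have h2 : (8 : ℝ) ≤ 8 * X := by linarith
    have h3 : (8 + Cd) * X ≤ C * X := mul_le_mul_of_nonneg_right (by linarith) (by linarith)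
    linarith
  have hEdE' : Cd * Θ ^ Cd * Ed ≤ Cd * Θ ^ Cd * E := mul_le_mul_of_nonneg_left hEd (by positivity)
  have z4 : 0 ≤ C * X * z := by positivity
  have hEd1 : Cd * Θ ^ Cd * Ed ≤ 1 := by linarith
  have w4 : (2 * ((D : ℝ) + 2) * (2 * (Ca * (2 * Θ)) ^ 2) ^ (D + 1)) *
      ((((D₂ + 1 : ℕ) : ℝ) + 1) * 2 ^ (D₂ + 1) * (Cf * z)) ≤ C * X * z := by
    have h1 : (2 * (Ca * (2 * Θ)) ^ 2) ^ (D + 1) = (8 * Ca ^ 2) ^ (D + 1) * Θ ^ (2 * D + 2) := by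
      rw [show 2 * (Ca * (2 * Θ)) ^ 2 = (8 * Ca ^ 2) * Θ ^ 2 by ring, mul_pow, ← pow_mul]
      ring_nf
    have h2 : (2 * ((D : ℝ) + 2) * (2 * (Ca * (2 * Θ)) ^ 2) ^ (D + 1)) *
        ((((D₂ + 1 : ℕ) : ℝ) + 1) * 2 ^ (D₂ + 1) * (Cf * z)) =
        (2 * (D + 2) * (8 * Ca ^ 2) ^ (D + 1) * (((D₂ + 1 : ℕ) + 1) * 2 ^ (D₂ + 1) * Cf)) *
          Θ ^ (2 * D + 2) * z := by
      rw [h1]
      ring
    rw [h2]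
    exact mul_le_mul_of_nonneg_right (mul_le_mul hCA hXD (by positivity) hC0) hz
  have w5 : (((D₂ + 1 : ℕ) : ℝ) + 1) * 2 ^ (D₂ + 1) * (Cf * z) ≤ Ca * (2 * Θ) := by
    have h1 : (((D₂ + 1 : ℕ) : ℝ) + 1) * 2 ^ (D₂ + 1) * (Cf * z) ≤ C * X * z := by
      have h2 : (((D₂ + 1 : ℕ) : ℝ) + 1) * 2 ^ (D₂ + 1) * (Cf * z) =
          (((D₂ + 1 : ℕ) : ℝ) + 1) * 2 ^ (D₂ + 1) * Cf * z := by ring
      rw [h2]
      refine mul_le_mul_of_nonneg_right ?_ hz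
      have h3 : C ≤ C * X := le_mul_of_one_le_right (by positivity) hX1
      linarith
    have h2 : 0 ≤ C * X * E := by positivity
    have h3 : (1 : ℝ) ≤ Ca * (2 * Θ) := by nlinarith
    have h4 : 0 ≤ Cd * Θ ^ Cd * E := by positivity
    linarith
  refine ⟨hEd1, w5, le_trans (add_le_add le_rfl w4) ?_⟩
  linarith

end Pool.NA3
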