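import Pool.Agent.H3.NA9.Ndg
import Pool.Agent.H3.NA9.Law
import Pool.Agent.H3.NA9.Ndk

/-!
# The data in real form, from the geometry of one sample

`rlh_geo`: the structure `RlH` for any law of configurations over the samples.
-/

set_option autoImplicit false

namespace Pool.NA3

open Finset Real MvPolynomial
open Pool.Agent.H49.Ent Pool.Agent.H32.Dense Pool.STK Pool.KA Pool.KSAT Pool.K2S Pool.PB Pool.S6C
open Pool.GEN hiding Det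
open Pool.CHT Pool.D2R Pool.LA91 Pool.RCD
open Pool.BFL (Pb)
open Pool.PB.Trl (rt rt_mem t_rt)
open Pool.CLO80 (hd)
open Pool.V0F (cR det_cR)
open Pool.V0Q (cl2_cR)
open Pool.NDC42
open Pool.ND54 (grP grP_deg opl hh hLc pc_near pc_near1 hgt_par hg_near elN cR_mono det_xg)
open Pool.CLU (cpn_law cpn_pos)
open Pool.NDD66 (mu op op_at)

variable {m J : ℕ}

/-- The slope of a sample over the chart of `t`, in natural units, `b` digits. -/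
noncomputable def slC (F : Fam m J) (c : ℕ → Fin m) (w : ℝ) (b : ℕ) (gt : ℕ → ℕ)
    (G : PtT F → ℕ → MvPolynomial (Option (Fin m)) ℝ)
    (Hr : LnT F → ℕ → MvPolynomial (Option (Fin m)) ℝ) (ω : F.Ω) : ℤ :=
  ⌊(2 : ℝ) ^ b * (2 ^ gt 3 / 2 ^ gt 2 * eval (bt F ω)
    (pderiv (some (c 2)) (Hr (slam F ⌊w * J⌋₊ ω) 3 - G (ptr F J ω) 3)))⌋

/-- **The data in real form**, from the geometry of one sample, the divided difference over the labels of `w`,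
and the entropies of one sample. -/
theorem rlh_geo (D : ℕ) : ∃ C₀ : ℕ, 1 ≤ C₀ ∧ ∀ D₂ Dt : ℕ, D ≤ D₂ → D + 1 ≤ Dt → ∃ C : ℕ, 1 ≤ C ∧
    ∀ {m J : ℕ} {F : Fam m J} {A : F.Ω → Prop} {c : ℕ → Fin m} {w t : ℝ} {n : ℕ → ℝ}
    {nt : ℝ} {k q B b : ℕ} {gw gt : ℕ → ℕ}
    {G : PtT F → ℕ → MvPolynomial (Option (Fin m)) ℝ}
    {H Hr : LnT F → ℕ → MvPolynomial (Option (Fin m)) ℝ} {Θ Bc : ℝ} {Kc : Type} {kc : F.Ω → Kc}
    {s Su ε₀ ε₁ e c₁ E : ℝ} {Ω' Y : Type} [Fintype Ω'] {q' : Ω' → ℝ} {pr : Ω' → F.Ω}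
    {y : Ω' → Y} {nn : ℕ} {jj : Fin (D + 1) → Fin nn},
    NdG F A c D D₂ w t n k q B b gw gt G H Hr Θ Bc → 0 < Pe F.p A →
    -- the numbers
    4 * (q + C * (k + 1)) + b ≤ B → (gt 2 + b : ℝ) ≤ n 2 * J → 1 ≤ Θ → 2 ^ k ≤ Θ →
    1 / Θ ≤ 2 ^ gt 2 * s → 2 ^ gt 2 * Su ≤ Θ → 0 ≤ ε₀ → 0 ≤ e →
    E = 2 ^ (C * (k + 1) + 4 * (q + C * (k + 1))) / 2 ^ B →
    C * Θ ^ C₀ * (2 ^ gt 3 / 2 ^ gt 2 * ε₀ + E + 1 / 2 ^ b +
      2 ^ gt 3 / 2 ^ gt 2 * Bc / (2 ^ (⌊t * J⌋₊ - ⌊w * J⌋₊)) ^ (Dt + 1)) ≤ ε₁ → ε₁ ≤ 1 →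
    (nt * J - gt 2) * Real.log 2 ≤ e →
    -- the codes
    (∀ ω ω', A ω → A ω' → slam F ⌊w * J⌋₊ ω = slam F ⌊w * J⌋₊ ω' → kc ω = kc ω') →
    (∀ ω ω', A ω → A ω' → elN F A c D w n nt H kc ω = elN F A c D w n nt H kc ω' →
      ∀ τ ∈ Set.Icc (0 : ℝ) 1, |(grP F c D₂ ⌊w * J⌋₊ H Hr (slam F ⌊w * J⌋₊ ω) 2).eval τ -
        (grP F c D₂ ⌊w * J⌋₊ H Hr (slam F ⌊w * J⌋₊ ω') 2).eval τ| ≤ 2 ^ gw 2 / 2 ^ (gw 3 + B)) →
    -- the law of configurations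
    IsLaw q' → Marg q' (Pool.Agent.H49.Ent.cond F.p A True) pr →
    Det q' y (fun v => F.T (pr v)) → Det q' y (fun v => cR F A t (pr v)) →
    Det q' y (fun v => x0 F A c D w n nt H (pr v)) →
    Pb (cpn q' y nn) (fun v => ¬ ((∀ i i', i ≠ i' →
        s ≤ |hh F c D w (n 2) H (pr (hd jj v i)) - hh F c D w (n 2) H (pr (hd jj v i'))| ∧
          |hh F c D w (n 2) H (pr (hd jj v i)) - hh F c D w (n 2) H (pr (hd jj v i'))| ≤ Su) ∧
      |∑ i, mu (fun i => hh F c D w (n 2) H (pr (hd jj v i))) i *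
        (grP F c D₂ ⌊w * J⌋₊ H Hr (slam F ⌊w * J⌋₊ (pr (hd jj v i))) 2).eval
          (rt F ⌊w * J⌋₊ (pr (v 0)))| ≤ ε₀)) ≤ c₁ →
    -- the entropies
    CH (Pool.Agent.H49.Ent.cond F.p A True) (elN F A c D w n nt H kc) (x0 F A c D w n nt H) ≤
      (n 2 - nt) * J * Real.log 2 + e →
    CH (Pool.Agent.H49.Ent.cond F.p A True) (hgC F c w H 2 (n 2))
      (fun ω => (elN F A c D w n nt H kc ω, F.T ω)) ≤ e →
    (n 2 - nt) * J * Real.log 2 - e ≤ CH q' (fun v => hgC F c w H 2 (n 2) (pr v)) y →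
    ((J - ⌊t * J⌋₊ : ℕ) : ℝ) * Real.log 2 - e ≤
      CH (Pool.Agent.H49.Ent.cond F.p A True) F.T (slam F ⌊t * J⌋₊) →
    CH (Pool.Agent.H49.Ent.cond F.p A True) (fun ω => fun l : Fin 2 => hgC F c w H l (n l) ω)
      (fun ω => (F.T ω, x0 F A c D w n nt H ω)) ≤ e →
    CH (Pool.Agent.H49.Ent.cond F.p A True) (slC F c w b gt G Hr) (rP F A c w t n H) ≤ e →
    RlH q' (fun v => slam F ⌊t * J⌋₊ (pr v)) (fun v => ptr F J (pr v)) y
      (fun v => x0 F A c D w n nt H (pr v))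
      (fun v => ((cR F A t (pr v), F.W (pr v)),
        fun l : Fin 2 => hgC F c w H l (n l) (rpt F A (pr v))))
      (fun v => (cR F A t (pr v), (slam F ⌊t * J⌋₊ (pr v)).2.2))
      (fun v => elN F A c D w n nt H kc (pr v)) (fun v => F.T (pr v))
      (fun v => hgC F c w H 2 (n 2) (pr v)) (fun v => ⌊(2 : ℝ) ^ b * rt F ⌊t * J⌋₊ (pr v)⌋)
      (fun v => ⌊(2 : ℝ) ^ b * uo F c ⌊t * J⌋₊ gt 2 (chi F A t G) (cR F A t) (rpt F A (pr v))⌋)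
      (fun v => ⌊(2 : ℝ) ^ b * so F c ⌊t * J⌋₊ gt 2 (chi F A t G)
        (fun ω => Hr (slam F ⌊w * J⌋₊ ω) 3) (cR F A t) (rpt F A (pr v))⌋)
      (fun v => rt F ⌊t * J⌋₊ (pr v))
      (fun v => so F c ⌊t * J⌋₊ gt 2 (chi F A t G) (fun ω => Hr (slam F ⌊w * J⌋₊ ω) 3)
        (cR F A t) (rpt F A (pr v)))
      (fun a v => uS F c ⌊t * J⌋₊ gt 2 (chi F A t G a.1) (pr v))
      (fun a v => cutP Dt (cS F c ⌊t * J⌋₊ gt 2 (chi F A t G a.1)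
        (Hr (slam F ⌊w * J⌋₊ (pr v)) 3) (pr v)))
      Dt (2 ^ b) jj (C * Θ) ε₁ (((J - ⌊t * J⌋₊ : ℕ) : ℝ) * Real.log 2)
      ((n 2 - nt) * J * Real.log 2) (e + C) c₁ := by
  classical
  obtain ⟨Cd, hCd, hchg⟩ := ndg_dd D
  refine ⟨Cd + 2 * D + 4, by omega, ?_⟩
  intro D₂ Dt hD hDt
  obtain ⟨Cp, hCp, htwo⟩ := ndg_two D₂
  obtain ⟨Cu, hCu, hcnt⟩ := uf_cnt D
  obtain ⟨Ca, hCa, hasm⟩ := rlh_asm D₂ 2
  obtain ⟨Cf, hCf, hfine⟩ := ndg_cf D₂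
  obtain ⟨A₁, hA₁⟩ : ∃ A₁ : ℝ, A₁ = 2 * (D + 2) * (8 * Ca ^ 2) ^ (D + 1) *
    (((D₂ + 1 : ℕ) + 1) * 2 ^ (D₂ + 1) * Cf) := ⟨_, rfl⟩
  have hA₁0 : 0 ≤ A₁ := by rw [hA₁]; positivity
  obtain ⟨C', hC'⟩ := exists_nat_ge (A₁ + 4 * Ca + ((D₂ + 1 : ℕ) + 1) * 2 ^ (D₂ + 1) * Cf)
  obtain ⟨C, hC⟩ : ∃ C : ℕ, C = Cd + Cp + Cu + C' + 8 := ⟨_, rfl⟩
  have hA₂0 : 0 ≤ (((D₂ + 1 : ℕ) : ℝ) + 1) * 2 ^ (D₂ + 1) * Cf := by positivity
  have hCr : (C : ℝ) = Cd + Cp + Cu + C' + 8 := by rw [hC]; push_cast; ring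
  have hCd0 : (0 : ℝ) ≤ Cd := Nat.cast_nonneg _
  have hCp0 : (0 : ℝ) ≤ Cp := Nat.cast_nonneg _
  have hCu0 : (0 : ℝ) ≤ Cu := Nat.cast_nonneg _
  refine ⟨C, by omega, ?_⟩
  intro m J F A c w t n nt k q B b gw gt G H Hr Θ Bc Kc kc s Su ε₀ ε₁ e c₁ E Ω' Y _ q' pr y nn jj
    N hA hB hn2 hΘ hkΘ hsΘ hSΘ hε₀ he hE hε₁ hε₁1 hnt hk1 hk3 hq hm hyT hyz hyx hdd kef keo keU kT2
    kU1 kfew
  have hpl := isLaw_cond F.isLaw hA
  have p0 := hpl.nonneg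
  have hAp : ∀ ω, 0 < Pool.Agent.H49.Ent.cond F.p A True ω → A ω := fun ω hω =>
    of_eq_true ((cond_pos_iff F.isLaw.nonneg A True ω).1 hω).2
  have hpA : ∀ ω, A ω → 0 < (if A ω then (1 : ℝ) else 0) := fun ω hω => by
    simp only [hω, if_true]
    norm_num
  have hif : ∀ ω, 0 < (if A ω then (1 : ℝ) else 0) → A ω := fun ω hω => by
    by_contra h8
    simp only [h8, if_false] at hω
    exact lt_irrefl _ hω
  obtain ⟨hwt, htJ⟩ := N.wt'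
  have hwJ : ⌊w * J⌋₊ ≤ J := hwt.trans htJ
  -- numbers
  have hΘ0 : 0 < Θ := by linarith
  have hE0 : 0 < E := by rw [hE]; positivity
  have hb0 : (0 : ℝ) < 2 ^ b := by positivity
  have hg2 : (0 : ℝ) < 2 ^ gt 2 := by positivity
  have hg3 : (0 : ℝ) < 2 ^ gt 3 := by positivity
  have mCd : Cd * (k + 1) ≤ C * (k + 1) := Nat.mul_le_mul_right _ (by omega)
  have mCp : Cp * (k + 1) ≤ C * (k + 1) := Nat.mul_le_mul_right _ (by omega)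
  have mCu : Cu * (k + 1) ≤ C * (k + 1) := Nat.mul_le_mul_right _ (by omega)
  obtain ⟨s₃, hs₃⟩ : ∃ s₃ : ℝ, s₃ = 2 ^ gt 3 / 2 ^ gt 2 := ⟨_, rfl⟩
  have hs₃0 : 0 < s₃ := by rw [hs₃]; positivity
  have hBc0 : 0 ≤ Bc := by
    obtain ⟨ω, hω⟩ : ∃ ω, 0 < Pool.Agent.H49.Ent.cond F.p A True ω := by
      by_contra hcon
      push Not at hcon
      have h1 := hpl.sum_one
      have h2 : ∑ ω, Pool.Agent.H49.Ent.cond F.p A True ω ≤ 0 :=
        Finset.sum_nonpos fun ω _ => hcon ω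
      linarith
    exact (abs_nonneg _).trans (N.bc ω (hAp ω hω) 0 ⟨le_rfl, zero_le_one⟩)
  obtain ⟨β, hβ⟩ : ∃ β : ℝ, β = 1 / 2 ^ (⌊t * J⌋₊ - ⌊w * J⌋₊) := ⟨_, rfl⟩
  have hβ0 : 0 < β := by rw [hβ]; positivity
  obtain ⟨z, hz⟩ : ∃ z : ℝ, z = s₃ * (Bc * β ^ (Dt + 1)) := ⟨_, rfl⟩
  have hz0 : 0 ≤ z := by rw [hz]; positivity
  obtain ⟨ε₂, hε₂⟩ : ∃ ε₂ : ℝ, ε₂ = Cf * z := ⟨_, rfl⟩
  have hε₂0 : 0 ≤ ε₂ := by rw [hε₂]; positivity
  have e4 : 2 ^ gt 3 / 2 ^ gt 2 * Bc / (2 ^ (⌊t * J⌋₊ - ⌊w * J⌋₊)) ^ (Dt + 1) = z := by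
    rw [hz, hs₃, hβ, one_div, inv_pow]
    ring
  rw [e4, ← hs₃] at hε₁
  obtain ⟨Ed, hEd⟩ : ∃ Ed : ℝ, Ed = 2 ^ (Cd * (k + 1) + (1 + 3) * (q + Cd * (k + 1))) / 2 ^ B :=
    ⟨_, rfl⟩
  obtain ⟨Ep, hEp⟩ : ∃ Ep : ℝ, Ep = 2 ^ (Cp * (k + 1) + (1 + 3) * (q + Cp * (k + 1))) / 2 ^ B :=
    ⟨_, rfl⟩
  have hEdE : Ed ≤ E := by
    rw [hEd, hE]
    exact div_le_div_of_nonneg_right (pow_le_pow_right₀ (by norm_num) (by omega)) (by positivity)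
  have hEpE : Ep ≤ E := by
    rw [hEp, hE]
    exact div_le_div_of_nonneg_right (pow_le_pow_right₀ (by norm_num) (by omega)) (by positivity)
  obtain ⟨hEd1, w5, hfin'⟩ := geo_num (Cd := Cd) (D := D) (D₂ := D₂) (Ca := Ca) (C := C) (Cf := Cf)
    (X := Θ ^ (Cd + 2 * D + 4)) (s := s₃ * ε₀) (E := E) (Ed := Ed) (d := 1 / 2 ^ b) (z := z)
    (ε₁ := ε₁) hΘ (one_le_pow₀ hΘ) (pow_le_pow_right₀ hΘ (by omega))
    (pow_le_pow_right₀ hΘ (by omega)) (by positivity) hE0 hEdE (by positivity) hz0 hCa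
    (by linarith) (by linarith) (by linarith) hε₁ hε₁1
  rw [← hε₂] at w5 hfin'
  -- the charts
  have hchi : ∀ ω, A ω → chi F A t G (cR F A t ω) = cutS (G (ptr F J ω)) := fun ω hω =>
    chi_eq N.hGc hω
  have hchir : ∀ ω ω', A ω → A ω' → cR F A t ω' = cR F A t ω →
      chi F A t G (cR F A t ω') = cutS (G (ptr F J ω)) := fun ω ω' hω hω' h => by
    rw [h]
    exact hchi ω hω
  have huo : ∀ ω, A ω → uo F c ⌊t * J⌋₊ gt 2 (chi F A t G) (cR F A t) ω =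
      2 ^ gt 2 * (F.x ω (c 2) - eval (bt F ω) (G (ptr F J ω) 2)) := fun ω hω => by
    unfold uo
    rw [uS_own F htJ, hchi ω hω, cutS_of _ (by norm_num)]
  have hso : ∀ ω, A ω → so F c ⌊t * J⌋₊ gt 2 (chi F A t G)
      (fun ω => Hr (slam F ⌊w * J⌋₊ ω) 3) (cR F A t) ω = 2 ^ gt 3 / 2 ^ gt 2 * eval (bt F ω)
      (pderiv (some (c 2)) (Hr (slam F ⌊w * J⌋₊ ω) 3 - G (ptr F J ω) 3)) := fun ω hω => by
    unfold so
    rw [cS_own F htJ, hchi ω hω, cutS_of _ (by norm_num)]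
  have hcRs : ∀ ω ω', A ω → A ω' → slam F ⌊t * J⌋₊ ω = slam F ⌊t * J⌋₊ ω' →
      cR F A t ω = cR F A t ω' := fun ω ω' a a' h => by
    obtain ⟨-, ψ, hψ⟩ := cl2_cR (F := F) (J := J) A t
    have h2 : vg t J F ω = vg t J F ω' := h
    rw [hψ ω a, hψ ω' a', h2]
  have hcRp : ∀ ω ω', A ω → A ω' → ptr F J ω = ptr F J ω' → cR F A t ω = cR F A t ω' :=
    fun ω ω' a a' h => by
    obtain ⟨⟨ψ, hψ⟩, -⟩ := cl2_cR (F := F) (J := J) A t
    rw [hψ ω a, hψ ω' a', h]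
  have hslw : ∀ ω ω' : F.Ω, slam F ⌊t * J⌋₊ ω = slam F ⌊t * J⌋₊ ω' →
      slam F ⌊w * J⌋₊ ω = slam F ⌊w * J⌋₊ ω' := fun ω ω' h => by
    obtain ⟨φ, hφ⟩ := vg_mono N.wt N.t1 J F
    have h1 := hφ ω
    have h2 := hφ ω'
    have h3 : vg t J F ω = vg t J F ω' := h
    have h4 : vg w J F ω = vg w J F ω' := by rw [h1, h2, h3]
    exact h4
  -- the assembly
  obtain ⟨εa, hεa⟩ : ∃ εa : ℝ, εa = s₃ * ε₀ + (2 * E + Cd * Θ ^ Cd * E) := ⟨_, rfl⟩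
  have hfin : εa + 2 / 2 ^ b + (2 * ((D : ℝ) + 2) * (2 * (Ca * (2 * Θ)) ^ 2) ^ (D + 1)) *
      ((((D₂ + 1 : ℕ) : ℝ) + 1) * 2 ^ (D₂ + 1) * ε₂) ≤ ε₁ := by
    have h1 : 2 / (2 : ℝ) ^ b = 2 * (1 / 2 ^ b) := by ring
    rw [h1, hεa]
    exact hfin'
  have hεa0 : 0 ≤ εa := by rw [hεa]; positivity
  have z1 : 0 ≤ s₃ * ε₀ := by positivity
  have hEa : 2 * E ≤ εa := by
    have : 0 ≤ Cd * Θ ^ Cd * E := by positivity
    rw [hεa]
    linarith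
  have R := hasm (F := F) (A := A) (c := c) (t := ⌊t * J⌋₊) (k := b) (gt := gt) (zt := cR F A t)
    (xb := x0 F A c D w n nt H) (ell := elN F A c D w n nt H kc) (Uf := hgC F c w H 2 (n 2))
    (hv := fun ω => fun l : Fin 2 => hgC F c w H l (n l) ω) (χ := chi F A t G)
    (R := fun ω => Hr (slam F ⌊w * J⌋₊ ω) 3) (q := q') (pr := pr) (y := y) (K := D) (n := nn)
    (jj := jj) (Θ := 2 * Θ) (ε := εa) (cU := (n 2 - nt) * J * Real.log 2) (e := e + 4) (c₁ := c₁)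
    hA N.tb hq hm (by linarith) hεa0 (by linarith) hcRp
    (fun ω ω' a a' h => ⟨hcRs ω ω' a a' h, Prod.ext (det_xg hif ω ω' (hpA ω a) (hpA ω' a')
      (hslw ω ω' h)) (hk1 ω ω' a a' (hslw ω ω' h))⟩)
    (fun ω ω' _ _ h => congrArg (fun z => z.1.1.1) h)
    (fun ω ω' _ _ h => congrArg (fun z => z.1.2) h) hyT hyz hyx
    (fun z l => (chi_deg N.dG z l).trans hD) (fun ω => N.dR _)
    (fun ω a => by
      rw [huo ω a, abs_mul, abs_of_pos hg2]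
      calc (2 : ℝ) ^ gt 2 * _ ≤ 2 ^ gt 2 * (1 / 2 ^ gt 2) :=
            mul_le_mul_of_nonneg_left (N.pos ω a 2 le_rfl) hg2.le
        _ = 1 := by field_simp)
    (fun ω a σ hσ => by
      rw [hchi ω a, uS_eval, cS_eval, abs_mul, abs_mul, abs_of_pos hg2,
        abs_of_pos (show (0 : ℝ) < 2 ^ gt (2 + 1) / 2 ^ gt 2 by positivity)]
      constructor
      · have h1 := N.pth ω a 2 le_rfl σ hσ
        rw [op_eval] at h1 ⊢
        rw [cutS_of _ (by norm_num : 2 ≤ 3)]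
        calc (2 : ℝ) ^ gt 2 * _ ≤ 2 ^ gt 2 * (2 ^ k / 2 ^ gt 2) :=
              mul_le_mul_of_nonneg_left h1 hg2.le
          _ = 2 ^ k := by field_simp
          _ ≤ 2 * Θ := by linarith
      · have h1 := N.slp ω a σ hσ
        have h2 : |eval (fun o => (lc ⌊t * J⌋₊ (slam F ⌊t * J⌋₊ ω) o).eval σ)
            (pderiv (some (c 2)) (Hr (slam F ⌊w * J⌋₊ ω) 3 - cutS (G (ptr F J ω)) 3))| ≤
            Θ * 2 ^ gt 2 / 2 ^ gt 3 := by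
          rw [cutS_of _ le_rfl]
          exact h1
        calc (2 : ℝ) ^ gt 3 / 2 ^ gt 2 * _ ≤ 2 ^ gt 3 / 2 ^ gt 2 * (Θ * 2 ^ gt 2 / 2 ^ gt 3) :=
              mul_le_mul_of_nonneg_left h2 (by positivity)
          _ = Θ := by field_simp
          _ ≤ 2 * Θ := by linarith)
    (fun ω ω' a a' h => by
      refine ⟨?_, ?_, fun l => ?_⟩
      · rw [huo ω a, huo ω' a', ← mul_sub, abs_mul, abs_of_pos hg2]
        calc (2 : ℝ) ^ gt 2 * _ ≤ 2 ^ gt 2 * (1 / 2 ^ (gt 2 + b)) :=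
              mul_le_mul_of_nonneg_left (N.nu ω ω' a a' h) hg2.le
          _ = 1 / 2 ^ b := by rw [pow_add]; field_simp
      · rw [hso ω a, hso ω' a', ← mul_sub, abs_mul,
          abs_of_pos (show (0 : ℝ) < 2 ^ gt 3 / 2 ^ gt 2 by positivity)]
        calc (2 : ℝ) ^ gt 3 / 2 ^ gt 2 * _ ≤ 2 ^ gt 3 / 2 ^ gt 2 * (2 ^ gt 2 / 2 ^ (gt 3 + b)) :=
              mul_le_mul_of_nonneg_left (N.ns ω ω' a a' h) (by positivity)
          _ = 1 / 2 ^ b := by rw [pow_add]; field_simp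
      · have hN0 : (0 : ℝ) < 2 ^ (n l * J) := Real.rpow_pos_of_pos (by norm_num) _
        have h1 := N.nh ω ω' a a' h l l.2
        have h2 : |(2 : ℝ) ^ (n l * J) * (F.x ω (c l) -
            eval (bt F ω) (H (slam F ⌊w * J⌋₊ ω) l)) - 2 ^ (n l * J) * (F.x ω' (c l) -
            eval (bt F ω') (H (slam F ⌊w * J⌋₊ ω') l))| ≤ 1 := by
          rw [← mul_sub, abs_mul, abs_of_pos hN0]
          calc (2 : ℝ) ^ (n l * J) * _ ≤ 2 ^ (n l * J) * (1 / 2 ^ (n l * J)) :=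
                mul_le_mul_of_nonneg_left h1 hN0.le
            _ = 1 := by field_simp
        have h3 := fl_near h2
        unfold hgC
        rw [Pool.OWN54.ojet_zero, Pool.OWN54.ojet_zero]
        exact h3.trans (by norm_num))
    (fun ω ω' a a' hel hz htk σ hσ => by
      have h1 := (htwo (nt := nt) N hD (by omega) hEp ω ω' a a' hz htk.symm
        (congrArg (fun z => z.1.1.1) hel)).2 (congrArg (fun z => z.1.1.2) hel)
      have h2 := h1.1 σ hσ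
      have h3 := h1.2 (hk3 ω ω' a a' hel) σ hσ
      rw [hchi ω a]
      exact ⟨h2.trans (by linarith), h3.trans (by linarith)⟩)
    (fun ω ω' a a' hx hz htk σ hσ => by
      have h1 := (htwo (nt := nt) N hD (by omega) hEp ω ω' a a' hz htk.symm hx).1 σ hσ
      rw [hchi ω a]
      exact h1.trans (by linarith))
    ?_ (kef.trans (by linarith)) (keo.trans (by linarith)) (by linarith) (by linarith)
    (kU1.trans (by linarith)) ?_ ?_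
  · -- truncation
    have T := rlh_trunc R (by nlinarith) (Dt := Dt) (ε₂ := ε₂) (ε' := ε₁) hε₂0
      (fun a v => (uS_deg F c ⌊t * J⌋₊ gt 2 (fun l => chi_deg N.dG a.1 l) _).trans hDt)
      (fun v v' hv hv' h j hj => by
        have a := hAp _ (hm.pos hq.nonneg hv)
        have a' := hAp _ (hm.pos hq.nonneg hv')
        have h1 : cR F A t (pr v) = cR F A t (pr v') := (Prod.ext_iff.1 h).1
        have h2 := hfine N hD hDt a' j hj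
        show |(cS F c ⌊t * J⌋₊ gt 2 (chi F A t G (cR F A t (pr v)))
          (Hr (slam F ⌊w * J⌋₊ (pr v')) 3) (pr v')).coeff j| ≤ ε₂
        rw [hchir _ _ a' a h1]
        refine h2.trans (le_of_eq ?_)
        rw [hε₂, hz, hβ, hs₃]
        ring)
      hfin w5
    refine rlh_mono T (by nlinarith) ?_ le_rfl ?_ le_rfl
    · have h1 : (4 : ℝ) * Ca * Θ ≤ C * Θ := mul_le_mul_of_nonneg_right (by linarith) hΘ0.le
      linarith
    · linarith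
  · -- dd
    refine (Pool.STB.Pb_mono (cpn_law hq y nn).nonneg fun v hv hn h => hn ?_).trans hdd
    obtain ⟨hvq, hvy⟩ := cpn_pos hq.nonneg y nn v hv
    have hνj : ∀ i, ∃ j, hd jj v i = v j := fun i => ⟨hd jj id i, hd_at jj v i⟩
    have hν0 : hd jj v 0 = v 0 := rfl
    have hνA : ∀ i, A (pr (hd jj v i)) := fun i => by
      obtain ⟨j, hj⟩ := hνj i
      rw [hj]
      exact hAp _ (hm.pos hq.nonneg (hvq j))
    have hνy : ∀ {S : Type} (g : Ω' → S), Det q' y g → ∀ i, g (hd jj v i) = g (v 0) :=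
      fun g hg i => by
        obtain ⟨j, hj⟩ := hνj i
        rw [hj]
        exact hg _ _ (hvq j) (hvq 0) (hvy j)
    have h1 := hchg (ν := fun i => pr (hd jj v i)) (s := s) (Su := Su) (ε₀ := ε₀) (E := Ed)
      (nt := nt) N hD (by omega) hΘ hsΘ hSΘ hEd hEd1 hνA (hνy _ hyT) (hνy _ hyz) (hνy _ hyx)
      h.1 h.2
    have h2 : chi F A t G (cR F A t (pr (v 0))) = cutS (G (ptr F J (pr (v 0)))) :=
      hchi _ (hνA 0)
    rw [h2]
    refine ⟨h1.1, h1.2.trans ?_⟩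
    rw [hεa, ← hs₃]
    have h3 : Cd * Θ ^ Cd * Ed ≤ Cd * Θ ^ Cd * E := mul_le_mul_of_nonneg_left hEdE (by positivity)
    linarith
  · -- U2
    have h1 := hcnt hA N.inj N.wt N.t1 N.tb (fun l hl => N.lv l (by omega)) N.dG N.pG N.dH N.pH
      N.hHc N.hGc N.pos (fun ω a l hl => N.cmp ω a l (by omega)) (fun l hl =>
        le_trans (div_le_div_of_nonneg_right (by linarith [Nat.cast_nonneg (α := ℝ) D])
          (Real.rpow_pos_of_pos (by norm_num) _).le) (N.d01 l hl)) (by omega) hn2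
    refine h1.trans ?_
    linarith
  · -- few
    refine le_trans (CH_mono_cond p0 fun ω ω' _ _ h => ?_) (le_trans (le_of_eq ?_)
      (kfew.trans (by linarith)) : CH (Pool.Agent.H49.Ent.cond F.p A True)
      (fun ω => ⌊(2 : ℝ) ^ b * so F c ⌊t * J⌋₊ gt 2 (chi F A t G)
        (fun ω => Hr (slam F ⌊w * J⌋₊ ω) 3) (cR F A t) ω⌋) (rP F A c w t n H) ≤ e + 4)
    · have h1 := Prod.ext_iff.1 h
      have h2 := Prod.ext_iff.1 (Prod.ext_iff.1 h1.2).2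
      exact Prod.ext h2.1 (Prod.ext h2.2 h1.1)
    · have hsl : ∀ ω, 0 < Pool.Agent.H49.Ent.cond F.p A True ω →
          ⌊(2 : ℝ) ^ b * so F c ⌊t * J⌋₊ gt 2 (chi F A t G)
            (fun ω => Hr (slam F ⌊w * J⌋₊ ω) 3) (cR F A t) ω⌋ = slC F c w b gt G Hr ω :=
        fun ω hω => by
          rw [hso ω (hAp ω hω)]
          rfl
      refine CH_congr p0 (fun ω ω' a a' h => ?_) (fun ω ω' a a' h => ?_) (fun _ _ _ _ h => h)
        (fun _ _ _ _ h => h)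
      · have h1 := (Prod.ext_iff.1 h).1
        show slC F c w b gt G Hr ω = slC F c w b gt G Hr ω'
        rw [← hsl ω a, ← hsl ω' a']
        exact h1
      · have h1 : slC F c w b gt G Hr ω = slC F c w b gt G Hr ω' := (Prod.ext_iff.1 h).1
        rw [← hsl ω a, ← hsl ω' a'] at h1
        exact h1

end Pool.NA3
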